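import Mathlib

set_option autoImplicit false
open scoped InnerProductSpace ComplexConjugate

namespace Pool.Agent.H612R3.Bp

/-- the Blaschke factor `b_a(z) = (z - a) / (1 - conj a z)` -/
noncomputable def bl (a z : ℂ) : ℂ := (z - a) / (1 - conj a * z)

section fac

variable {Y : Type} [NormedAddCommGroup Y] [InnerProductSpace ℂ Y]

/-- the elementary factor `b_a(z) P + (I - P)`, `P` the projection on the line of `w` -/
noncomputable def fac (a : ℂ) (w : Y) (z : ℂ) : Module.End ℂ Y :=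
  LinearMap.id + (bl a z - 1) • (LinearMap.toSpanSingleton ℂ Y w ∘ₗ (innerₛₗ ℂ w))

theorem fac_apply (a : ℂ) (w : Y) (z : ℂ) (y : Y) : fac a w z y = y + ((bl a z - 1) * ⟪w, y⟫_ℂ) • w := by
  simp [fac, mul_smul, LinearMap.toSpanSingleton_apply]

theorem fac_isom (ν : Y →ₗᵢ[ℂ] Y) (a : ℂ) (w : Y) (z : ℂ) (y : Y) :
    fac a (ν w) z (ν y) = ν (fac a w z y) := by
  rw [fac_apply, fac_apply, LinearIsometry.inner_map_map, map_add, map_smul]

theorem bp_factor : ∀ (r : ℕ) (X : Type) [NormedAddCommGroup X] [InnerProductSpace ℂ X]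
    [FiniteDimensional ℂ X] [FiniteDimensional ℂ Y], Module.finrank ℂ X = r →
    ∀ (A : X →ₗ[ℂ] X) (B : Y →ₗ[ℂ] X) (C : X →ₗ[ℂ] Y) (D : Y →ₗ[ℂ] Y),
    (∀ x y x' y', ⟪A x + B y, A x' + B y'⟫_ℂ + ⟪C x + D y, C x' + D y'⟫_ℂ = ⟪x, x'⟫_ℂ + ⟪y, y'⟫_ℂ) →
    (∀ (c : ℂ) (x : X), x ≠ 0 → A x = c • x → ‖c‖ < 1) →
    ∃ (ν : Y →ₗᵢ[ℂ] Y) (L : List (ℂ × Y)), L.length = r ∧ (∀ q ∈ L, ‖q.1‖ < 1 ∧ ‖q.2‖ = 1) ∧
      ∀ z : ℂ, ‖z‖ ≤ 1 → ∀ (x : X) (u : Y), x = z • (A x + B u) →
        C x + D u = ν ((L.map (fun q => fac q.1 q.2 z)).prod u) := by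
  intro r
  induction r with
  | zero =>
    intro X _ _ _ _ hX A B C D hU _
    have hsub : Subsingleton X := Module.finrank_zero_iff.1 hX
    have hD : ∀ y, ‖D y‖ = ‖y‖ := by
      intro y
      have h1 := hU 0 y 0 y
      have h2 : A 0 + B y = 0 := Subsingleton.elim _ _
      have h2' : C 0 + D y = D y := by rw [map_zero, zero_add]
      rw [h2, h2', inner_self_eq_norm_sq_to_K, inner_self_eq_norm_sq_to_K, inner_self_eq_norm_sq_to_K,
        norm_zero] at h1
      have h3 : ‖D y‖ ^ 2 = ‖y‖ ^ 2 := by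
        have h4 : (((0:ℝ) ^ 2 + ‖D y‖ ^ 2 : ℝ) : ℂ) = (((0:ℝ) ^ 2 + ‖y‖ ^ 2 : ℝ) : ℂ) := by
          push_cast; exact h1
        have h5 := Complex.ofReal_injective h4
        linarith
      exact (pow_left_inj₀ (norm_nonneg _) (norm_nonneg _) two_ne_zero).1 h3
    refine ⟨⟨D, hD⟩, [], rfl, by simp, ?_⟩
    intro z _ x u _
    have h2 : C x = 0 := by
      have : x = 0 := Subsingleton.elim _ _
      rw [this, map_zero]
    rw [h2, zero_add]
    simp
  | succ r ih =>
    intro X _ _ _ _ hX A B C D hU hev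
    have hnt : Nontrivial X := Module.nontrivial_of_finrank_pos (R := ℂ) (by rw [hX]; omega)
    obtain ⟨α, hα⟩ := Module.End.exists_eigenvalue A
    obtain ⟨e₀, he₀⟩ := hα.exists_hasEigenvector
    have he₀0 : ‖e₀‖ ≠ 0 := norm_ne_zero_iff.2 he₀.2
    obtain ⟨e, he⟩ : ∃ e : X, e = ((‖e₀‖⁻¹ : ℝ) : ℂ) • e₀ := ⟨_, rfl⟩
    have hen : ‖e‖ = 1 := by
      rw [he, norm_smul, Complex.norm_real, norm_inv, norm_norm, inv_mul_cancel₀ he₀0]
    have hAe : A e = α • e := by
      rw [he, map_smul, he₀.apply_eq_smul, smul_comm]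
    have he0 : e ≠ 0 := by
      intro h0; rw [h0, norm_zero] at hen; exact zero_ne_one hen
    have hα1 : ‖α‖ < 1 := hev α e he0 hAe
    have hee : ⟪e, e⟫_ℂ = 1 := by
      rw [inner_self_eq_norm_sq_to_K, hen]; norm_num
    obtain ⟨s, hs⟩ : ∃ s : ℝ, s = Real.sqrt (1 - ‖α‖ ^ 2) := ⟨_, rfl⟩
    have hpos : 0 < 1 - ‖α‖ ^ 2 := by nlinarith [norm_nonneg α]
    have hs0 : 0 < s := by rw [hs]; exact Real.sqrt_pos.2 hpos
    have hs2 : s ^ 2 = 1 - ‖α‖ ^ 2 := by rw [hs]; exact Real.sq_sqrt hpos.le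
    have hsC : (s : ℂ) ≠ 0 := by exact_mod_cast hs0.ne'
    have hαα : conj α * α = 1 - (s : ℂ) ^ 2 := by
      rw [Complex.conj_mul']
      have : ‖α‖ ^ 2 = 1 - s ^ 2 := by linarith
      exact_mod_cast this
    obtain ⟨w, hw⟩ : ∃ w : Y, w = (s : ℂ)⁻¹ • C e := ⟨_, rfl⟩
    have hCe : C e = (s : ℂ) • w := by rw [hw, smul_smul, mul_inv_cancel₀ hsC, one_smul]
    have hww : ⟪w, w⟫_ℂ = 1 := by
      have h1 := hU e 0 e 0
      simp only [map_zero, add_zero, inner_zero_left] at h1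
      rw [hAe, hCe, inner_smul_left, inner_smul_right, inner_smul_left, inner_smul_right, hee,
        Complex.conj_ofReal, mul_one] at h1
      have h2 : (s : ℂ) * ((s : ℂ) * ⟪w, w⟫_ℂ) = (s : ℂ) * ((s : ℂ) * 1) := by
        rw [hαα] at h1
        linear_combination h1
      exact mul_left_cancel₀ hsC (mul_left_cancel₀ hsC h2)
    have hwn : ‖w‖ = 1 := by
      rw [inner_self_eq_norm_sq_to_K] at hww
      have : ‖w‖ ^ 2 = 1 := by
        have h4 : ((‖w‖ ^ 2 : ℝ) : ℂ) = ((1 : ℝ) : ℂ) := by push_cast; exact hww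
        exact Complex.ofReal_injective h4
      exact (pow_eq_one_iff_of_nonneg (norm_nonneg _) two_ne_zero).1 this
    -- orthogonal complement
    let X₂ : Submodule ℂ X := (ℂ ∙ e)ᗮ
    have hX₂ : Module.finrank ℂ X₂ = r := by
      have := Submodule.finrank_add_finrank_orthogonal (ℂ ∙ e)
      rw [finrank_span_singleton he0, hX] at this
      show Module.finrank ℂ ((ℂ ∙ e)ᗮ : Submodule ℂ X) = r
      omega
    let π : X →ₗ[ℂ] X₂ :=
      { toFun := fun x => ⟨x - ⟪e, x⟫_ℂ • e, by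
          rw [Submodule.mem_orthogonal_singleton_iff_inner_right, inner_sub_right, inner_smul_right, hee, mul_one, sub_self]⟩
        map_add' := fun x y => by
          apply Subtype.ext
          simp only [Submodule.coe_add, inner_add_right, add_smul]
          abel
        map_smul' := fun c x => by
          apply Subtype.ext
          simp only [Submodule.coe_smul, inner_smul_right, RingHom.id_apply, smul_sub, mul_smul] }
    have hπ : ∀ x : X, (π x : X) = x - ⟪e, x⟫_ℂ • e := fun x => rfl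
    have hmem : ∀ x : X₂, ⟪e, (x : X)⟫_ℂ = 0 := fun x =>
      (Submodule.mem_orthogonal_singleton_iff_inner_right).1 x.2
    let A₂ : X₂ →ₗ[ℂ] X₂ := π ∘ₗ A ∘ₗ X₂.subtype
    let B₂ : Y →ₗ[ℂ] X₂ := π ∘ₗ B
    let C₂ : X₂ →ₗ[ℂ] Y := (C ∘ₗ X₂.subtype) - LinearMap.toSpanSingleton ℂ Y w ∘ₗ (innerₛₗ ℂ w) ∘ₗ (C ∘ₗ X₂.subtype) +
      (s : ℂ)⁻¹ • (LinearMap.toSpanSingleton ℂ Y w ∘ₗ (innerₛₗ ℂ e) ∘ₗ (A ∘ₗ X₂.subtype))
    let D₂ : Y →ₗ[ℂ] Y := D - LinearMap.toSpanSingleton ℂ Y w ∘ₗ (innerₛₗ ℂ w) ∘ₗ D +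
      (s : ℂ)⁻¹ • (LinearMap.toSpanSingleton ℂ Y w ∘ₗ (innerₛₗ ℂ e) ∘ₗ B)
    have hAB : ∀ (x : X₂) (y : Y), A₂ x + B₂ y = π (A x + B y) := fun x y => by
      rw [map_add]; rfl
    have hCD : ∀ (x : X₂) (y : Y), C₂ x + D₂ y = (C x + D y) - ⟪w, C x + D y⟫_ℂ • w +
        ((s : ℂ)⁻¹ * ⟪e, A x + B y⟫_ℂ) • w := fun x y => by
      simp only [C₂, D₂, LinearMap.add_apply, LinearMap.sub_apply, LinearMap.comp_apply, LinearMap.smul_apply,
        LinearMap.toSpanSingleton_apply, innerₛₗ_apply_apply, Submodule.subtype_apply, inner_add_right]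
      module
    have hrel : ∀ (x : X₂) (y : Y), ⟪w, C x + D y⟫_ℂ = -(conj α * (s : ℂ)⁻¹ * ⟪e, A x + B y⟫_ℂ) := by
      intro x y
      have h1 := hU e 0 x y
      rw [map_zero, map_zero, add_zero, add_zero, hAe, hCe, inner_smul_left, inner_smul_left, hmem x,
        inner_zero_left, Complex.conj_ofReal, add_zero] at h1
      have h2 : (s : ℂ) * ⟪w, C x + D y⟫_ℂ = (s : ℂ) * (-(conj α * (s : ℂ)⁻¹ * ⟪e, A x + B y⟫_ℂ)) := by
        have : (s : ℂ) * (-(conj α * (s : ℂ)⁻¹ * ⟪e, A x + B y⟫_ℂ)) = -(conj α * ⟪e, A x + B y⟫_ℂ) := by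
          field_simp
        rw [this]
        linear_combination h1
      exact mul_left_cancel₀ hsC h2
    obtain ⟨ν, L, hL, hLq, hLz⟩ := ih X₂ hX₂ A₂ B₂ C₂ D₂ (by
      intro x y x' y'
      rw [hAB, hAB, hCD, hCD]
      have e1 : ⟪π (A x + B y), π (A x' + B y')⟫_ℂ = ⟪A x + B y, A x' + B y'⟫_ℂ -
          conj ⟪e, A x + B y⟫_ℂ * ⟪e, A x' + B y'⟫_ℂ := by
        rw [Submodule.coe_inner, hπ, hπ]
        generalize A x + B y = p
        generalize A x' + B y' = p'
        simp only [inner_sub_left, inner_sub_right, inner_smul_left, inner_smul_right, hee]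
        rw [← inner_conj_symm p e]
        ring
      rw [e1]
      have e2 : ⟪(C x + D y) - ⟪w, C x + D y⟫_ℂ • w + ((s : ℂ)⁻¹ * ⟪e, A x + B y⟫_ℂ) • w,
          (C x' + D y') - ⟪w, C x' + D y'⟫_ℂ • w + ((s : ℂ)⁻¹ * ⟪e, A x' + B y'⟫_ℂ) • w⟫_ℂ =
          ⟪C x + D y, C x' + D y'⟫_ℂ - conj ⟪w, C x + D y⟫_ℂ * ⟪w, C x' + D y'⟫_ℂ +
          (s : ℂ)⁻¹ * (s : ℂ)⁻¹ * (conj ⟪e, A x + B y⟫_ℂ * ⟪e, A x' + B y'⟫_ℂ) := by
        generalize C x + D y = p
        generalize C x' + D y' = p'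
        generalize ⟪e, A x + B y⟫_ℂ = t
        generalize ⟪e, A x' + B y'⟫_ℂ = t'
        simp only [inner_sub_left, inner_sub_right, inner_add_left, inner_add_right,
          inner_smul_left, inner_smul_right, hww, map_mul, map_inv₀, Complex.conj_ofReal]
        rw [← inner_conj_symm p w]
        ring
      rw [e2, hrel, hrel]
      have h3 := hU x y x' y'
      have h4 : conj α * α * ((s : ℂ)⁻¹ * (s : ℂ)⁻¹) + 1 - (s : ℂ)⁻¹ * (s : ℂ)⁻¹ = 0 := by
        rw [hαα]; field_simp; ring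
      simp only [map_neg, map_mul, map_inv₀, Complex.conj_ofReal, Complex.conj_conj]
      rw [Submodule.coe_inner, ← h3]
      linear_combination (-(conj ⟪e, A x + B y⟫_ℂ * ⟪e, A x' + B y'⟫_ℂ)) * h4) (by
      intro c x hx hAx
      by_cases hc : c = α
      · rw [hc]; exact hα1
      · have hAx' : A x = c • (x : X) + ⟪e, A x⟫_ℂ • e := by
          have h1 := congrArg Subtype.val hAx
          have h2 : ((A₂ x : X₂) : X) = A x - ⟪e, A x⟫_ℂ • e := rfl
          rw [h2, Submodule.coe_smul] at h1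
          rw [← h1]; abel
        have hne : c - α ≠ 0 := sub_ne_zero.2 hc
        apply hev c ((x : X) + (⟪e, A x⟫_ℂ / (c - α)) • e)
        · intro h0
          have h1 := congrArg (fun v => ⟪(x : X), v⟫_ℂ) h0
          simp only [inner_add_right, inner_smul_right, inner_zero_right] at h1
          rw [← inner_conj_symm (x : X) e, hmem x, map_zero, mul_zero, add_zero, inner_self_eq_zero] at h1
          exact hx (Subtype.ext h1)
        · rw [map_add, map_smul, hAe, hAx']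
          simp only [smul_add, smul_smul]
          rw [add_assoc, ← add_smul]
          congr 2
          rw [← hAx']
          field_simp
          ring)
    -- conclusion
    let νe : Y ≃ₗᵢ[ℂ] Y := ν.toLinearIsometryEquiv rfl
    have hνe : ∀ y, νe y = ν y := fun y => rfl
    obtain ⟨w', hw'⟩ : ∃ w' : Y, ν w' = w := ⟨νe.symm w, by rw [← hνe, LinearIsometryEquiv.apply_symm_apply]⟩
    refine ⟨ν, (conj α, w') :: L, by simp [hL], ?_, ?_⟩
    · intro q hq
      rcases List.mem_cons.1 hq with rfl | hq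
      · refine ⟨by simpa using hα1, ?_⟩
        show ‖w'‖ = 1
        rw [← ν.norm_map, hw', hwn]
      · exact hLq q hq
    · intro z hz x u hx
      have hx2 : π x = z • (A₂ (π x) + B₂ u) := by
        rw [hAB]
        have h1 : π x = z • π (A x + B u) := by
          conv_lhs => rw [hx]
          rw [map_smul]
        rw [h1]
        congr 1
        have h2 : A x = A (π x : X) + ⟪e, x⟫_ℂ • A e := by
          rw [hπ, map_sub, map_smul]; abel
        rw [← h1]
        apply Subtype.ext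
        rw [hπ, hπ, h2, hAe]
        simp only [inner_add_right, inner_smul_right, hee, mul_one, add_smul, smul_smul]
        abel
      have h1 := hLz z hz (π x) u hx2
      rw [hCD] at h1
      obtain ⟨y', hy'⟩ : ∃ y', y' = C (π x : X) + D u := ⟨_, rfl⟩
      obtain ⟨ξ, hξ⟩ : ∃ ξ, ξ = ⟪e, A (π x : X) + B u⟫_ℂ := ⟨_, rfl⟩
      have hη := hrel (π x) u
      rw [← hy', ← hξ] at hη h1
      have hξ0 : (1 - z * α) * ⟪e, x⟫_ℂ = z * ξ := by
        have h2 : ⟪e, x⟫_ℂ = z * (⟪e, x⟫_ℂ * α + ξ) := by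
          conv_lhs => rw [hx]
          rw [inner_smul_right]
          congr 1
          have h3 : A x + B u = ⟪e, x⟫_ℂ • A e + (A (π x : X) + B u) := by
            rw [hπ, map_sub, map_smul]; abel
          rw [h3, inner_add_right, hAe, inner_smul_right, inner_smul_right, hee, mul_one, hξ]
        linear_combination h2
      have hCx : C x + D u = (⟪e, x⟫_ℂ * s) • w + y' := by
        have h3 : C x = C (π x : X) + ⟪e, x⟫_ℂ • C e := by
          rw [hπ, map_sub, map_smul]; abel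
        rw [h3, hCe, smul_smul, hy']
        abel
      have hwy : ⟪w, y' - ⟪w, y'⟫_ℂ • w + ((s : ℂ)⁻¹ * ξ) • w⟫_ℂ = (s : ℂ)⁻¹ * ξ := by
        rw [inner_add_right, inner_sub_right, inner_smul_right, inner_smul_right, hww]
        ring
      have hden : 1 - α * z ≠ 0 := by
        intro h0
        have h4 : α * z = 1 := (sub_eq_zero.1 h0).symm
        have h5 := congrArg norm h4
        rw [norm_mul, norm_one] at h5
        nlinarith [norm_nonneg α, norm_nonneg z]
      rw [List.map_cons, List.prod_cons, Module.End.mul_apply, ← fac_isom, ← h1, hw', fac_apply, hwy, hCx]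
      have hb : bl (conj α) z - 1 + 1 + conj α = z * (s : ℂ) ^ 2 / (1 - α * z) := by
        unfold bl
        rw [Complex.conj_conj, eq_div_iff hden, show (s:ℂ)^2 = 1 - conj α * α by rw [hαα]; ring]
        have h6 : (z - conj α) / (1 - α * z) * (1 - α * z) = z - conj α := div_mul_cancel₀ _ hden
        linear_combination h6
      have hxi : ⟪e, x⟫_ℂ * s = (bl (conj α) z - 1 + 1 + conj α) * ((s : ℂ)⁻¹ * ξ) := by
        rw [hb]
        have hden' : 1 - z * α ≠ 0 := by rw [mul_comm]; exact hden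
        have : ⟪e, x⟫_ℂ = z * ξ / (1 - z * α) := by rw [eq_div_iff hden', mul_comm]; exact hξ0
        rw [this, mul_comm z α]
        field_simp
      rw [hxi, hη]
      module

end fac

end Pool.Agent.H612R3.Bp
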