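import Mathlib
import Pool.Agent.H612R3.Bp1

set_option autoImplicit false
open scoped InnerProductSpace ComplexConjugate
open Filter Topology

namespace Pool.Agent.H612R3.Bp

/-- equality of norms gives an isometry -/
theorem exists_isometry {H Z : Type} [AddCommGroup H] [Module ℂ H] [NormedAddCommGroup Z]
    [InnerProductSpace ℂ Z] [FiniteDimensional ℂ Z]
    (p q : H →ₗ[ℂ] Z) (h : ∀ f, ‖p f‖ = ‖q f‖) : ∃ W : Z →ₗᵢ[ℂ] Z, ∀ f, W (p f) = q f := by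
  obtain ⟨g, hg⟩ := p.rangeRestrict.exists_rightInverse_of_surjective (LinearMap.range_rangeRestrict p)
  have hg' : ∀ y : LinearMap.range p, p (g y) = y := fun y => by
    have := LinearMap.congr_fun hg y
    exact congrArg Subtype.val this
  let W₀ : LinearMap.range p →ₗᵢ[ℂ] Z := ⟨q ∘ₗ g, fun y => by
    show ‖q (g y)‖ = ‖y‖
    rw [← h, hg' y]; rfl⟩
  refine ⟨W₀.extend, fun f => ?_⟩
  have h1 : W₀.extend (p f) = W₀ ⟨p f, f, rfl⟩ := W₀.extend_apply ⟨p f, f, rfl⟩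
  rw [h1]
  show q (g ⟨p f, f, rfl⟩) = q f
  rw [← sub_eq_zero, ← map_sub, ← norm_eq_zero, ← h, map_sub, hg']
  simp

section abstract

variable {H : Type} [NormedAddCommGroup H] [InnerProductSpace ℂ H] [CompleteSpace H]

theorem exists_factor (P : H →L[ℂ] H) (hP : P.IsPositive)
    [FiniteDimensional ℂ (LinearMap.range P.toLinearMap)] (r : ℕ)
    (hr : Module.finrank ℂ (LinearMap.range P.toLinearMap) = r) :
    ∃ ρ : H →L[ℂ] EuclideanSpace ℂ (Fin r),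
      Function.Surjective ρ ∧ ∀ f g, ⟪ρ f, ρ g⟫_ℂ = ⟪P f, g⟫_ℂ := by
  have hP0 : 0 ≤ P := (ContinuousLinearMap.nonneg_iff_isPositive P).2 hP
  obtain ⟨R, hR⟩ : ∃ R, R = CFC.sqrt P := ⟨_, rfl⟩
  have hR0 : 0 ≤ R := by rw [hR]; exact CFC.sqrt_nonneg P
  have hRR : R * R = P := by rw [hR]; exact CFC.sqrt_mul_sqrt_self P hP0
  have hsa : ∀ f g, ⟪R f, g⟫_ℂ = ⟪f, R g⟫_ℂ := fun f g =>
    ((ContinuousLinearMap.nonneg_iff_isPositive R).1 hR0).isSymmetric f g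
  have hRR' : ∀ f, R (R f) = P f := fun f => by rw [← hRR]; rfl
  have hker : LinearMap.ker R.toLinearMap = LinearMap.ker P.toLinearMap := by
    ext f
    rw [LinearMap.mem_ker, LinearMap.mem_ker]
    constructor
    · intro h
      show P f = 0
      rw [← hRR']
      have h' : R f = 0 := h
      rw [h', map_zero]
    · intro h
      have h' : P f = 0 := h
      show R f = 0
      rw [← inner_self_eq_zero (𝕜 := ℂ), hsa, hRR', h', inner_zero_right]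
  let e1 := (LinearMap.quotKerEquivRange R.toLinearMap).symm.trans
    ((Submodule.quotEquivOfEq _ _ hker).trans (LinearMap.quotKerEquivRange P.toLinearMap))
  have hfd : FiniteDimensional ℂ (LinearMap.range R.toLinearMap) := e1.symm.finiteDimensional
  have hfr : Module.finrank ℂ (LinearMap.range R.toLinearMap) = r := e1.finrank_eq.trans hr
  let b := (stdOrthonormalBasis ℂ (LinearMap.range R.toLinearMap)).reindex (finCongr hfr)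
  let R' : H →L[ℂ] (LinearMap.range R.toLinearMap) := R.codRestrict _ (fun x => ⟨x, rfl⟩)
  refine ⟨b.repr.toContinuousLinearEquiv.toContinuousLinearMap.comp R', ?_, ?_⟩
  · intro y
    obtain ⟨y', hy'⟩ := b.repr.surjective y
    obtain ⟨x, hx⟩ := y'.2
    refine ⟨x, ?_⟩
    show b.repr (R' x) = y
    rw [← hy']
    congr 1
    exact Subtype.ext hx
  · intro f g
    show ⟪b.repr (R' f), b.repr (R' g)⟫_ℂ = _
    rw [LinearIsometryEquiv.inner_map_map, Submodule.coe_inner]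
    show ⟪R f, R g⟫_ℂ = _
    rw [← hsa, hRR']

variable {V : Type} [NormedAddCommGroup V] [InnerProductSpace ℂ V] [FiniteDimensional ℂ V]

open ContinuousLinearMap in
theorem colligation (S T : H →L[ℂ] H) (ev : H →L[ℂ] V)
    (hdec : ∀ f : H, ‖f‖ ^ 2 = ‖(adjoint S) f‖ ^ 2 + ‖ev f‖ ^ 2)
    (htoe : ∀ f, (adjoint S) (T (S f)) = T f)
    (hweak : ∀ f g : H, Tendsto (fun N : ℕ => ⟪g, (S ^ N) f⟫_ℂ) atTop (𝓝 0))
    (hP : ((adjoint T) * T - T * (adjoint T)).IsPositive)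
    [FiniteDimensional ℂ (LinearMap.range ((adjoint T) * T - T * (adjoint T)).toLinearMap)]
    (r : ℕ) (hr : Module.finrank ℂ
      (LinearMap.range ((adjoint T) * T - T * (adjoint T)).toLinearMap) = r) :
    ∃ (ρ : H →L[ℂ] EuclideanSpace ℂ (Fin r))
      (A : EuclideanSpace ℂ (Fin r) →ₗ[ℂ] EuclideanSpace ℂ (Fin r))
      (B : V →ₗ[ℂ] EuclideanSpace ℂ (Fin r))
      (C : EuclideanSpace ℂ (Fin r) →ₗ[ℂ] V)
      (D : V →ₗ[ℂ] V),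
      (∀ x y x' y', ⟪A x + B y, A x' + B y'⟫_ℂ + ⟪C x + D y, C x' + D y'⟫_ℂ =
        ⟪x, x'⟫_ℂ + ⟪y, y'⟫_ℂ) ∧
      (∀ (c : ℂ) x, x ≠ 0 → A x = c • x → ‖c‖ < 1) ∧
      (∀ f, ρ f = A (ρ (S f)) + B (ev ((adjoint T) (S f)))) ∧
      (∀ f, ev (T (S f)) = C (ρ (S f)) + D (ev ((adjoint T) (S f)))) := by
  obtain ⟨ρ, hρs, hρ⟩ := exists_factor ((adjoint T) * T - T * (adjoint T)) hP r hr
  -- the adjoint Toeplitz identity
  have htoe' : ∀ f, (adjoint S) ((adjoint T) (S f)) = (adjoint T) f := by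
    intro f
    apply ext_inner_left ℂ
    intro g
    rw [adjoint_inner_right, adjoint_inner_right, ← adjoint_inner_left, htoe, ← adjoint_inner_right]
  have hnρ : ∀ f, ‖ρ f‖ ^ 2 = ‖T f‖ ^ 2 - ‖(adjoint T) f‖ ^ 2 := by
    intro f
    have h1 := hρ f f
    have h2 : ((adjoint T) * T - T * (adjoint T)) f = (adjoint T) (T f) - T ((adjoint T) f) := rfl
    have h4 : ⟪T ((adjoint T) f), f⟫_ℂ = ⟪(adjoint T) f, (adjoint T) f⟫_ℂ :=
      (adjoint_inner_right T _ _).symm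
    rw [h2, inner_sub_left, adjoint_inner_left, h4, inner_self_eq_norm_sq_to_K,
      inner_self_eq_norm_sq_to_K, inner_self_eq_norm_sq_to_K] at h1
    have h3 : ((‖ρ f‖ ^ 2 : ℝ) : ℂ) = ((‖T f‖ ^ 2 - ‖(adjoint T) f‖ ^ 2 : ℝ) : ℂ) := by
      push_cast; exact h1
    exact Complex.ofReal_injective h3
  have hid : ∀ f, ‖ρ (S f)‖ ^ 2 + ‖ev ((adjoint T) (S f))‖ ^ 2 = ‖ρ f‖ ^ 2 + ‖ev (T (S f))‖ ^ 2 := by
    intro f
    rw [hnρ, hnρ, hdec (T (S f)), hdec ((adjoint T) (S f)), htoe, htoe']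
    ring
  let p : H →ₗ[ℂ] WithLp 2 (EuclideanSpace ℂ (Fin r) × V) :=
    (WithLp.linearEquiv 2 ℂ (EuclideanSpace ℂ (Fin r) × V)).symm.toLinearMap ∘ₗ
      ((ρ.comp S).toLinearMap.prod (ev.comp ((adjoint T).comp S)).toLinearMap)
  let q : H →ₗ[ℂ] WithLp 2 (EuclideanSpace ℂ (Fin r) × V) :=
    (WithLp.linearEquiv 2 ℂ (EuclideanSpace ℂ (Fin r) × V)).symm.toLinearMap ∘ₗ
      (ρ.toLinearMap.prod (ev.comp (T.comp S)).toLinearMap)
  have hp : ∀ f, p f = WithLp.toLp 2 (ρ (S f), ev ((adjoint T) (S f))) := fun f => rfl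
  have hq : ∀ f, q f = WithLp.toLp 2 (ρ f, ev (T (S f))) := fun f => rfl
  have hn : ∀ (x : EuclideanSpace ℂ (Fin r)) (y : V),
      ‖(WithLp.toLp 2 (x, y) : WithLp 2 (EuclideanSpace ℂ (Fin r) × V))‖ ^ 2 = ‖x‖ ^ 2 + ‖y‖ ^ 2 := by
    intro x y
    rw [WithLp.prod_norm_sq_eq_of_L2]
    rfl
  obtain ⟨W, hW⟩ := exists_isometry p q (by
    intro f
    apply (pow_left_inj₀ (norm_nonneg _) (norm_nonneg _) two_ne_zero).1
    rw [hp, hq, hn, hn, hid])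
  let i1 : EuclideanSpace ℂ (Fin r) →ₗ[ℂ] WithLp 2 (EuclideanSpace ℂ (Fin r) × V) :=
    (WithLp.linearEquiv 2 ℂ (EuclideanSpace ℂ (Fin r) × V)).symm.toLinearMap ∘ₗ LinearMap.inl ℂ _ _
  let i2 : V →ₗ[ℂ] WithLp 2 (EuclideanSpace ℂ (Fin r) × V) :=
    (WithLp.linearEquiv 2 ℂ (EuclideanSpace ℂ (Fin r) × V)).symm.toLinearMap ∘ₗ LinearMap.inr ℂ _ _
  let p1 : WithLp 2 (EuclideanSpace ℂ (Fin r) × V) →ₗ[ℂ] EuclideanSpace ℂ (Fin r) :=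
    LinearMap.fst ℂ _ _ ∘ₗ (WithLp.linearEquiv 2 ℂ (EuclideanSpace ℂ (Fin r) × V)).toLinearMap
  let p2 : WithLp 2 (EuclideanSpace ℂ (Fin r) × V) →ₗ[ℂ] V :=
    LinearMap.snd ℂ _ _ ∘ₗ (WithLp.linearEquiv 2 ℂ (EuclideanSpace ℂ (Fin r) × V)).toLinearMap
  have hi : ∀ x y, i1 x + i2 y = WithLp.toLp 2 (x, y) := by
    intro x y
    show (WithLp.toLp 2 (x, (0 : V)) : WithLp 2 (EuclideanSpace ℂ (Fin r) × V)) + WithLp.toLp 2 (0, y) = _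
    rw [← WithLp.toLp_add, Prod.mk_add_mk, add_zero, zero_add]
  have hABx : ∀ x y, p1 (W (i1 x)) + p1 (W (i2 y)) = (W (WithLp.toLp 2 (x, y))).fst := by
    intro x y
    rw [← map_add, ← map_add, hi]; rfl
  have hCDx : ∀ x y, p2 (W (i1 x)) + p2 (W (i2 y)) = (W (WithLp.toLp 2 (x, y))).snd := by
    intro x y
    rw [← map_add, ← map_add, hi]; rfl
  have hU : ∀ x y x' y', ⟪(p1 ∘ₗ W.toLinearMap ∘ₗ i1) x + (p1 ∘ₗ W.toLinearMap ∘ₗ i2) y,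
      (p1 ∘ₗ W.toLinearMap ∘ₗ i1) x' + (p1 ∘ₗ W.toLinearMap ∘ₗ i2) y'⟫_ℂ +
      ⟪(p2 ∘ₗ W.toLinearMap ∘ₗ i1) x + (p2 ∘ₗ W.toLinearMap ∘ₗ i2) y,
      (p2 ∘ₗ W.toLinearMap ∘ₗ i1) x' + (p2 ∘ₗ W.toLinearMap ∘ₗ i2) y'⟫_ℂ = ⟪x, x'⟫_ℂ + ⟪y, y'⟫_ℂ := by
    intro x y x' y'
    have h1 := W.inner_map_map (WithLp.toLp 2 (x, y)) (WithLp.toLp 2 (x', y'))
    rw [WithLp.prod_inner_apply, WithLp.prod_inner_apply] at h1
    show ⟪p1 (W (i1 x)) + p1 (W (i2 y)), p1 (W (i1 x')) + p1 (W (i2 y'))⟫_ℂ +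
      ⟪p2 (W (i1 x)) + p2 (W (i2 y)), p2 (W (i1 x')) + p2 (W (i2 y'))⟫_ℂ = _
    rw [hABx, hABx, hCDx, hCDx]
    exact h1
  have hrec1 : ∀ f, ρ f = (p1 ∘ₗ W.toLinearMap ∘ₗ i1) (ρ (S f)) +
      (p1 ∘ₗ W.toLinearMap ∘ₗ i2) (ev ((adjoint T) (S f))) := by
    intro f
    show ρ f = p1 (W (i1 (ρ (S f)))) + p1 (W (i2 (ev ((adjoint T) (S f)))))
    rw [hABx, ← hp, hW, hq]
    rfl
  have hrec2 : ∀ f, ev (T (S f)) = (p2 ∘ₗ W.toLinearMap ∘ₗ i1) (ρ (S f)) +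
      (p2 ∘ₗ W.toLinearMap ∘ₗ i2) (ev ((adjoint T) (S f))) := by
    intro f
    show ev (T (S f)) = p2 (W (i1 (ρ (S f)))) + p2 (W (i2 (ev ((adjoint T) (S f)))))
    rw [hCDx, ← hp, hW, hq]
    rfl
  refine ⟨ρ, p1 ∘ₗ W.toLinearMap ∘ₗ i1, p1 ∘ₗ W.toLinearMap ∘ₗ i2, p2 ∘ₗ W.toLinearMap ∘ₗ i1,
    p2 ∘ₗ W.toLinearMap ∘ₗ i2, hU, ?_, hrec1, hrec2⟩
  generalize p1 ∘ₗ W.toLinearMap ∘ₗ i1 = A at hU hrec1 hrec2 ⊢
  generalize p1 ∘ₗ W.toLinearMap ∘ₗ i2 = B at hU hrec1 hrec2 ⊢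
  generalize p2 ∘ₗ W.toLinearMap ∘ₗ i1 = C at hU hrec1 hrec2 ⊢
  generalize p2 ∘ₗ W.toLinearMap ∘ₗ i2 = D at hU hrec1 hrec2 ⊢
  intro c x hx hAx
  have hx0 : 0 < ‖x‖ := norm_pos_iff.2 hx
  have hc1 : ‖c‖ ^ 2 * ‖x‖ ^ 2 + ‖C x‖ ^ 2 = ‖x‖ ^ 2 := by
    have h1 := hU x 0 x 0
    simp only [map_zero, add_zero, inner_zero_left] at h1
    rw [hAx, inner_self_eq_norm_sq_to_K, inner_self_eq_norm_sq_to_K, inner_self_eq_norm_sq_to_K] at h1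
    have h2 : ((‖c • x‖ ^ 2 + ‖C x‖ ^ 2 : ℝ) : ℂ) = ((‖x‖ ^ 2 : ℝ) : ℂ) := by
      push_cast; exact h1
    have h3 := Complex.ofReal_injective h2
    rw [norm_smul, mul_pow] at h3
    exact h3
  by_contra hcon
  push Not at hcon
  have hCx : C x = 0 := by
    have h1 : 1 ≤ ‖c‖ ^ 2 := one_le_pow₀ hcon
    have h2 : ‖C x‖ ^ 2 ≤ 0 := by nlinarith [sq_nonneg ‖x‖]
    exact norm_eq_zero.1 (pow_eq_zero_iff two_ne_zero |>.1 (le_antisymm h2 (sq_nonneg _)))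
  have hcn : ‖c‖ = 1 := by
    rw [hCx, norm_zero] at hc1
    have h1 : ‖c‖ ^ 2 * ‖x‖ ^ 2 = 1 * ‖x‖ ^ 2 := by linarith
    have h2 := mul_right_cancel₀ (pow_ne_zero 2 hx0.ne') h1
    exact (pow_eq_one_iff_of_nonneg (norm_nonneg _) two_ne_zero).1 h2
  -- key relation
  have hkey : ∀ f, ‖⟪x, ρ f⟫_ℂ‖ = ‖⟪x, ρ (S f)⟫_ℂ‖ := by
    intro f
    have h1 := hU x 0 (ρ (S f)) (ev ((adjoint T) (S f)))
    rw [← hrec1, ← hrec2, hAx, hCx, map_zero, map_zero, add_zero, add_zero, inner_zero_left,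
      inner_zero_left, inner_smul_left, add_zero, add_zero] at h1
    rw [← h1, norm_mul, RCLike.norm_conj, hcn, one_mul]
  have hkey' : ∀ (N : ℕ) f, ‖⟪x, ρ f⟫_ℂ‖ = ‖⟪x, ρ ((S ^ N) f)⟫_ℂ‖ := by
    intro N
    induction N with
    | zero => intro f; rw [pow_zero]; rfl
    | succ N ih =>
      intro f
      rw [ih f, hkey, pow_succ']
      rfl
  obtain ⟨f, hf⟩ := hρs x
  have h3 : Tendsto (fun N : ℕ => ‖⟪x, ρ ((S ^ N) f)⟫_ℂ‖) atTop (𝓝 0) := by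
    have h4 := (hweak f ((adjoint ρ) x)).norm
    rw [norm_zero] at h4
    refine h4.congr (fun N => ?_)
    rw [adjoint_inner_left]
  have h5 : Tendsto (fun _ : ℕ => ‖⟪x, ρ f⟫_ℂ‖) atTop (𝓝 0) := h3.congr (fun N => (hkey' N f).symm)
  have h6 := tendsto_nhds_unique h5 tendsto_const_nhds
  rw [hf, inner_self_eq_norm_sq_to_K] at h6
  have h7 : ‖x‖ = 0 := by
    have h8 : ‖((‖x‖ : ℂ)) ^ 2‖ = 0 := h6.symm
    rw [norm_pow, Complex.norm_real, norm_norm] at h8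
    exact (pow_eq_zero_iff two_ne_zero).1 h8
  exact hx0.ne' h7

end abstract

end Pool.Agent.H612R3.Bp
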