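import Mathlib
import Pool.Agent.H612R3.Bp2
import Pool.Agent.Helper917.VecL2
import Pool.Agent.Helper917.HardyDefs
import Pool.Agent.Helper917.HardySeq

set_option autoImplicit false
open scoped InnerProductSpace ComplexConjugate ENNReal
open Filter Topology MeasureTheory AddCircle
open Pool.Agent.Helper917.Hardy

namespace Pool.Agent.H612R3.Bp

section shift

variable {V : Type} [NormedAddCommGroup V] [InnerProductSpace ℂ V] [FiniteDimensional ℂ V]

lemma mulC1_mem (f : H2 V) : mulC (fourier 1) (f : L2 V) ∈ H2 V := by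
  intro m hm
  rw [fourierCoeff_mulC_fourier]
  exact f.2 _ (by omega)

/-- the shift -/
noncomputable def shft : H2 V →L[ℂ] H2 V :=
  ((mulC (fourier 1)).comp (H2 V).subtypeL).codRestrict (H2 V) mulC1_mem

lemma coe_shft (f : H2 V) : ((shft f : H2 V) : L2 V) = mulC (fourier 1) (f : L2 V) := rfl

/-- evaluation at the origin -/
noncomputable def ev0 : H2 V →L[ℂ] V := (coeffL 0).comp (H2 V).subtypeL

lemma ev0_apply (f : H2 V) : ev0 f = fourierCoeff (f : L2 V) 0 := by
  show coeffL 0 (f : L2 V) = _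
  rw [coeffL_apply]

/-- monomials in `H²` -/
noncomputable def monoH (j : ℕ) (v : V) : H2 V := ⟨mono j v, mono_mem_H2 j (by positivity) v⟩

lemma shft_monoH (j : ℕ) (v : V) : shft (monoH j v) = monoH (j + 1) v := by
  apply Subtype.ext
  rw [coe_shft]
  apply ext_fourierCoeff
  intro m
  rw [fourierCoeff_mulC_fourier]
  show fourierCoeff (mono j v : L2 V) (m - 1) = fourierCoeff (mono ((j + 1 : ℕ) : ℤ) v : L2 V) m
  rw [fourierCoeff_mono, fourierCoeff_mono]
  push_cast
  by_cases h : m - 1 = (j : ℤ)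
  · rw [if_pos h, if_pos (by omega)]
  · rw [if_neg h, if_neg (by omega)]

open ContinuousLinearMap in
lemma coeff_adj_shft (f : H2 V) (n : ℕ) :
    fourierCoeff (((adjoint shft) f : H2 V) : L2 V) n = fourierCoeff (f : L2 V) (n + 1 : ℕ) := by
  apply ext_inner_left ℂ
  intro e
  rw [← inner_mono, ← inner_mono]
  have h1 : ⟪(monoH n e : H2 V), (adjoint shft) f⟫_ℂ = ⟪shft (monoH n e : H2 V), f⟫_ℂ :=
    adjoint_inner_right _ _ _
  rw [shft_monoH] at h1
  exact h1

open ContinuousLinearMap in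
lemma shft_dec (f : H2 V) : ‖f‖ ^ 2 = ‖(adjoint shft) f‖ ^ 2 + ‖ev0 f‖ ^ 2 := by
  have h1 := hasSum_sq_H2 ((adjoint shft) f).2
  have h2 := hasSum_sq_H2 f.2
  simp only [coeff_adj_shft] at h1
  have h3 := HasSum.zero_add (f := fun n : ℕ => ‖fourierCoeff (f : L2 V) n‖ ^ 2) h1
  have h4 := h2.unique h3
  rw [ev0_apply, add_comm]
  exact h4

lemma coe_shft_pow (f : H2 V) (N : ℕ) : (((shft ^ N) f : H2 V) : L2 V) = mulC (fourier (N : ℤ)) (f : L2 V) := by
  induction N with
  | zero =>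
    apply ext_fourierCoeff
    intro m
    rw [fourierCoeff_mulC_fourier]
    simp
  | succ N ih =>
    rw [pow_succ']
    show (shft ((shft ^ N) f) : L2 V) = _
    have h1 : (1 + (N : ℤ)) = ((N + 1 : ℕ) : ℤ) := by push_cast; ring
    rw [coe_shft, ih, mulC_mulC, fourier_mul, h1]

open ContinuousLinearMap in
lemma adj_pow_sq (g : H2 V) (N : ℕ) : ‖((adjoint shft) ^ N) g‖ ^ 2 =
    ‖g‖ ^ 2 - ∑ i ∈ Finset.range N, ‖fourierCoeff (g : L2 V) i‖ ^ 2 ∧
    ∀ n : ℕ, fourierCoeff ((((adjoint shft) ^ N) g : H2 V) : L2 V) n = fourierCoeff (g : L2 V) (N + n : ℕ) := by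
  induction N with
  | zero => simp
  | succ N ih =>
    have h1 : ((adjoint shft) ^ (N + 1)) g = (adjoint shft) (((adjoint shft) ^ N) g) := by
      rw [pow_succ']; rfl
    rw [h1]
    constructor
    · have h2 := shft_dec (((adjoint shft) ^ N) g)
      rw [ih.1, ev0_apply] at h2
      have h3 := ih.2 0
      rw [add_zero] at h3
      have h4 : fourierCoeff ((((adjoint shft) ^ N) g : H2 V) : L2 V) 0 = fourierCoeff (g : L2 V) N := by
        exact_mod_cast h3
      rw [h4] at h2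
      rw [Finset.sum_range_succ]
      linarith
    · intro n
      rw [coeff_adj_shft, ih.2]
      congr 2
      omega

open ContinuousLinearMap in
lemma shft_weak (f g : H2 V) : Tendsto (fun N : ℕ => ⟪g, (shft ^ N) f⟫_ℂ) atTop (𝓝 0) := by
  have h1 : ∀ N : ℕ, ⟪g, (shft ^ N) f⟫_ℂ = ⟪((adjoint shft) ^ N) g, f⟫_ℂ := by
    intro N
    induction N generalizing f with
    | zero => simp
    | succ N ih =>
      have e1 : (shft ^ (N + 1)) f = (shft ^ N) (shft f) := by rw [pow_succ]; rfl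
      have e2 : ((adjoint shft) ^ (N + 1)) g = (adjoint shft) (((adjoint shft) ^ N) g) := by
        rw [pow_succ']; rfl
      rw [e1, ih, e2, adjoint_inner_left]
  have h2 : Tendsto (fun N : ℕ => ‖((adjoint shft) ^ N) g‖ ^ 2) atTop (𝓝 0) := by
    have h3 := (hasSum_sq_H2 g.2).tendsto_sum_nat
    have h4 : Tendsto (fun N : ℕ => ‖g‖ ^ 2 - ∑ i ∈ Finset.range N, ‖fourierCoeff (g : L2 V) i‖ ^ 2) atTop
        (𝓝 (‖g‖ ^ 2 - ‖g‖ ^ 2)) := tendsto_const_nhds.sub h3
    rw [sub_self] at h4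
    exact h4.congr (fun N => (adj_pow_sq g N).1.symm)
  have h5 : Tendsto (fun N : ℕ => ‖((adjoint shft) ^ N) g‖) atTop (𝓝 0) := by
    have h6 := (Real.continuous_sqrt.tendsto 0).comp h2
    rw [Real.sqrt_zero] at h6
    refine h6.congr (fun N => ?_)
    show √(‖((adjoint shft) ^ N) g‖ ^ 2) = _
    rw [Real.sqrt_sq (norm_nonneg _)]
  have h7 : Tendsto (fun N : ℕ => ‖((adjoint shft) ^ N) g‖ * ‖f‖) atTop (𝓝 0) := by
    have := h5.mul_const ‖f‖
    rwa [zero_mul] at this
  have h8 : ∀ N : ℕ, ‖⟪g, (shft ^ N) f⟫_ℂ‖ ≤ ‖((adjoint shft) ^ N) g‖ * ‖f‖ := by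
    intro N
    rw [h1]
    generalize ((adjoint shft) ^ N) g = a
    exact _root_.norm_inner_le_norm (𝕜 := ℂ) (E := H2 V) a f
  exact squeeze_zero_norm h8 h7

end shift

section toep

variable {V : Type} [NormedAddCommGroup V] [InnerProductSpace ℂ V] [FiniteDimensional ℂ V]

/-- the Toeplitz operator with operator-valued symbol `F` -/
noncomputable def toep (F : Circ → V →L[ℂ] V) (hF : AEStronglyMeasurable F mu) (c : ℝ)
    (hc : ∀ᵐ t ∂mu, ‖F t‖ ≤ c) : H2 V →L[ℂ] H2 V :=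
  (H2 V).orthogonalProjectionOnto.comp ((mulOp F hF c hc).comp (H2 V).subtypeL)

variable {F : Circ → V →L[ℂ] V} {hF : AEStronglyMeasurable F mu} {c : ℝ}
    {hc : ∀ᵐ t ∂mu, ‖F t‖ ≤ c}

lemma coe_toep (f : H2 V) : ((toep F hF c hc f : H2 V) : L2 V) = riesz (mulOp F hF c hc (f : L2 V)) := rfl

lemma inner_toep (f g : H2 V) : ⟪g, toep F hF c hc f⟫_ℂ = ⟪(g : L2 V), mulOp F hF c hc (f : L2 V)⟫_ℂ := by
  rw [Submodule.coe_inner, coe_toep, riesz, ← (H2 V).inner_starProjection_left_eq_right,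
    Submodule.starProjection_eq_self_iff.2 g.2]

lemma ev0_toep (f : H2 V) : ev0 (toep F hF c hc f) = fourierCoeff (mulOp F hF c hc (f : L2 V)) 0 := by
  rw [ev0_apply, coe_toep, fourierCoeff_riesz]
  simp

lemma mulOp_mulC (m : C(Circ, ℂ)) (f : L2 V) :
    mulOp F hF c hc (mulC m f) = mulC m (mulOp F hF c hc f) := by
  apply Lp.ext
  filter_upwards [coeFn_mulOp F hF c hc (mulC m f), coeFn_mulC m f, coeFn_mulC m (mulOp F hF c hc f),
    coeFn_mulOp F hF c hc f] with t h1 h2 h3 h4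
  rw [h1, h2, h3, h4, map_smul]

open ContinuousLinearMap in
lemma toep_toe (f : H2 V) : (adjoint shft) (toep F hF c hc (shft f)) = toep F hF c hc f := by
  apply ext_inner_left ℂ
  intro g
  rw [adjoint_inner_right, inner_toep, inner_toep, coe_shft, coe_shft, mulOp_mulC, inner_mulC_left,
    mulC_mulC, star_fourier, fourier_mul]
  congr 1
  have : (-1 + 1 : ℤ) = 0 := by norm_num
  rw [this]
  apply ext_fourierCoeff
  intro m
  rw [fourierCoeff_mulC_fourier, sub_zero]

open ContinuousLinearMap in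
lemma adj_toep {F' : Circ → V →L[ℂ] V} {hF' : AEStronglyMeasurable F' mu} {c' : ℝ}
    {hc' : ∀ᵐ t ∂mu, ‖F' t‖ ≤ c'} (h : ∀ᵐ t ∂mu, F' t = adjoint (F t)) :
    adjoint (toep F hF c hc) = toep F' hF' c' hc' := by
  symm
  rw [eq_adjoint_iff]
  intro f g
  rw [← inner_conj_symm, inner_toep, inner_toep, inner_conj_symm, L2.inner_def, L2.inner_def]
  apply integral_congr_ae
  filter_upwards [h, coeFn_mulOp F' hF' c' hc' (f : L2 V), coeFn_mulOp F hF c hc (g : L2 V)] with t h1 h2 h3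
  rw [h2, h3, h1, adjoint_inner_left]

end toep

end Pool.Agent.H612R3.Bp
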