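import Mathlib
import Pool.Agent.H612R3.Bp3

set_option autoImplicit false
open scoped InnerProductSpace ComplexConjugate ENNReal
open Filter Topology MeasureTheory AddCircle
open Pool.Agent.Helper917.Hardy

namespace Pool.Agent.H612R3.Bp

section fourierArg

variable {V X Z : Type} [NormedAddCommGroup V] [InnerProductSpace ℂ V] [FiniteDimensional ℂ V]
  [NormedAddCommGroup X] [InnerProductSpace ℂ X] [FiniteDimensional ℂ X]
  [NormedAddCommGroup Z] [InnerProductSpace ℂ Z] [FiniteDimensional ℂ Z]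

lemma norm_fourier_one (t : Circ) : ‖(fourier 1 t : ℂ)‖ = 1 := by
  rw [fourier_apply]; exact Circle.norm_coe _

theorem exists_W (A : X →ₗ[ℂ] X) (B : V →ₗ[ℂ] X)
    (hA : ∀ (c : ℂ) x, x ≠ 0 → A x = c • x → ‖c‖ < 1) :
    ∃ Wf : Circ → V →L[ℂ] X, Continuous Wf ∧
      ∀ t v, Wf t v = B v + (fourier 1 t : ℂ) • A (Wf t v) := by
  let A' : X →L[ℂ] X := Module.End.toContinuousLinearMap X A
  let B' : V →L[ℂ] X := LinearMap.toContinuousLinearMap B
  let U : Circ → (X →L[ℂ] X) := fun t => 1 - (fourier 1 t : ℂ) • A'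
  have hUc : Continuous U := by
    refine continuous_const.sub ?_
    exact (fourier 1 : C(Circ, ℂ)).continuous.smul continuous_const
  have hUu : ∀ t, IsUnit (U t) := by
    intro t
    have h1 : U t = Module.End.toContinuousLinearMap X (1 - (fourier 1 t : ℂ) • A) := by
      rw [map_sub, map_smul, map_one]
    rw [h1]
    apply IsUnit.map
    rw [LinearMap.isUnit_iff_ker_eq_bot, LinearMap.ker_eq_bot']
    intro x hx
    by_contra hx0
    have h2 : x = (fourier 1 t : ℂ) • A x := by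
      have : x - (fourier 1 t : ℂ) • A x = 0 := hx
      exact sub_eq_zero.1 this
    have h3 : (fourier 1 t : ℂ) ≠ 0 := by
      intro h; have := norm_fourier_one t; rw [h, norm_zero] at this; exact zero_ne_one this
    have h4 : A x = (fourier 1 t : ℂ)⁻¹ • x := by
      conv_rhs => rw [h2]
      rw [smul_smul, inv_mul_cancel₀ h3, one_smul]
    have h5 := hA _ x hx0 h4
    rw [norm_inv, norm_fourier_one] at h5
    norm_num at h5
  refine ⟨fun t => (Ring.inverse (U t)).comp B', ?_, ?_⟩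
  · refine Continuous.clm_comp ?_ continuous_const
    rw [continuous_iff_continuousAt]
    intro t
    have h1 := NormedRing.inverse_continuousAt (hUu t).unit
    exact ContinuousAt.comp (g := Ring.inverse) (f := U) h1 hUc.continuousAt
  · intro t v
    have h1 := Ring.mul_inverse_cancel (U t) (hUu t)
    have h2 : U t (Ring.inverse (U t) (B v)) = B v := by
      have := congrArg (fun f : X →L[ℂ] X => f (B v)) h1
      exact this
    have h3 : Ring.inverse (U t) (B v) - (fourier 1 t : ℂ) • A (Ring.inverse (U t) (B v)) = B v := h2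
    show Ring.inverse (U t) (B v) = B v + (fourier 1 t : ℂ) • A (Ring.inverse (U t) (B v))
    exact sub_eq_iff_eq_add.1 h3

lemma fourierCoeff_comb (P : V →ₗ[ℂ] Z) (Q : X →ₗ[ℂ] Z) (u : Circ → V) (w : Circ → X)
    (hu : Integrable u mu) (hw : Integrable w mu) (m : ℤ) :
    fourierCoeff (fun t => P (u t) + (fourier 1 t : ℂ) • Q (w t)) m =
      P (fourierCoeff u m) + Q (fourierCoeff w (m - 1)) := by
  have e1 : P (fourierCoeff u m) = ∫ t, (LinearMap.toContinuousLinearMap P) ((fourier (-m) t : ℂ) • u t) ∂mu :=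
    (ContinuousLinearMap.integral_comp_comm (LinearMap.toContinuousLinearMap P) (hu.fourier_smul (-m))).symm
  have e2 : Q (fourierCoeff w (m - 1)) =
      ∫ t, (LinearMap.toContinuousLinearMap Q) ((fourier (-(m - 1)) t : ℂ) • w t) ∂mu :=
    (ContinuousLinearMap.integral_comp_comm (LinearMap.toContinuousLinearMap Q) (hw.fourier_smul (-(m - 1)))).symm
  rw [e1, e2, ← integral_add]
  · unfold fourierCoeff
    apply integral_congr_ae
    filter_upwards with t
    have h1 : (fourier (-(m - 1)) t : ℂ) = fourier (-m) t * fourier 1 t := by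
      rw [← fourier_add]; congr 1; ring
    show _ = P ((fourier (-m) t : ℂ) • u t) + Q ((fourier (-(m - 1)) t : ℂ) • w t)
    rw [map_smul, map_smul, h1, smul_add, smul_smul]
  · exact ContinuousLinearMap.integrable_comp _ (hu.fourier_smul (-m))
  · exact ContinuousLinearMap.integrable_comp _ (hw.fourier_smul (-(m - 1)))

lemma coeff_tendsto (w : L2 X) :
    Tendsto (fun j : ℕ => fourierCoeff w (-(j : ℤ) - 1)) atTop (𝓝 0) := by
  have h1 := (hasSum_sq_norm_fourierCoeff w).summable.tendsto_cofinite_zero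
  have hinj : Function.Injective (fun j : ℕ => (-(j : ℤ) - 1)) := by
    intro a b h
    simp only at h
    omega
  have h2 := h1.comp (hinj.tendsto_cofinite)
  rw [Nat.cofinite_eq_atTop] at h2
  have h3 := (Real.continuous_sqrt.tendsto 0).comp h2
  rw [Real.sqrt_zero] at h3
  rw [tendsto_zero_iff_norm_tendsto_zero]
  refine h3.congr (fun j => ?_)
  show √(‖fourierCoeff w (-(j : ℤ) - 1)‖ ^ 2) = _
  rw [Real.sqrt_sq (norm_nonneg _)]

lemma delta_zero (A : X →ₗ[ℂ] X) (hA : ∀ x, ‖A x‖ ≤ ‖x‖) (δ : ℕ → X)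
    (hδ : ∀ j, δ j = A (δ (j + 1))) (hlim : Tendsto δ atTop (𝓝 0)) (j : ℕ) : δ j = 0 := by
  have h1 : ∀ k, ‖δ j‖ ≤ ‖δ (k + j)‖ := by
    intro k
    induction k with
    | zero => rw [zero_add]
    | succ k ih =>
      refine ih.trans ?_
      rw [hδ (k + j)]
      refine (hA _).trans (le_of_eq ?_)
      congr 2
      ring
  have h2 := (tendsto_add_atTop_iff_nat j).2 hlim.norm
  rw [norm_zero] at h2
  have h3 : ‖δ j‖ ≤ 0 := ge_of_tendsto' h2 h1
  exact norm_le_zero_iff.1 h3

end fourierArg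

section main

variable {V : Type} [NormedAddCommGroup V] [InnerProductSpace ℂ V] [FiniteDimensional ℂ V]

/-- Fourier coefficients of the symbol from the Toeplitz operator -/
lemma ev0_toep_monoH {F : Circ → V →L[ℂ] V} {hF : AEStronglyMeasurable F mu} {c : ℝ}
    {hc : ∀ᵐ t ∂mu, ‖F t‖ ≤ c} (j : ℕ) (v : V) :
    ev0 (toep F hF c hc (shft (monoH j v))) =
      fourierCoeff (mulOp F hF c hc (Lp.const 2 mu v)) (-(j : ℤ) - 1) := by
  rw [ev0_toep, shft_monoH]
  have h1 : ((monoH (j + 1) v : H2 V) : L2 V) = mulC (fourier ((j + 1 : ℕ) : ℤ)) (Lp.const 2 mu v) := rfl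
  rw [h1, mulOp_mulC, fourierCoeff_mulC_fourier]
  congr 1
  push_cast
  ring

set_option maxHeartbeats 4000000 in
open ContinuousLinearMap in
theorem main_op (F F' : Circ → V →L[ℂ] V) (hF : AEStronglyMeasurable F mu) (c : ℝ)
    (hc : ∀ᵐ t ∂mu, ‖F t‖ ≤ c) (hF' : AEStronglyMeasurable F' mu) (c' : ℝ)
    (hc' : ∀ᵐ t ∂mu, ‖F' t‖ ≤ c') (hadj : ∀ᵐ t ∂mu, F' t = adjoint (F t))
    (T : H2 V →L[ℂ] H2 V) (hT : T = toep F hF c hc)
    (hP : ((adjoint T) * T - T * (adjoint T)).IsPositive)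
    [FiniteDimensional ℂ (LinearMap.range ((adjoint T) * T - T * (adjoint T)).toLinearMap)]
    (r : ℕ) (hr : Module.finrank ℂ
      (LinearMap.range ((adjoint T) * T - T * (adjoint T)).toLinearMap) = r) :
    ∃ (ν : V →ₗᵢ[ℂ] V) (L : List (ℂ × V)), L.length = r ∧ (∀ q ∈ L, ‖q.1‖ < 1 ∧ ‖q.2‖ = 1) ∧
      ∃ G : Circ → V →L[ℂ] V, Continuous G ∧
        (∀ t v, G t v = ν ((L.map (fun q => fac q.1 q.2 (fourier 1 t : ℂ))).prod v)) ∧
        (∀ t v, ‖G t v‖ = ‖v‖) ∧
        (∀ v (m : ℤ), m < 0 → fourierCoeff (fun t => G t v) m = 0) ∧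
        (∀ v (m : ℤ), m < 0 → fourierCoeff (fun t => G t (F' t v)) m = fourierCoeff (fun t => F t v) m) := by
  have hcol := colligation (H := H2 V) (V := V) (shft (V := V)) T (ev0 (V := V)) (fun f => shft_dec f)
  have htoe : ∀ f, (adjoint (shft (V := V))) (T (shft (V := V) f)) = T f := by
    rw [hT]; intro f; exact toep_toe f
  have hcol2 := hcol htoe
  have hcol3 := hcol2 shft_weak
  obtain ⟨ρ, A, B, C, D, hU, hev, hrec1, hrec2⟩ := hcol3 hP r hr
  have hTadj : adjoint T = toep F' hF' c' hc' := by rw [hT]; exact adj_toep hadj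
  rw [hTadj] at hrec1 hrec2
  rw [hT] at hrec2
  obtain ⟨ν, L, hL, hLq, hLz⟩ := bp_factor r (EuclideanSpace ℂ (Fin r)) (by simp) A B C D hU hev
  obtain ⟨Wf, hWc, hWe⟩ := exists_W A B hev
  have hAn : ∀ x, ‖A x‖ ≤ ‖x‖ := by
    intro x
    have h1 := hU x 0 x 0
    simp only [map_zero, add_zero, inner_zero_left] at h1
    rw [inner_self_eq_norm_sq_to_K, inner_self_eq_norm_sq_to_K, inner_self_eq_norm_sq_to_K] at h1
    have h2 : ((‖A x‖ ^ 2 + ‖C x‖ ^ 2 : ℝ) : ℂ) = ((‖x‖ ^ 2 : ℝ) : ℂ) := by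
      push_cast; exact h1
    have h3 := Complex.ofReal_injective h2
    exact (sq_le_sq₀ (norm_nonneg _) (norm_nonneg _)).1 (by nlinarith [sq_nonneg ‖C x‖])
  obtain ⟨cW, hcW⟩ : ∃ cW : ℝ, ∀ t, ‖Wf t‖ ≤ cW := by
    obtain ⟨cW, hcW⟩ := isCompact_univ.exists_bound_of_continuousOn hWc.continuousOn
    exact ⟨cW, fun t => hcW t (Set.mem_univ t)⟩
  have hWm : AEStronglyMeasurable Wf mu := hWc.aestronglyMeasurable
  -- recursion for L² elements
  have key : ∀ u : L2 V, ∃ w : L2 (EuclideanSpace ℂ (Fin r)),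
      (w =ᵐ[mu] fun t => Wf t (u t)) ∧
      ∀ m : ℤ, fourierCoeff w m = B (fourierCoeff u m) + A (fourierCoeff w (m - 1)) := by
    intro u
    refine ⟨mulOp Wf hWm cW (ae_of_all _ hcW) u, coeFn_mulOp _ _ _ _ _, ?_⟩
    intro m
    have h1 : (mulOp Wf hWm cW (ae_of_all _ hcW) u : Circ → EuclideanSpace ℂ (Fin r)) =ᵐ[mu]
        fun t => B (u t) + (fourier 1 t : ℂ) • A ((mulOp Wf hWm cW (ae_of_all _ hcW) u) t) := by
      filter_upwards [coeFn_mulOp Wf hWm cW (ae_of_all _ hcW) u] with t ht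
      rw [ht]
      exact hWe t (u t)
    rw [← fourierCoeff_comb B A u _ (integrable_L2 u) (integrable_L2 _) m]
    exact congrFun (fourierCoeff_congr_ae h1) m
  let G : Circ → V →L[ℂ] V := fun t => LinearMap.toContinuousLinearMap D +
    (fourier 1 t : ℂ) • (LinearMap.toContinuousLinearMap C).comp (Wf t)
  have hG : ∀ t v, G t v = D v + (fourier 1 t : ℂ) • C (Wf t v) := fun t v => rfl
  have hGx : ∀ t v, (fourier 1 t : ℂ) • Wf t v = (fourier 1 t : ℂ) • (A ((fourier 1 t : ℂ) • Wf t v) + B v) := by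
    intro t v
    congr 1
    rw [map_smul, add_comm]
    exact hWe t v
  have hGv : ∀ t v, G t v = C ((fourier 1 t : ℂ) • Wf t v) + D v := by
    intro t v
    rw [hG, map_smul, add_comm]
  refine ⟨ν, L, hL, hLq, G, ?_, ?_, ?_, ?_, ?_⟩
  · refine continuous_const.add ?_
    exact (fourier 1 : C(Circ, ℂ)).continuous.smul (continuous_const.clm_comp hWc)
  · intro t v
    rw [hGv]
    exact hLz (fourier 1 t) (norm_fourier_one t).le _ v (hGx t v)
  · intro t v
    obtain ⟨x, hx⟩ : ∃ x, x = (fourier 1 t : ℂ) • Wf t v := ⟨_, rfl⟩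
    have h1 := hGx t v
    rw [← hx] at h1
    have h2 := hU x v x v
    have h3 : ‖A x + B v‖ = ‖x‖ := by
      conv_rhs => rw [h1]
      rw [norm_smul, norm_fourier_one, one_mul]
    rw [hGv, ← hx]
    rw [inner_self_eq_norm_sq_to_K, inner_self_eq_norm_sq_to_K, inner_self_eq_norm_sq_to_K,
      inner_self_eq_norm_sq_to_K, h3] at h2
    have h4 := add_left_cancel h2
    have h5 : ((‖C x + D v‖ ^ 2 : ℝ) : ℂ) = ((‖v‖ ^ 2 : ℝ) : ℂ) := by push_cast; exact h4
    exact (pow_left_inj₀ (norm_nonneg _) (norm_nonneg _) two_ne_zero).1 (Complex.ofReal_injective h5)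
  · -- analyticity
    intro v m hm
    obtain ⟨w, hw, hwr⟩ := key (Lp.const 2 mu v)
    have hwz : ∀ j : ℕ, fourierCoeff w (-(j : ℤ) - 1) = 0 := by
      apply delta_zero A hAn (fun j => fourierCoeff w (-(j : ℤ) - 1)) _ (coeff_tendsto w)
      intro j
      show fourierCoeff w (-(j : ℤ) - 1) = A (fourierCoeff w (-((j + 1 : ℕ) : ℤ) - 1))
      rw [hwr, fourierCoeff_const, if_neg (by omega), map_zero, zero_add]
      congr 2
      push_cast; ring
    have h1 : (fun t => G t v) =ᵐ[mu] fun t => D ((Lp.const 2 mu v : L2 V) t) + (fourier 1 t : ℂ) • C (w t) := by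
      filter_upwards [hw, Lp.coeFn_const (p := 2) (μ := mu) v] with t h2 h3
      rw [h2, h3, hG]; rfl
    rw [fourierCoeff_congr_ae h1, fourierCoeff_comb D C _ _ (integrable_L2 _) (integrable_L2 _),
      fourierCoeff_const, if_neg (by omega), map_zero, zero_add]
    have h4 := hwz (-m).toNat
    have h5 : -(((-m).toNat : ℕ) : ℤ) - 1 = m - 1 := by omega
    rw [h5] at h4
    rw [h4, map_zero]
  · intro v m hm
    obtain ⟨w, hw, hwr⟩ := key (mulOp F' hF' c' hc' (Lp.const 2 mu v))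
    have hρlim : Tendsto (fun j : ℕ => ρ (monoH j v)) atTop (𝓝 0) := by
      have h1 : ∀ x, Tendsto (fun j : ℕ => ⟪x, ρ (monoH j v)⟫_ℂ) atTop (𝓝 0) := by
        intro x
        have h2 := shft_weak (monoH 0 v) ((adjoint ρ) x)
        refine h2.congr (fun j => ?_)
        rw [adjoint_inner_left]
        congr 2
        induction j with
        | zero => rfl
        | succ j ih =>
          rw [pow_succ', ← shft_monoH, ← ih]; rfl
      rw [tendsto_zero_iff_norm_tendsto_zero]
      have h3 : ∀ j : ℕ, ‖ρ (monoH j v)‖ = √(∑ i, ‖⟪EuclideanSpace.single i (1 : ℂ), ρ (monoH j v)⟫_ℂ‖ ^ 2) := by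
        intro j
        rw [EuclideanSpace.norm_eq]
        congr 1
        apply Finset.sum_congr rfl
        intro i _
        rw [EuclideanSpace.inner_single_left]
        simp
      have h4 : Tendsto (fun j : ℕ => ∑ i, ‖⟪(EuclideanSpace.single i (1 : ℂ) : EuclideanSpace ℂ (Fin r)), ρ (monoH j v)⟫_ℂ‖ ^ 2)
          atTop (𝓝 (∑ _i : Fin r, (0 : ℝ))) := by
        apply tendsto_finset_sum
        intro i _
        have h5 := ((h1 (EuclideanSpace.single i (1 : ℂ))).norm).pow 2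
        rw [norm_zero, zero_pow two_ne_zero] at h5
        exact h5
      rw [Finset.sum_const_zero] at h4
      have h6 := (Real.continuous_sqrt.tendsto 0).comp h4
      rw [Real.sqrt_zero] at h6
      exact h6.congr (fun j => (h3 j).symm)
    have hδ : ∀ j : ℕ, ρ (monoH j v) - fourierCoeff w (-(j : ℤ) - 1) = 0 := by
      apply delta_zero A hAn (fun j : ℕ => ρ (monoH j v) - fourierCoeff w (-(j : ℤ) - 1))
      · intro j
        show ρ (monoH j v) - fourierCoeff w (-(j : ℤ) - 1) =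
          A (ρ (monoH (j + 1) v) - fourierCoeff w (-((j + 1 : ℕ) : ℤ) - 1))
        rw [hwr, hrec1 (monoH j v), ev0_toep_monoH, map_sub, shft_monoH]
        have h6 : -((j + 1 : ℕ) : ℤ) - 1 = -(j : ℤ) - 1 - 1 := by push_cast; ring
        rw [h6]
        abel
      · have := hρlim.sub (coeff_tendsto w)
        rwa [sub_zero] at this
    have h1 : (fun t => G t (F' t v)) =ᵐ[mu] fun t => D ((mulOp F' hF' c' hc' (Lp.const 2 mu v) : L2 V) t) +
        (fourier 1 t : ℂ) • C (w t) := by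
      filter_upwards [hw, Lp.coeFn_const (p := 2) (μ := mu) v,
        coeFn_mulOp F' hF' c' hc' (Lp.const 2 mu v)] with t h2 h3 h4
      rw [h2, h4, h3, hG]; rfl
    have h2 : (fun t => F t v) =ᵐ[mu] (mulOp F hF c hc (Lp.const 2 mu v) : L2 V) := by
      filter_upwards [Lp.coeFn_const (p := 2) (μ := mu) v,
        coeFn_mulOp F hF c hc (Lp.const 2 mu v)] with t h3 h4
      rw [h4, h3]; rfl
    obtain ⟨j, hj⟩ : ∃ j : ℕ, m = -(j : ℤ) - 1 := ⟨(-m - 1).toNat, by omega⟩
    rw [fourierCoeff_congr_ae h1, fourierCoeff_congr_ae h2,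
      fourierCoeff_comb D C _ _ (integrable_L2 _) (integrable_L2 _), hj]
    have e1 := ev0_toep_monoH (hF := hF) (hc := hc) j v
    have e2 := ev0_toep_monoH (hF := hF') (hc := hc') j v
    rw [← e1, ← e2, hrec2, shft_monoH]
    have h3 := hδ (j + 1)
    have h6 : -((j + 1 : ℕ) : ℤ) - 1 = -(j : ℤ) - 1 - 1 := by push_cast; ring
    rw [h6, sub_eq_zero] at h3
    rw [← h3, add_comm]

end main

end Pool.Agent.H612R3.Bp
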