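import Mathlib
import Pool.Agent.Helper917.VecL2
import Pool.Agent.Helper917.HardyDefs

set_option autoImplicit false
open scoped InnerProductSpace ComplexConjugate ENNReal Matrix
open Filter Topology MeasureTheory AddCircle
open Pool.Agent.Helper917.Hardy

namespace Pool.Agent.H612R3.BpDefs

/-- `Φ` is (a representative of) an element of `L^∞_{M_n}`: its entries are measurable and
essentially bounded on the circle. The point `t` of `ℝ/ℤ` stands for `ζ = exp(2πit) = fourier 1 t`. -/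
def IsLinfty {n : ℕ} (Φ : Circ → Matrix (Fin n) (Fin n) ℂ) : Prop :=
  (∀ i j, AEStronglyMeasurable (fun t => Φ t i j) mu) ∧
    ∃ C : ℝ, ∀ᵐ t ∂mu, ∀ i j, ‖Φ t i j‖ ≤ C

/-- `Φ ∈ H^∞_{M_n}`: bounded, with vanishing Fourier coefficients of negative index. -/
def IsHinfty {n : ℕ} (Φ : Circ → Matrix (Fin n) (Fin n) ℂ) : Prop :=
  IsLinfty Φ ∧ ∀ m : ℤ, m < 0 → ∀ i j, fourierCoeff (fun t => Φ t i j) m = 0

/-- `K ∈ E(Φ)`: `K ∈ H^∞_{M_n}`, `‖K‖_∞ ≤ 1` (almost every `K t` is a contraction of `ℂⁿ`) and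
`Φ - K Φ* ∈ H^∞_{M_n}`. -/
def MemE {n : ℕ} (Φ K : Circ → Matrix (Fin n) (Fin n) ℂ) : Prop :=
  IsHinfty K ∧
    (∀ᵐ t ∂mu, ∀ x : EuclideanSpace ℂ (Fin n), ‖WithLp.toLp 2 (K t *ᵥ x.ofLp)‖ ≤ ‖x‖) ∧
    IsHinfty (fun t => Φ t - K t * (Φ t)ᴴ)

/-- `B` is a finite Blaschke-Potapov product (on the closed unit disc): a constant unitary matrix
times a finite product of factors `b(z) P + (I - P)`, with `b(z) = (z - α) / (1 - conj α z)`,
`|α| < 1`, and `P` a nonzero orthogonal projection. -/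
def IsBlaschkePotapov {n : ℕ} (B : ℂ → Matrix (Fin n) (Fin n) ℂ) : Prop :=
  ∃ ν ∈ Matrix.unitaryGroup (Fin n) ℂ, ∃ L : List (ℂ × Matrix (Fin n) (Fin n) ℂ),
    (∀ q ∈ L, ‖q.1‖ < 1 ∧ q.2 ≠ 0 ∧ q.2.IsHermitian ∧ q.2 * q.2 = q.2) ∧
    ∀ z : ℂ, ‖z‖ ≤ 1 → B z = ν *
      (L.map (fun q => ((z - q.1) / (1 - conj q.1 * z)) • q.2 + (1 - q.2))).prod

/-- `f` is, on the closed unit disc, a scalar finite Blaschke product of degree `r`, that is with
`r` zeros `a i` in the open disc, counted with multiplicity. -/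
def IsBlaschkeOfDegree (f : ℂ → ℂ) (r : ℕ) : Prop :=
  ∃ c : ℂ, ‖c‖ = 1 ∧ ∃ a : Fin r → ℂ, (∀ i, ‖a i‖ < 1) ∧
    ∀ z : ℂ, ‖z‖ ≤ 1 → f z = c * ∏ i, (z - a i) / (1 - conj (a i) * z)

/-- The Hardy space `H²_{ℂⁿ}` as a Hilbert space: the functions in `L²_{ℂⁿ}` whose Fourier
coefficients of negative index vanish, with the inner product of `L²_{ℂⁿ}`. -/
def HardySp (n : ℕ) : Type := H2 (EuclideanSpace ℂ (Fin n))

noncomputable instance instNACG (n : ℕ) : NormedAddCommGroup (HardySp n) :=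
  (inferInstance : NormedAddCommGroup (H2 (EuclideanSpace ℂ (Fin n))))

noncomputable instance instIPS (n : ℕ) : InnerProductSpace ℂ (HardySp n) :=
  (inferInstance : InnerProductSpace ℂ (H2 (EuclideanSpace ℂ (Fin n))))

instance instCS (n : ℕ) : CompleteSpace (HardySp n) :=
  (inferInstance : CompleteSpace (H2 (EuclideanSpace ℂ (Fin n))))

/-- The element of `L²_{ℂⁿ}` that `f ∈ H²_{ℂⁿ}` is. -/
def toL2 {n : ℕ} (f : HardySp n) : L2 (EuclideanSpace ℂ (Fin n)) := f.1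

/-- `T` is the block Toeplitz operator `T_Φ` on `H²_{ℂⁿ}`: `T f = P (Φ f)` for every `f`, with
`P = riesz` the orthogonal projection of `L²_{ℂⁿ}` onto `H²_{ℂⁿ}`. -/
def IsToeplitz {n : ℕ} (Φ : Circ → Matrix (Fin n) (Fin n) ℂ)
    (T : HardySp n →L[ℂ] HardySp n) : Prop :=
  ∀ f : HardySp n, ∃ g : L2 (EuclideanSpace ℂ (Fin n)),
    (g =ᵐ[mu] fun t => WithLp.toLp 2 (Φ t *ᵥ (toL2 f t).ofLp)) ∧ toL2 (T f) = riesz g

section commutator

variable {H : Type} [NormedAddCommGroup H] [InnerProductSpace ℂ H] [CompleteSpace H]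

/-- The self-commutator `[T*, T] = T* T - T T*` of a bounded operator on a Hilbert space. -/
noncomputable def selfComm (T : H →L[ℂ] H) : H →L[ℂ] H :=
  (ContinuousLinearMap.adjoint T).comp T - T.comp (ContinuousLinearMap.adjoint T)

/-- `T` is hyponormal: `[T*, T]` is positive semidefinite. -/
def IsHyponormal (T : H →L[ℂ] H) : Prop := (selfComm T).IsPositive

/-- The range of `[T*, T]`; its dimension is the rank of `[T*, T]`. -/
noncomputable def commRange (T : H →L[ℂ] H) : Submodule ℂ H :=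
  LinearMap.range (selfComm T).toLinearMap

/-- `[T*, T]` has finite rank `r`. -/
def HasCommRank (T : H →L[ℂ] H) (r : ℕ) : Prop :=
  FiniteDimensional ℂ (commRange T) ∧ Module.finrank ℂ (commRange T) = r

end commutator

end Pool.Agent.H612R3.BpDefs
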