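import Mathlib
import Pool.Agent.H612R3.Bp4
import Pool.Agent.H612R3.BpDefs

set_option autoImplicit false
open scoped InnerProductSpace ComplexConjugate ENNReal Matrix
open Filter Topology MeasureTheory AddCircle
open Pool.Agent.Helper917.Hardy

open Pool.Agent.H612R3.BpDefs

namespace Pool.Agent.H612R3.Bp5

/-- `T` is the block Toeplitz operator `T_Φ` on `H²_{ℂⁿ}`: `T f = P (Φ f)` for every `f`, with `P` the
orthogonal projection of `L²_{ℂⁿ}` onto `H²_{ℂⁿ}`. -/
def IsToeplitzRaw {n : ℕ} (Φ : Circ → Matrix (Fin n) (Fin n) ℂ)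
    (T : H2 (EuclideanSpace ℂ (Fin n)) →L[ℂ] H2 (EuclideanSpace ℂ (Fin n))) : Prop :=
  ∀ f : H2 (EuclideanSpace ℂ (Fin n)), ∃ g : L2 (EuclideanSpace ℂ (Fin n)),
    (g =ᵐ[mu] fun t => WithLp.toLp 2 (Φ t *ᵥ ((f : L2 (EuclideanSpace ℂ (Fin n))) t).ofLp)) ∧
    T f = (H2 (EuclideanSpace ℂ (Fin n))).orthogonalProjectionOnto g

/-- The self-commutator `[T*, T] = T* T - T T*`. -/
noncomputable def selfCommRaw {n : ℕ}
    (T : H2 (EuclideanSpace ℂ (Fin n)) →L[ℂ] H2 (EuclideanSpace ℂ (Fin n))) :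
    H2 (EuclideanSpace ℂ (Fin n)) →L[ℂ] H2 (EuclideanSpace ℂ (Fin n)) :=
  ContinuousLinearMap.adjoint T * T - T * ContinuousLinearMap.adjoint T

section aux

open Pool.Agent.H612R3.Bp

variable {n : ℕ}

/-- the operator of a matrix -/
noncomputable abbrev tau (n : ℕ) :
    Matrix (Fin n) (Fin n) ℂ ≃⋆ₐ[ℂ] (EuclideanSpace ℂ (Fin n) →L[ℂ] EuclideanSpace ℂ (Fin n)) :=
  Matrix.toEuclideanCLM (n := Fin n) (𝕜 := ℂ)

lemma tau_apply (M : Matrix (Fin n) (Fin n) ℂ) (x : EuclideanSpace ℂ (Fin n)) :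
    tau n M x = WithLp.toLp 2 (M *ᵥ x.ofLp) := rfl

lemma tau_single (M : Matrix (Fin n) (Fin n) ℂ) (i j : Fin n) :
    (tau n M (EuclideanSpace.single j (1 : ℂ))) i = M i j := by
  rw [tau_apply]
  show (M *ᵥ (EuclideanSpace.single j (1 : ℂ)).ofLp) i = M i j
  rw [PiLp.ofLp_single, Matrix.mulVec_single_one]
  rfl

lemma tau_sum (M : Matrix (Fin n) (Fin n) ℂ) :
    tau n M = ∑ i, ∑ j, M i j • tau n (Matrix.single i j 1) := by
  conv_lhs => rw [Matrix.matrix_eq_sum_single M]
  rw [map_sum]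
  apply Finset.sum_congr rfl
  intro i _
  rw [map_sum]
  apply Finset.sum_congr rfl
  intro j _
  rw [← map_smul]
  congr 1
  rw [Matrix.smul_single, smul_eq_mul, mul_one]

lemma tau_meas {Φ : Circ → Matrix (Fin n) (Fin n) ℂ} (h : IsLinfty Φ) :
    AEStronglyMeasurable (fun t => tau n (Φ t)) mu := by
  have h1 : (fun t => tau n (Φ t)) = fun t => ∑ i, ∑ j, Φ t i j • tau n (Matrix.single i j 1) := by
    funext t
    exact tau_sum (Φ t)
  rw [h1]
  refine Finset.aestronglyMeasurable_fun_sum _ (fun i _ => Finset.aestronglyMeasurable_fun_sum _ (fun j _ => ?_))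
  exact (h.1 i j).smul_const _

lemma tau_bdd {Φ : Circ → Matrix (Fin n) (Fin n) ℂ} (h : IsLinfty Φ) :
    ∃ c : ℝ, ∀ᵐ t ∂mu, ‖tau n (Φ t)‖ ≤ c := by
  obtain ⟨C, hC⟩ := h.2
  refine ⟨∑ i, ∑ j, C * ‖tau n (Matrix.single i j 1)‖, ?_⟩
  filter_upwards [hC] with t ht
  rw [tau_sum]
  refine norm_sum_le_of_le _ (fun i _ => norm_sum_le_of_le _ (fun j _ => ?_))
  rw [norm_smul]
  exact mul_le_mul_of_nonneg_right (ht i j) (norm_nonneg _)

lemma isLinfty_conj {Φ : Circ → Matrix (Fin n) (Fin n) ℂ} (h : IsLinfty Φ) :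
    IsLinfty (fun t => (Φ t)ᴴ) := by
  refine ⟨fun i j => ?_, ?_⟩
  · have := (h.1 j i)
    exact Complex.continuous_conj.comp_aestronglyMeasurable this
  · obtain ⟨C, hC⟩ := h.2
    refine ⟨C, ?_⟩
    filter_upwards [hC] with t ht i j
    rw [Matrix.conjTranspose_apply, norm_star]
    exact ht j i

lemma isHinfty_of_tau {K : Circ → Matrix (Fin n) (Fin n) ℂ}
    (hm : AEStronglyMeasurable (fun t => tau n (K t)) mu) (c : ℝ)
    (hc : ∀ᵐ t ∂mu, ‖tau n (K t)‖ ≤ c)
    (h0 : ∀ v (m : ℤ), m < 0 → fourierCoeff (fun t => tau n (K t) v) m = 0) : IsHinfty K := by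
  have hm2 : ∀ v, AEStronglyMeasurable (fun t => tau n (K t) v) mu := fun v =>
    (ContinuousLinearMap.apply ℂ (EuclideanSpace ℂ (Fin n)) v).continuous.comp_aestronglyMeasurable hm
  have hint : ∀ v, Integrable (fun t => tau n (K t) v) mu := fun v => by
    refine Integrable.of_bound (hm2 v) (c * ‖v‖) ?_
    filter_upwards [hc] with t ht
    exact (tau n (K t)).le_of_opNorm_le ht v
  have hent : ∀ i j, (fun t => K t i j) =
      fun t => (EuclideanSpace.proj i : EuclideanSpace ℂ (Fin n) →L[ℂ] ℂ)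
        (tau n (K t) (EuclideanSpace.single j (1 : ℂ))) := by
    intro i j
    funext t
    exact (tau_single (K t) i j).symm
  refine ⟨⟨fun i j => ?_, c, ?_⟩, fun m hm' i j => ?_⟩
  · rw [hent i j]
    exact (EuclideanSpace.proj i : EuclideanSpace ℂ (Fin n) →L[ℂ] ℂ).continuous.comp_aestronglyMeasurable (hm2 _)
  · filter_upwards [hc] with t ht i j
    have h1 : K t i j = (tau n (K t) (EuclideanSpace.single j (1 : ℂ))) i := (tau_single (K t) i j).symm
    rw [h1]
    refine (PiLp.norm_apply_le _ i).trans ?_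
    refine ((tau n (K t)).le_of_opNorm_le ht _).trans ?_
    rw [PiLp.norm_single, norm_one, mul_one]
  · rw [hent i j, fourierCoeff_clm_apply _ _ (hint _), h0 _ _ hm', map_zero]

/-- the rank-one matrix `w w*` -/
noncomputable def rk (w : EuclideanSpace ℂ (Fin n)) : Matrix (Fin n) (Fin n) ℂ :=
  Matrix.vecMulVec w.ofLp (star w.ofLp)

lemma tau_rk (w v : EuclideanSpace ℂ (Fin n)) : tau n (rk w) v = ⟪w, v⟫_ℂ • w := by
  ext i
  rw [tau_apply]
  show (Matrix.vecMulVec w.ofLp (star w.ofLp) *ᵥ v.ofLp) i = ⟪w, v⟫_ℂ * w i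
  rw [PiLp.inner_apply, Finset.sum_mul]
  simp only [Matrix.mulVec, dotProduct, Matrix.vecMulVec_apply, Pi.star_apply, RCLike.star_def,
    RCLike.inner_apply]
  apply Finset.sum_congr rfl
  intro j _
  ring

lemma det_factor (w : EuclideanSpace ℂ (Fin n)) (hw : ‖w‖ = 1) (b : ℂ) :
    (b • rk w + (1 - rk w)).det = b := by
  have h1 : b • rk w + (1 - rk w) = 1 + Matrix.replicateCol Unit ((b - 1) • w.ofLp) *
      Matrix.replicateRow Unit (star w.ofLp) := by
    rw [← Matrix.vecMulVec_eq, Matrix.smul_vecMulVec, rk]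
    module
  have h2 : (star w.ofLp) ⬝ᵥ w.ofLp = 1 := by
    have h3 : ⟪w, w⟫_ℂ = 1 := by rw [inner_self_eq_norm_sq_to_K, hw]; norm_num
    rw [PiLp.inner_apply] at h3
    rw [← h3]
    simp only [dotProduct, Pi.star_apply, RCLike.star_def, RCLike.inner_apply]
    apply Finset.sum_congr rfl
    intro j _
    ring
  rw [h1, Matrix.det_one_add_replicateCol_mul_replicateRow, dotProduct_smul, h2, smul_eq_mul]
  ring

lemma tau_factor (a : ℂ) (w : EuclideanSpace ℂ (Fin n)) (z : ℂ) (v : EuclideanSpace ℂ (Fin n)) :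
    tau n (((z - a) / (1 - conj a * z)) • rk w + (1 - rk w)) v = fac a w z v := by
  rw [fac_apply, map_add, map_sub, map_smul, map_one]
  show ((z - a) / (1 - conj a * z)) • tau n (rk w) v + (v - tau n (rk w) v) = _
  rw [tau_rk]
  unfold bl
  module

lemma tau_prod (L : List (ℂ × EuclideanSpace ℂ (Fin n))) (z : ℂ) (v : EuclideanSpace ℂ (Fin n)) :
    tau n ((L.map (fun q => ((z - q.1) / (1 - conj q.1 * z)) • rk q.2 + (1 - rk q.2))).prod) v =
      (L.map (fun q => fac q.1 q.2 z)).prod v := by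
  induction L generalizing v with
  | nil => simp
  | cons q L ih =>
    rw [List.map_cons, List.prod_cons, List.map_cons, List.prod_cons, map_mul]
    show tau n (((z - q.1) / (1 - conj q.1 * z)) • rk q.2 + (1 - rk q.2))
      (tau n ((L.map (fun q => ((z - q.1) / (1 - conj q.1 * z)) • rk q.2 + (1 - rk q.2))).prod) v) =
      fac q.1 q.2 z ((L.map (fun q => fac q.1 q.2 z)).prod v)
    rw [ih, tau_factor]

lemma det_prod (L : List (ℂ × EuclideanSpace ℂ (Fin n))) (hL : ∀ q ∈ L, ‖q.2‖ = 1) (z : ℂ) :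
    ((L.map (fun q : ℂ × EuclideanSpace ℂ (Fin n) =>
      ((z - q.1) / (1 - conj q.1 * z)) • rk q.2 + (1 - rk q.2))).prod).det =
      (L.map (fun q => (z - q.1) / (1 - conj q.1 * z))).prod := by
  induction L with
  | nil => simp
  | cons q L ih =>
    rw [List.map_cons, List.prod_cons, List.map_cons, List.prod_cons, Matrix.det_mul,
      det_factor _ (hL q (by simp)), ih (fun q' hq' => hL q' (by simp [hq']))]

lemma prod_get {α : Type} (L : List α) (f : α → ℂ) (r : ℕ) (h : L.length = r) :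
    (L.map f).prod = ∏ i : Fin r, f (L.get (i.cast h.symm)) := by
  subst h
  rw [← List.prod_ofFn]
  congr 1
  apply List.ext_get
  · simp
  · intro k h1 h2
    simp

lemma rk_props (w : EuclideanSpace ℂ (Fin n)) (hw : ‖w‖ = 1) :
    rk w ≠ 0 ∧ (rk w).IsHermitian ∧ rk w * rk w = rk w := by
  have h3 : ⟪w, w⟫_ℂ = 1 := by rw [inner_self_eq_norm_sq_to_K, hw]; norm_num
  refine ⟨?_, ?_, ?_⟩
  · intro h0
    have h1 := tau_rk w w
    rw [h0, map_zero, h3, one_smul] at h1
    have h2 : w = 0 := h1.symm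
    rw [h2, norm_zero] at hw
    exact zero_ne_one hw
  · ext i j
    simp only [rk, Matrix.conjTranspose_apply, Matrix.vecMulVec_apply, Pi.star_apply, star_mul',
      star_star]
    ring
  · apply (tau n).injective
    rw [map_mul]
    ext1 v
    show tau n (rk w) (tau n (rk w) v) = tau n (rk w) v
    rw [tau_rk, tau_rk, inner_smul_right, h3, mul_one]

end aux

open Pool.Agent.H612R3.Bp in
theorem raw (n : ℕ) (Φ : Circ → Matrix (Fin n) (Fin n) ℂ) (hΦ : IsLinfty Φ) :
    (∃! T, IsToeplitzRaw Φ T) ∧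
    ∀ T, IsToeplitzRaw Φ T → (selfCommRaw T).IsPositive →
      FiniteDimensional ℂ (LinearMap.range (selfCommRaw T).toLinearMap) →
      ∃ B : ℂ → Matrix (Fin n) (Fin n) ℂ, IsBlaschkePotapov B ∧
        MemE Φ (fun t => B (fourier 1 t)) ∧
        IsBlaschkeOfDegree (fun z => (B z).det)
          (Module.finrank ℂ (LinearMap.range (selfCommRaw T).toLinearMap)) := by
  obtain ⟨c, hc⟩ := tau_bdd hΦ
  obtain ⟨c', hc'⟩ := tau_bdd (isLinfty_conj hΦ)
  have hF := tau_meas hΦ
  have hF' := tau_meas (isLinfty_conj hΦ)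
  have huniq : ∀ T, IsToeplitzRaw Φ T → T = toep (fun t => tau n (Φ t)) hF c hc := by
    intro T hT
    ext1 f
    obtain ⟨g, hg, hTg⟩ := hT f
    rw [hTg]
    have h1 : g = mulOp (fun t => tau n (Φ t)) hF c hc (f : L2 (EuclideanSpace ℂ (Fin n))) := by
      apply Lp.ext
      filter_upwards [hg, coeFn_mulOp (fun t => tau n (Φ t)) hF c hc
        (f : L2 (EuclideanSpace ℂ (Fin n)))] with t h2 h3
      rw [h2, h3]
      rfl
    rw [h1]
    rfl
  refine ⟨⟨toep (fun t => tau n (Φ t)) hF c hc, ?_, huniq⟩, ?_⟩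
  · intro f
    exact ⟨mulOp (fun t => tau n (Φ t)) hF c hc (f : L2 (EuclideanSpace ℂ (Fin n))),
      coeFn_mulOp _ _ _ _ _, rfl⟩
  intro T hT hpos hfd
  have hadj : ∀ᵐ t ∂mu, tau n ((Φ t)ᴴ) = ContinuousLinearMap.adjoint (tau n (Φ t)) := by
    filter_upwards with t
    exact map_star (tau n) (Φ t)
  have hT' := huniq T hT
  have hfd' : FiniteDimensional ℂ (LinearMap.range (ContinuousLinearMap.adjoint T * T - T * ContinuousLinearMap.adjoint T).toLinearMap) := hfd
  obtain ⟨r, hr⟩ : ∃ r, Module.finrank ℂ (LinearMap.range (selfCommRaw T).toLinearMap) = r := ⟨_, rfl⟩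
  rw [hr]
  obtain ⟨ν, L, hL, hLq, G, hGc, hGe, hGn, hG1, hG2⟩ := main_op (fun t => tau n (Φ t)) (fun t => tau n ((Φ t)ᴴ))
    hF c hc hF' c' hc' hadj T hT' hpos r hr
  -- the matrix of ν
  obtain ⟨N, hN⟩ : ∃ N, N = (tau n).symm ν.toContinuousLinearMap := ⟨_, rfl⟩
  have hNν : ∀ v, tau n N v = ν v := by
    intro v
    rw [hN, StarAlgEquiv.apply_symm_apply]
    rfl
  have hNu : N ∈ Matrix.unitaryGroup (Fin n) ℂ := by
    rw [Matrix.mem_unitaryGroup_iff']
    apply EquivLike.injective (tau n)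
    have h0 : tau n (star N) = star (tau n N) := map_star (tau n) N
    rw [map_mul, h0, map_one]
    ext1 v
    apply ext_inner_left ℂ
    intro u
    show ⟪u, ContinuousLinearMap.adjoint (tau n N) (tau n N v)⟫_ℂ = ⟪u, v⟫_ℂ
    rw [ContinuousLinearMap.adjoint_inner_right, hNν, hNν, LinearIsometry.inner_map_map]
  let B : ℂ → Matrix (Fin n) (Fin n) ℂ := fun z => N *
    (L.map (fun q => ((z - q.1) / (1 - conj q.1 * z)) • rk q.2 + (1 - rk q.2))).prod
  have hBG : ∀ t, tau n (B (fourier 1 t)) = G t := by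
    intro t
    ext1 v
    rw [hGe, ← tau_prod, ← hNν]
    show tau n (N * _) v = _
    rw [map_mul]
    rfl
  refine ⟨B, ?_, ?_, ?_⟩
  · refine ⟨N, hNu, L.map (fun q => (q.1, rk q.2)), ?_, ?_⟩
    · intro q hq
      obtain ⟨q', hq', rfl⟩ := List.mem_map.1 hq
      obtain ⟨h1, h2, h3⟩ := rk_props q'.2 (hLq q' hq').2
      exact ⟨(hLq q' hq').1, h1, h2, h3⟩
    · intro z _
      rw [List.map_map]
      rfl
  · refine ⟨?_, ?_, ?_⟩
    · refine isHinfty_of_tau ?_ 1 ?_ ?_
      · simp_rw [hBG]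
        exact hGc.aestronglyMeasurable
      · filter_upwards with t
        rw [hBG]
        exact ContinuousLinearMap.opNorm_le_bound _ zero_le_one (fun v => by rw [hGn, one_mul])
      · intro v m hm
        simp_rw [hBG]
        exact hG1 v m hm
    · filter_upwards with t x
      have h1 : (WithLp.toLp 2 (B (fourier 1 t) *ᵥ x.ofLp) : EuclideanSpace ℂ (Fin n)) = G t x := by
        rw [← hBG t]; rfl
      rw [h1, hGn]
    · have hK : ∀ t, tau n (Φ t - B (fourier 1 t) * (Φ t)ᴴ) = tau n (Φ t) - (G t).comp (tau n ((Φ t)ᴴ)) := by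
        intro t
        rw [map_sub, map_mul, hBG]
        rfl
      have hGF : AEStronglyMeasurable (fun t => (G t).comp (tau n ((Φ t)ᴴ))) mu :=
        (isBoundedBilinearMap_comp.continuous).comp_aestronglyMeasurable (hGc.aestronglyMeasurable.prodMk hF')
      refine isHinfty_of_tau ?_ (c + c') ?_ ?_
      · simp_rw [hK]
        exact hF.sub hGF
      · filter_upwards [hc, hc'] with t h1 h2
        rw [hK]
        refine (norm_sub_le _ _).trans (add_le_add h1 ?_)
        refine ContinuousLinearMap.opNorm_le_bound _ ((norm_nonneg _).trans h2) (fun v => ?_)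
        show ‖G t (tau n ((Φ t)ᴴ) v)‖ ≤ _
        rw [hGn]
        exact (tau n ((Φ t)ᴴ)).le_of_opNorm_le h2 v
      · intro v m hm
        simp_rw [hK]
        have hi1 : Integrable (fun t => tau n (Φ t) v) mu := by
          refine Integrable.of_bound ((ContinuousLinearMap.apply ℂ (EuclideanSpace ℂ (Fin n)) v).continuous.comp_aestronglyMeasurable hF) (c * ‖v‖) ?_
          filter_upwards [hc] with t ht
          exact (tau n (Φ t)).le_of_opNorm_le ht v
        have hi2 : Integrable (fun t => G t (tau n ((Φ t)ᴴ) v)) mu := by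
          refine Integrable.of_bound ((ContinuousLinearMap.apply ℂ (EuclideanSpace ℂ (Fin n)) v).continuous.comp_aestronglyMeasurable hGF) (c' * ‖v‖) ?_
          filter_upwards [hc'] with t ht
          rw [hGn]
          exact (tau n ((Φ t)ᴴ)).le_of_opNorm_le ht v
        have h1 : fourierCoeff (fun t => (tau n (Φ t) - (G t).comp (tau n ((Φ t)ᴴ))) v) m =
            fourierCoeff (fun t => tau n (Φ t) v) m - fourierCoeff (fun t => G t (tau n ((Φ t)ᴴ) v)) m := by
          unfold fourierCoeff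
          rw [← integral_sub (hi1.fourier_smul (-m)) (hi2.fourier_smul (-m))]
          apply integral_congr_ae
          filter_upwards with t
          rw [← smul_sub]
          rfl
        rw [h1, hG2 v m hm, sub_self]
  · refine ⟨N.det, ?_, fun i => (L.get (i.cast hL.symm)).1, fun i => (hLq _ (List.get_mem _ _)).1, ?_⟩
    · have h1 := Matrix.det_of_mem_unitary hNu
      exact CStarRing.norm_of_mem_unitary h1
    · intro z _
      show (N * (L.map (fun q : ℂ × EuclideanSpace ℂ (Fin n) =>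
        ((z - q.1) / (1 - conj q.1 * z)) • rk q.2 + (1 - rk q.2))).prod).det = _
      rw [Matrix.det_mul, det_prod L (fun q hq => (hLq q hq).2),
        prod_get L (fun q => (z - q.1) / (1 - conj q.1 * z)) r hL]

end Pool.Agent.H612R3.Bp5
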