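import Mathlib

set_option autoImplicit false
open Matrix

namespace Pool.Agent.H612R3.Tto

variable {n : ℕ}


/-- conjugation of a rank one matrix -/
theorem conj_vmv (R : Matrix (Fin n) (Fin n) ℂ) (a b : Fin n → ℂ) :
    R * vecMulVec a (star b) * Rᴴ = vecMulVec (R *ᵥ a) (star (R *ᵥ b)) := by
  rw [mul_vecMulVec, vecMulVec_mul, star_mulVec]

theorem exists_A (M T : Matrix (Fin n) (Fin n) ℂ) (k u v : Fin n → ℂ)
    (h1 : 1 - T * Tᴴ = vecMulVec k (star k))
    (h2 : ∀ μ : ℂ, ∀ x : Fin n → ℂ, x ≠ 0 → T *ᵥ x = μ • x → ‖μ‖ < 1)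
    (h3 : M - T * M * Tᴴ = vecMulVec u (star k) + vecMulVec k (star v)) :
    ∃ (A : Matrix (Fin n) (Fin n) ℂ) (k₁ u₂ v₂ : Fin n → ℂ), A.IsHermitian ∧
      A * M - M * A = vecMulVec u₂ (star k₁) + vecMulVec k₁ (star v₂) ∧
      ∀ (x : Fin n → ℂ) (t : ℝ), x ≠ 0 → A *ᵥ x = (t : ℂ) • x → star k₁ ⬝ᵥ x ≠ 0 := by
  -- invertibility of `1 - T`
  have hdet : IsUnit (1 - T) := by
    by_contra hcon
    have h4 : (1 - T).det = 0 := by
      by_contra h5
      exact hcon ((Matrix.isUnit_iff_isUnit_det _).2 (isUnit_iff_ne_zero.2 h5))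
    obtain ⟨x, hx, hx2⟩ := Matrix.exists_mulVec_eq_zero_iff.2 h4
    have h6 : T *ᵥ x = (1 : ℂ) • x := by
      rw [sub_mulVec, one_mulVec, sub_eq_zero] at hx2
      rw [← hx2, one_smul]
    have := h2 1 x hx h6
    simp at this
  obtain ⟨⟨S, R, hSR, hRS⟩, hS⟩ := hdet
  simp only at hS
  subst hS
  -- adjoint relations
  have hRS' : (1 - Tᴴ) * Rᴴ = 1 := by
    have := congrArg conjTranspose hRS
    rwa [conjTranspose_mul, conjTranspose_sub, conjTranspose_one] at this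
  have hSR' : Rᴴ * (1 - Tᴴ) = 1 := by
    have := congrArg conjTranspose hSR
    rwa [conjTranspose_mul, conjTranspose_sub, conjTranspose_one] at this
  obtain ⟨k₁, hk₁⟩ : ∃ k₁, k₁ = R *ᵥ k := ⟨_, rfl⟩
  set P := vecMulVec k₁ (star k₁) with hP
  set B := R * (1 + T) with hB
  have hBH : Bᴴ = (1 + Tᴴ) * Rᴴ := by
    rw [hB, conjTranspose_mul, conjTranspose_add, conjTranspose_one]
  have hPR : P = R * (1 - T * Tᴴ) * Rᴴ := by
    rw [h1, conj_vmv, ← hk₁]
  have e1 : ∀ X : Matrix (Fin n) (Fin n) ℂ, R * (1 + T) * X = R * ((1 + T) * X * (1 - Tᴴ)) * Rᴴ := by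
    intro X
    calc R * (1 + T) * X = R * ((1 + T) * X) * ((1 - Tᴴ) * Rᴴ) := by rw [hRS', mul_one, mul_assoc]
      _ = _ := by simp only [mul_assoc]
  have e2 : ∀ X : Matrix (Fin n) (Fin n) ℂ, X * ((1 + Tᴴ) * Rᴴ) = R * ((1 - T) * X * (1 + Tᴴ)) * Rᴴ := by
    intro X
    calc X * ((1 + Tᴴ) * Rᴴ) = (R * (1 - T)) * (X * ((1 + Tᴴ) * Rᴴ)) := by rw [hRS, one_mul]
      _ = _ := by simp only [mul_assoc]
  have hsum : B + Bᴴ = 2 • P := by
    have a1 := e1 1
    have a2 := e2 1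
    simp only [mul_one, one_mul] at a1 a2
    rw [hBH, hB, a1, a2, hPR, ← add_mul, ← mul_add]
    have : (1 + T) * (1 - Tᴴ) + (1 - T) * (1 + Tᴴ) = 2 • (1 - T * Tᴴ) := by
      noncomm_ring
    rw [this]
    simp only [mul_smul_comm, smul_mul_assoc]
  have hPH : Pᴴ = P := by
    rw [hP, conjTranspose_vecMulVec, star_star]
  have hkey : B * M + M * Bᴴ = 2 • (R * (M - T * M * Tᴴ) * Rᴴ) := by
    rw [hBH, hB, e1 M, e2 M, ← add_mul, ← mul_add]
    have : (1 + T) * M * (1 - Tᴴ) + (1 - T) * M * (1 + Tᴴ) = 2 • (M - T * M * Tᴴ) := by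
      noncomm_ring
    rw [this]
    simp only [mul_smul_comm, smul_mul_assoc]
  obtain ⟨u₁, hu₁⟩ : ∃ u₁, u₁ = R *ᵥ u := ⟨_, rfl⟩
  obtain ⟨v₁, hv₁⟩ : ∃ v₁, v₁ = R *ᵥ v := ⟨_, rfl⟩
  have hkey2 : B * M + M * Bᴴ = 2 • (vecMulVec u₁ (star k₁) + vecMulVec k₁ (star v₁)) := by
    rw [hkey, h3, mul_add, add_mul, conj_vmv, conj_vmv, ← hk₁, ← hu₁, ← hv₁]
  refine ⟨(-Complex.I) • (B - P), k₁, (-2 * Complex.I) • u₁ + Complex.I • (M *ᵥ k₁),
    (2 * Complex.I) • v₁ - Complex.I • (Mᴴ *ᵥ k₁), ?_, ?_, ?_⟩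
  · unfold Matrix.IsHermitian
    rw [conjTranspose_smul, conjTranspose_sub, hPH]
    have : Bᴴ = 2 • P - B := by rw [← hsum]; abel
    rw [this]
    simp only [star_neg, Complex.star_def, Complex.conj_I, neg_neg]
    rw [neg_smul, ← smul_neg]
    congr 1
    rw [two_smul]; abel
  · have hMP : M * P = vecMulVec (M *ᵥ k₁) (star k₁) := by rw [hP, mul_vecMulVec]
    have hPM : P * M = vecMulVec k₁ (star (Mᴴ *ᵥ k₁)) := by
      rw [hP, vecMulVec_mul, star_mulVec, conjTranspose_conjTranspose]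
    have hB2 : Bᴴ = 2 • P - B := by rw [← hsum]; abel
    have h5 : (-Complex.I) • (B - P) * M - M * ((-Complex.I) • (B - P)) =
        (-Complex.I) • (B * M + M * Bᴴ) + Complex.I • (P * M + M * P) := by
      rw [hB2]
      simp only [smul_mul_assoc, mul_smul_comm, sub_mul, mul_sub, two_smul, mul_add]
      module
    rw [h5, hkey2, hMP, hPM]
    simp only [star_sub, star_smul, add_vecMulVec, smul_vecMulVec, vecMulVec_smul,
      vecMulVec_sub, star_mul, Complex.star_def, Complex.conj_I]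
    have h6 : (starRingEnd ℂ) 2 = 2 := Complex.conj_ofNat 2
    rw [h6]
    module
  · intro x t hx hAx hkx
    have hPx : P *ᵥ x = 0 := by
      rw [hP, vecMulVec_mulVec, hkx]; simp
    have hBx : B *ᵥ x = (Complex.I * t) • x := by
      rw [smul_mulVec, sub_mulVec, hPx, sub_zero] at hAx
      have := congrArg (fun z => Complex.I • z) hAx
      simp only [smul_smul] at this
      rw [show Complex.I * -Complex.I = 1 by rw [mul_neg, Complex.I_mul_I, neg_neg], one_smul] at this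
      exact this
    have hBHx : Bᴴ *ᵥ x = (-(Complex.I * t)) • x := by
      have hB2 : Bᴴ = 2 • P - B := by rw [← hsum]; abel
      rw [hB2, sub_mulVec, smul_mulVec, hPx, hBx, smul_zero, zero_sub, neg_smul]
    set y := Rᴴ *ᵥ x with hy
    have hxy : x = (1 - Tᴴ) *ᵥ y := by
      rw [hy, mulVec_mulVec, hRS', one_mulVec]
    have hy0 : y ≠ 0 := by
      intro h0
      rw [h0, mulVec_zero] at hxy
      exact hx hxy
    have hky : star k ⬝ᵥ y = 0 := by
      rw [hy, dotProduct_mulVec, ← star_mulVec, ← hk₁]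
      exact hkx
    have h7 : (1 + Tᴴ) *ᵥ y = (-(Complex.I * t)) • ((1 - Tᴴ) *ᵥ y) := by
      rw [← hxy, ← hBHx, hBH, ← mulVec_mulVec]
    set ω : ℂ := -(1 + Complex.I * t) / (1 - Complex.I * t) with hω
    have hne : (1 - Complex.I * t) ≠ 0 := by
      intro h0
      have := congrArg Complex.re h0
      simp at this
    have hne2 : (1 + Complex.I * t) ≠ 0 := by
      intro h0
      have := congrArg Complex.re h0
      simp at this
    have hTy : Tᴴ *ᵥ y = ω • y := by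
      rw [add_mulVec, sub_mulVec, one_mulVec] at h7
      have h8 : (1 - Complex.I * t) • (Tᴴ *ᵥ y) = (-(1 + Complex.I * t)) • y := by
        have : (1 - Complex.I * t) • (Tᴴ *ᵥ y) = (y + Tᴴ *ᵥ y) - y - (Complex.I * t) • (Tᴴ *ᵥ y) := by module
        rw [this, h7]
        module
      have h9 : Tᴴ *ᵥ y = (1 - Complex.I * t)⁻¹ • ((1 - Complex.I * t) • (Tᴴ *ᵥ y)) := by
        rw [smul_smul, inv_mul_cancel₀ hne, one_smul]
      rw [h9, h8, smul_smul, hω]
      congr 1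
      ring
    have hω0 : ω ≠ 0 := by
      rw [hω]
      exact div_ne_zero (neg_ne_zero.2 hne2) hne
    have hωn : ‖ω‖ = 1 := by
      rw [hω, norm_div, norm_neg]
      have : (1 - Complex.I * t) = star (1 + Complex.I * t) := by
        simp [Complex.ext_iff]
      rw [this, norm_star, div_self (norm_ne_zero_iff.2 hne2)]
    have hTTy : T *ᵥ (Tᴴ *ᵥ y) = y := by
      have h10 : (1 - T * Tᴴ) *ᵥ y = 0 := by
        rw [h1, vecMulVec_mulVec, hky]; simp
      rw [sub_mulVec, one_mulVec, sub_eq_zero] at h10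
      rw [mulVec_mulVec]
      exact h10.symm
    have hT : T *ᵥ y = ω⁻¹ • y := by
      rw [hTy, mulVec_smul] at hTTy
      rw [← hTTy, smul_smul, inv_mul_cancel₀ hω0, one_smul, hTTy]
    have := h2 ω⁻¹ y hy0 hT
    rw [norm_inv, hωn, inv_one] at this
    exact lt_irrefl _ this

end Pool.Agent.H612R3.Tto
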