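import Pool.Agent.H612R3.Tto1

set_option autoImplicit false
open Matrix

namespace Pool.Agent.H612R3.Tto

variable {n : ℕ}

/-- the family of symmetric matrices -/
noncomputable def Nmat {n : ℕ} (t κ : Fin n → ℝ) (p d : Fin n → ℂ) : Matrix (Fin n) (Fin n) ℂ :=
  Matrix.of fun i j => if i = j then d i else (p i * κ j - κ i * p j) / ((t i : ℂ) - t j)

theorem Nmat_symm (t κ : Fin n → ℝ) (p d : Fin n → ℂ) : (Nmat t κ p d)ᵀ = Nmat t κ p d := by
  ext i j
  simp only [Nmat, transpose_apply, of_apply]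
  by_cases h : i = j
  · subst h; simp
  · rw [if_neg h, if_neg (Ne.symm h)]
    rw [← neg_div_neg_eq]
    congr 1
    · ring
    · ring

theorem exists_N (M A : Matrix (Fin n) (Fin n) ℂ) (k₁ u₂ v₂ : Fin n → ℂ) (hA : A.IsHermitian)
    (h : A * M - M * A = vecMulVec u₂ (star k₁) + vecMulVec k₁ (star v₂))
    (hcyc : ∀ (x : Fin n → ℂ) (t : ℝ), x ≠ 0 → A *ᵥ x = (t : ℂ) • x → star k₁ ⬝ᵥ x ≠ 0) :
    ∃ (Q : Matrix (Fin n) (Fin n) ℂ) (t κ : Fin n → ℝ) (p d : Fin n → ℂ), Qᴴ * Q = 1 ∧ Q * Qᴴ = 1 ∧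
      Function.Injective t ∧ M = Q * Nmat t κ p d * Qᴴ := by
  obtain ⟨V, hV⟩ : ∃ V : Matrix (Fin n) (Fin n) ℂ, V = (hA.eigenvectorUnitary : Matrix (Fin n) (Fin n) ℂ) := ⟨_, rfl⟩
  obtain ⟨t, ht⟩ : ∃ t : Fin n → ℝ, t = hA.eigenvalues := ⟨_, rfl⟩
  have hVV : Vᴴ * V = 1 := by
    rw [hV]; exact Unitary.coe_star_mul_self hA.eigenvectorUnitary
  have hVV' : V * Vᴴ = 1 := by
    rw [hV]; exact Unitary.coe_mul_star_self hA.eigenvectorUnitary
  obtain ⟨D, hD⟩ : ∃ D : Matrix (Fin n) (Fin n) ℂ, D = diagonal (fun i => (t i : ℂ)) := ⟨_, rfl⟩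
  have hAD : A = V * D * Vᴴ := by
    have := hA.spectral_theorem
    rw [Unitary.conjStarAlgAut_apply] at this
    rw [hV, hD, ht]
    exact this
  obtain ⟨M', hM'⟩ : ∃ M' : Matrix (Fin n) (Fin n) ℂ, M' = Vᴴ * M * V := ⟨_, rfl⟩
  obtain ⟨k, hk⟩ : ∃ k, k = Vᴴ *ᵥ k₁ := ⟨_, rfl⟩
  obtain ⟨u, hu⟩ : ∃ u, u = Vᴴ *ᵥ u₂ := ⟨_, rfl⟩
  obtain ⟨v, hv⟩ : ∃ v, v = Vᴴ *ᵥ v₂ := ⟨_, rfl⟩
  have hrel : D * M' - M' * D = vecMulVec u (star k) + vecMulVec k (star v) := by
    have h1 : Vᴴ * (A * M - M * A) * V = D * M' - M' * D := by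
      rw [mul_sub, sub_mul, hM']
      congr 1
      · calc Vᴴ * (A * M) * V = Vᴴ * (V * D * Vᴴ * M) * V := by rw [← hAD]
          _ = (Vᴴ * V) * D * (Vᴴ * M * V) := by simp only [mul_assoc]
          _ = _ := by rw [hVV, one_mul]
      · calc Vᴴ * (M * A) * V = Vᴴ * (M * (V * D * Vᴴ)) * V := by rw [← hAD]
          _ = (Vᴴ * M * V) * D * (Vᴴ * V) := by simp only [mul_assoc]
          _ = _ := by rw [hVV, mul_one]
    rw [← h1, h]
    have h2 := conj_vmv Vᴴ u₂ k₁
    have h3 := conj_vmv Vᴴ k₁ v₂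
    rw [conjTranspose_conjTranspose] at h2 h3
    rw [mul_add, add_mul, h2, h3, hk, hu, hv]
  -- entries of k are nonzero
  have heig : ∀ (e : Fin n → ℂ) (s : ℝ), (∀ i, e i ≠ 0 → t i = s) → e ≠ 0 → star k ⬝ᵥ e ≠ 0 := by
    intro e s he he0
    have hx0 : V *ᵥ e ≠ 0 := by
      intro h0
      apply he0
      have := congrArg (fun z => Vᴴ *ᵥ z) h0
      simp only [mulVec_mulVec, hVV, one_mulVec, mulVec_zero] at this
      exact this
    have hAx : A *ᵥ (V *ᵥ e) = (s : ℂ) • (V *ᵥ e) := by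
      rw [hAD, mulVec_mulVec, mul_assoc, hVV, mul_one, ← mulVec_mulVec, ← mulVec_smul]
      congr 1
      rw [hD]
      ext i
      rw [mulVec_diagonal, Pi.smul_apply, smul_eq_mul]
      by_cases hi : e i = 0
      · rw [hi]; simp
      · rw [he i hi]
    have h4 := hcyc _ s hx0 hAx
    rw [hk, star_mulVec, conjTranspose_conjTranspose, ← dotProduct_mulVec]
    exact h4
  have hk0 : ∀ i, k i ≠ 0 := by
    intro i hi
    apply heig (Pi.single i 1) (t i) _ _
    · simp [hi]
    · intro j hj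
      by_cases hij : j = i
      · rw [hij]
      · simp [hij] at hj
    · intro h0
      have := congrFun h0 i
      simp at this
  have htinj : Function.Injective t := by
    intro i j hij
    by_contra hne
    apply heig (Pi.single i (star (k j)) - Pi.single j (star (k i))) (t i) _ _
    · simp [dotProduct_sub]
      ring
    · intro l hl
      by_cases h5 : l = i
      · rw [h5]
      · by_cases h6 : l = j
        · rw [h6, hij]
        · simp [h5, h6] at hl
    · intro h0
      have := congrFun h0 i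
      simp [hne, hk0 j] at this
  -- phases
  obtain ⟨ω, hω⟩ : ∃ ω : Fin n → ℂ, ω = fun i => k i / ‖k i‖ := ⟨_, rfl⟩
  have hkn : ∀ i, (‖k i‖ : ℂ) ≠ 0 := fun i => by simpa using hk0 i
  have hω1 : ∀ i, star (ω i) * ω i = 1 := by
    intro i
    rw [hω]
    simp only [star_div₀, Complex.star_def, Complex.conj_ofReal]
    rw [div_mul_div_comm, Complex.conj_mul', ← sq]
    exact div_self (pow_ne_zero 2 (hkn i))
  have hωk : ∀ i, star (ω i) * k i = ‖k i‖ := by
    intro i
    rw [hω]
    simp only [star_div₀, Complex.star_def, Complex.conj_ofReal]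
    rw [div_mul_eq_mul_div, Complex.conj_mul', sq]
    field_simp
  have hkω : ∀ i, star (k i) * ω i = ‖k i‖ := by
    intro i
    have := congrArg star (hωk i)
    rw [star_mul, star_star] at this
    rw [this]
    simp
  obtain ⟨W, hW⟩ : ∃ W : Matrix (Fin n) (Fin n) ℂ, W = diagonal ω := ⟨_, rfl⟩
  have hWW : Wᴴ * W = 1 := by
    rw [hW, diagonal_conjTranspose, diagonal_mul_diagonal, ← diagonal_one]
    congr 1
    funext i
    exact hω1 i
  have hWW' : W * Wᴴ = 1 := by
    rw [hW, diagonal_conjTranspose, diagonal_mul_diagonal, ← diagonal_one]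
    congr 1
    funext i
    rw [mul_comm]
    exact hω1 i
  have hN : Wᴴ * M' * W = Nmat t (fun i => ‖k i‖) (fun i => star (ω i) * u i) (fun i => M' i i) := by
    have hent : ∀ i j, ((t i : ℂ) - t j) * M' i j = u i * star (k j) + k i * star (v j) := by
      intro i j
      have := congrFun (congrFun hrel i) j
      rw [hD] at this
      simp only [Matrix.sub_apply, diagonal_mul, mul_diagonal, Matrix.add_apply, vecMulVec_apply, Pi.star_apply] at this
      rw [← this]; ring
    have hdiag : ∀ i, star (v i) * ω i = - (star (ω i) * u i) := by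
      intro i
      have h7 := hent i i
      rw [sub_self, zero_mul] at h7
      have h8 : star (ω i) * (u i * star (k i) + k i * star (v i)) * ω i = 0 := by rw [← h7]; simp
      have h9 : star (ω i) * (u i * star (k i) + k i * star (v i)) * ω i =
          ‖k i‖ * (star (ω i) * u i + star (v i) * ω i) := by
        calc star (ω i) * (u i * star (k i) + k i * star (v i)) * ω i =
            (star (ω i) * u i) * (star (k i) * ω i) + (star (ω i) * k i) * (star (v i) * ω i) := by ring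
          _ = _ := by rw [hkω, hωk]; ring
      rw [h9] at h8
      have h10 := (mul_eq_zero.1 h8).resolve_left (hkn i)
      linear_combination h10
    ext i j
    rw [hW, diagonal_conjTranspose, mul_diagonal, diagonal_mul]
    simp only [Nmat, of_apply, Pi.star_apply]
    by_cases hij : i = j
    · subst hij
      rw [if_pos rfl, mul_comm (star (ω i)), mul_assoc, hω1, mul_one]
    · rw [if_neg hij]
      have hne : ((t i : ℂ) - t j) ≠ 0 := by
        rw [sub_ne_zero]
        intro h0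
        exact hij (htinj (by exact_mod_cast h0))
      rw [eq_div_iff hne]
      calc star (ω i) * M' i j * ω j * ((t i : ℂ) - t j) =
          star (ω i) * (((t i : ℂ) - t j) * M' i j) * ω j := by ring
        _ = (star (ω i) * u i) * (star (k j) * ω j) + (star (ω i) * k i) * (star (v j) * ω j) := by
          rw [hent]; ring
        _ = _ := by rw [hkω, hωk, hdiag]; ring
  refine ⟨V * W, t, (fun i => ‖k i‖), (fun i => star (ω i) * u i), (fun i => M' i i), ?_, ?_, htinj, ?_⟩
  · rw [conjTranspose_mul, mul_assoc, ← mul_assoc Vᴴ, hVV, one_mul, hWW]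
  · rw [conjTranspose_mul, mul_assoc, ← mul_assoc W, hWW', one_mul, hVV']
  · rw [← hN, hM', conjTranspose_mul]
    calc M = (V * Vᴴ) * M * (V * Vᴴ) := by rw [hVV', one_mul, mul_one]
      _ = V * (W * Wᴴ) * (Vᴴ * M * V) * (W * Wᴴ) * Vᴴ := by rw [hWW']; simp only [mul_assoc, mul_one, one_mul]
      _ = _ := by simp only [mul_assoc]

end Pool.Agent.H612R3.Tto
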