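import Pool.Agent.H612R3.Tto2

set_option autoImplicit false
open Matrix

namespace Pool.Agent.H612R3.Tto

variable {n : ℕ}

/-- no two orthogonal eigenvectors -/
def NoOrth (M : Matrix (Fin n) (Fin n) ℂ) : Prop :=
  ¬ ∃ x y : Fin n → ℂ, ∃ a b : ℂ, x ≠ 0 ∧ y ≠ 0 ∧ M *ᵥ x = a • x ∧ M *ᵥ y = b • y ∧ star x ⬝ᵥ y = 0

theorem eig_in (X N : Matrix (Fin n) (Fin n) ℂ) (hc : X * N = N * X) (e : Fin n → ℂ) (l : ℂ)
    (he : e ≠ 0) (hXe : X *ᵥ e = l • e) : ∃ (x : Fin n → ℂ) (a : ℂ), x ≠ 0 ∧ N *ᵥ x = a • x ∧ X *ᵥ x = l • x := by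
  let E : Submodule ℂ (Fin n → ℂ) := Module.End.eigenspace (Matrix.toLin' X) l
  have hmem : ∀ x, x ∈ E ↔ X *ᵥ x = l • x := fun x => by
    rw [Module.End.mem_eigenspace_iff, Matrix.toLin'_apply]
  have hinv : ∀ x ∈ E, Matrix.toLin' N x ∈ E := by
    intro x hx
    rw [hmem] at hx ⊢
    rw [Matrix.toLin'_apply, mulVec_mulVec, hc, ← mulVec_mulVec, hx, mulVec_smul]
  have hnt : Nontrivial E := by
    refine ⟨⟨⟨e, (hmem e).2 hXe⟩, 0, ?_⟩⟩
    intro h0
    exact he (congrArg Subtype.val h0)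
  obtain ⟨a, ha⟩ := Module.End.exists_eigenvalue ((Matrix.toLin' N).restrict hinv)
  obtain ⟨⟨x, hx⟩, hx2⟩ := ha.exists_hasEigenvector
  refine ⟨x, a, ?_, ?_, (hmem x).1 hx⟩
  · intro h0
    exact hx2.2 (Subtype.ext h0)
  · have := congrArg Subtype.val hx2.apply_eq_smul
    simpa using this

theorem scalar_of_comm (X N : Matrix (Fin n) (Fin n) ℂ) (hX : X.IsHermitian) (hc : X * N = N * X)
    (hno : NoOrth N) : ∃ c : ℂ, X = c • (1 : Matrix (Fin n) (Fin n) ℂ) := by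
  have hsp := hX.spectral_theorem
  rw [Unitary.conjStarAlgAut_apply] at hsp
  by_cases hall : ∀ i j, hX.eigenvalues i = hX.eigenvalues j
  · rcases Nat.eq_zero_or_pos n with rfl | hn
    · exact ⟨0, by ext i; exact i.elim0⟩
    · refine ⟨(hX.eigenvalues ⟨0, hn⟩ : ℂ), ?_⟩
      have hd : diagonal ((RCLike.ofReal : ℝ → ℂ) ∘ hX.eigenvalues) =
          (hX.eigenvalues ⟨0, hn⟩ : ℂ) • (1 : Matrix (Fin n) (Fin n) ℂ) := by
        rw [← diagonal_one, ← diagonal_smul]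
        congr 1
        funext i
        simp [hall i ⟨0, hn⟩]
      rw [hd] at hsp
      have hu : (hX.eigenvectorUnitary : Matrix (Fin n) (Fin n) ℂ) *
          star (hX.eigenvectorUnitary : Matrix (Fin n) (Fin n) ℂ) = 1 :=
        (Unitary.mem_iff.1 hX.eigenvectorUnitary.2).2
      rw [mul_smul_comm, smul_mul_assoc, mul_one, hu] at hsp
      exact hsp
  · push Not at hall
    obtain ⟨i, j, hij⟩ := hall
    exfalso
    apply hno
    have hv : ∀ i, (hX.eigenvectorBasis i : Fin n → ℂ) ≠ 0 := by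
      intro i h0
      have h1 := hX.eigenvectorBasis.orthonormal.1 i
      have h2 : hX.eigenvectorBasis i = 0 := by
        ext k
        exact congrFun h0 k
      rw [h2] at h1
      simp at h1
    have he : ∀ i, X *ᵥ (hX.eigenvectorBasis i : Fin n → ℂ) = (hX.eigenvalues i : ℂ) • (hX.eigenvectorBasis i : Fin n → ℂ) := by
      intro i
      rw [hX.mulVec_eigenvectorBasis]
      rfl
    obtain ⟨x, a, hx0, hNx, hXx⟩ := eig_in X N hc _ _ (hv i) (he i)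
    obtain ⟨y, b, hy0, hNy, hXy⟩ := eig_in X N hc _ _ (hv j) (he j)
    refine ⟨x, y, a, b, hx0, hy0, hNx, hNy, ?_⟩
    have h3 : star (X *ᵥ x) ⬝ᵥ y = star x ⬝ᵥ (X *ᵥ y) := by
      rw [star_mulVec, hX.eq, ← dotProduct_mulVec]
    rw [hXx, hXy, star_smul, smul_dotProduct, dotProduct_smul, smul_eq_mul, smul_eq_mul,
      Complex.star_def, Complex.conj_ofReal] at h3
    have h4 : ((hX.eigenvalues i : ℂ) - hX.eigenvalues j) * (star x ⬝ᵥ y) = 0 := by
      rw [sub_mul, h3, sub_self]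
    rcases mul_eq_zero.1 h4 with h5 | h5
    · exfalso
      apply hij
      exact_mod_cast sub_eq_zero.1 h5
    · exact h5

theorem exists_orth (hn : 0 < n) (M N Q : Matrix (Fin n) (Fin n) ℂ) (hQ : Qᴴ * Q = 1) (hQ' : Q * Qᴴ = 1)
    (hM : M = Q * N * Qᴴ) (hMs : Mᵀ = M) (hNs : Nᵀ = N) (hno : NoOrth M) :
    ∃ O : Matrix (Fin n) (Fin n) ℝ, Oᵀ * O = 1 ∧ M = O.map Complex.ofReal * N * (O.map Complex.ofReal)ᵀ := by
  have hnoN : NoOrth N := by
    rintro ⟨x, y, a, b, hx, hy, hNx, hNy, hxy⟩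
    apply hno
    have hq0 : ∀ x : Fin n → ℂ, x ≠ 0 → Q *ᵥ x ≠ 0 := by
      intro x hx h0
      apply hx
      have := congrArg (fun z => Qᴴ *ᵥ z) h0
      simp only [mulVec_mulVec, hQ, one_mulVec, mulVec_zero] at this
      exact this
    have hMx : ∀ (x : Fin n → ℂ) (a : ℂ), N *ᵥ x = a • x → M *ᵥ (Q *ᵥ x) = a • (Q *ᵥ x) := by
      intro x a h
      rw [hM, mulVec_mulVec, mul_assoc, hQ, mul_one, ← mulVec_mulVec, h, mulVec_smul]
    refine ⟨Q *ᵥ x, Q *ᵥ y, a, b, hq0 x hx, hq0 y hy, hMx x a hNx, hMx y b hNy, ?_⟩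
    rw [star_mulVec, ← dotProduct_mulVec, mulVec_mulVec, hQ, one_mulVec]
    exact hxy
  have hMH : Mᴴ = Q * Nᴴ * Qᴴ := by
    rw [hM, conjTranspose_mul, conjTranspose_mul, conjTranspose_conjTranspose, mul_assoc]
  have hMHs : (Mᴴ)ᵀ = Mᴴ := by
    have : (Mᴴ)ᵀ = (Mᵀ)ᴴ := rfl
    rw [this, hMs]
  have hNHs : (Nᴴ)ᵀ = Nᴴ := by
    have : (Nᴴ)ᵀ = (Nᵀ)ᴴ := rfl
    rw [this, hNs]
  obtain ⟨Z, hZ⟩ : ∃ Z : Matrix (Fin n) (Fin n) ℂ, Z = Qᵀ * Q := ⟨_, rfl⟩
  have hQT : Qᵀ * (Qᴴ)ᵀ = 1 := by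
    rw [← transpose_mul, hQ, transpose_one]
  have hcomm : ∀ P : Matrix (Fin n) (Fin n) ℂ, Pᵀ = P → (Q * P * Qᴴ)ᵀ = Q * P * Qᴴ → Z * P = P * Z := by
    intro P hP h
    rw [transpose_mul, transpose_mul, hP] at h
    have h2 : Qᵀ * ((Qᴴ)ᵀ * (P * Qᵀ)) * Q = Qᵀ * (Q * P * Qᴴ) * Q := by rw [h]
    have h3 : Qᵀ * ((Qᴴ)ᵀ * (P * Qᵀ)) * Q = P * Z := by
      rw [← mul_assoc Qᵀ, hQT, one_mul, hZ, mul_assoc]
    have h4 : Qᵀ * (Q * P * Qᴴ) * Q = Z * P := by
      calc Qᵀ * (Q * P * Qᴴ) * Q = Qᵀ * Q * P * (Qᴴ * Q) := by simp only [mul_assoc]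
        _ = _ := by rw [hQ, mul_one, hZ]
    rw [← h4, ← h2, h3]
  have hZN : Z * N = N * Z := hcomm N hNs (by rw [← hM, hMs])
  have hZNH : Z * Nᴴ = Nᴴ * Z := hcomm Nᴴ hNHs (by rw [← hMH, hMHs])
  have hZHN : Zᴴ * N = N * Zᴴ := by
    have := congrArg conjTranspose hZNH
    rw [conjTranspose_mul, conjTranspose_mul, conjTranspose_conjTranspose] at this
    exact this.symm
  obtain ⟨c₁, hc₁⟩ := scalar_of_comm (Z + Zᴴ) N (by
    unfold Matrix.IsHermitian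
    rw [conjTranspose_add, conjTranspose_conjTranspose, add_comm]) (by
    rw [add_mul, mul_add, hZN, hZHN]) hnoN
  obtain ⟨c₂, hc₂⟩ := scalar_of_comm (Complex.I • (Z - Zᴴ)) N (by
    unfold Matrix.IsHermitian
    rw [conjTranspose_smul, conjTranspose_sub, conjTranspose_conjTranspose]
    simp only [Complex.star_def, Complex.conj_I]
    rw [neg_smul, ← smul_neg, neg_sub]) (by
    rw [smul_mul_assoc, mul_smul_comm, sub_mul, mul_sub, hZN, hZHN]) hnoN
  obtain ⟨ζ, hζ⟩ : ∃ ζ : ℂ, Z = ζ • (1 : Matrix (Fin n) (Fin n) ℂ) := by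
    refine ⟨(c₁ - Complex.I * c₂) / 2, ?_⟩
    have h5 : Z = (1/2 : ℂ) • ((Z + Zᴴ) + (-Complex.I) • (Complex.I • (Z - Zᴴ))) := by
      rw [smul_smul (-Complex.I), show -Complex.I * Complex.I = 1 by rw [neg_mul, Complex.I_mul_I, neg_neg], one_smul]
      module
    rw [h5, hc₁, hc₂]
    module
  have hZu : Zᴴ * Z = 1 := by
    rw [hZ, conjTranspose_mul]
    have h6 : (Qᵀ)ᴴ * Qᵀ = 1 := by
      have : (Qᵀ)ᴴ = (Qᴴ)ᵀ := rfl
      rw [this, ← transpose_mul, hQ', transpose_one]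
    calc Qᴴ * (Qᵀ)ᴴ * (Qᵀ * Q) = Qᴴ * ((Qᵀ)ᴴ * Qᵀ) * Q := by simp only [mul_assoc]
      _ = 1 := by rw [h6, mul_one, hQ]
  have hζ1 : star ζ * ζ = 1 := by
    rw [hζ, conjTranspose_smul, conjTranspose_one, smul_mul_smul_comm, mul_one] at hZu
    have := congrFun (congrFun hZu ⟨0, hn⟩) ⟨0, hn⟩
    simpa using this
  obtain ⟨c, hc⟩ := IsAlgClosed.exists_pow_nat_eq ζ (n := 2) (by norm_num)
  have hc0 : c ≠ 0 := by
    intro h0
    rw [h0] at hc
    rw [← hc] at hζ1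
    simp at hζ1
  have hcn : star c * c = 1 := by
    have h7 : ‖c‖ ^ 2 = 1 := by
      have h8 : ‖ζ‖ ^ 2 = 1 := by
        rw [Complex.star_def, Complex.conj_mul'] at hζ1
        exact_mod_cast hζ1
      rw [← hc, norm_pow] at h8
      have h9 : 0 ≤ ‖c‖ ^ 2 := by positivity
      nlinarith
    rw [Complex.star_def, Complex.conj_mul']
    exact_mod_cast h7
  obtain ⟨O, hO⟩ : ∃ O : Matrix (Fin n) (Fin n) ℂ, O = c⁻¹ • Q := ⟨_, rfl⟩
  have hQO : Q = c • O := by rw [hO, smul_smul, mul_inv_cancel₀ hc0, one_smul]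
  have hOTO : Oᵀ * O = 1 := by
    rw [hO, transpose_smul, smul_mul_smul_comm, ← hZ, hζ, smul_smul, ← hc]
    rw [show c⁻¹ * c⁻¹ * c ^ 2 = 1 by field_simp, one_smul]
  have hOO : O * Oᴴ = 1 := by
    rw [hO, conjTranspose_smul, smul_mul_smul_comm, hQ']
    have : c⁻¹ * star c⁻¹ = 1 := by
      rw [star_inv₀, ← mul_inv, mul_comm, hcn, inv_one]
    rw [this, one_smul]
  have hOT : Oᵀ = Oᴴ := by
    calc Oᵀ = Oᵀ * (O * Oᴴ) := by rw [hOO, mul_one]
      _ = Oᴴ := by rw [← mul_assoc, hOTO, one_mul]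
  have hreal : ∀ i j, ((O i j).re : ℂ) = O i j := by
    intro i j
    have := congrFun (congrFun hOT j) i
    rw [transpose_apply, conjTranspose_apply, Complex.star_def] at this
    exact Complex.conj_eq_iff_re.1 this.symm
  refine ⟨Matrix.of fun i j => (O i j).re, ?_, ?_⟩
  · have hmap : (Matrix.of fun i j => (O i j).re).map Complex.ofReal = O := by
      ext i j
      simp only [map_apply, of_apply]
      exact hreal i j
    have h10 : ((Matrix.of fun i j => (O i j).re)ᵀ * (Matrix.of fun i j => (O i j).re)).map Complex.ofReal = 1 := by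
      have := Matrix.map_mul (L := (Matrix.of fun i j => (O i j).re)ᵀ) (M := (Matrix.of fun i j => (O i j).re)) (f := Complex.ofRealHom)
      rw [show (Complex.ofRealHom : ℝ → ℂ) = Complex.ofReal from rfl] at this
      rw [this, transpose_map, hmap, hOTO]
    ext i j
    have h11 := congrFun (congrFun h10 i) j
    rw [map_apply] at h11
    by_cases hij : i = j
    · subst hij
      rw [one_apply_eq] at h11 ⊢
      exact_mod_cast h11
    · rw [one_apply_ne hij] at h11 ⊢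
      exact_mod_cast h11
  · have hmap : (Matrix.of fun i j => (O i j).re).map Complex.ofReal = O := by
      ext i j
      simp only [map_apply, of_apply]
      exact hreal i j
    rw [hmap, hOT, hM, hQO, conjTranspose_smul, smul_mul_assoc, smul_mul_assoc, mul_smul_comm, smul_smul,
      mul_comm c, hcn, one_smul]

end Pool.Agent.H612R3.Tto
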