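import Pool.Agent.H612R3.Tto3

set_option autoImplicit false
open Matrix

namespace Pool.Agent.H612R3.Tto

variable {n : ℕ}

theorem det_affine (A : Matrix (Fin n) (Fin n) ℝ) (d : Fin n → ℝ) (i : Fin n) :
    (A + diagonal d).det = (1 + d i) / 2 * (A + diagonal (Function.update d i 1)).det +
      (1 - d i) / 2 * (A + diagonal (Function.update d i (-1))).det := by
  have h : ∀ c : ℝ, A + diagonal (Function.update d i c) = (A + diagonal d).updateRow i (A i + c • Pi.single i 1) := by
    intro c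
    ext j l
    by_cases hj : j = i
    · subst hj
      rw [updateRow_self]
      by_cases hl : l = j
      · subst hl; simp
      · simp [hl, Ne.symm hl]
    · rw [updateRow_ne hj]
      by_cases hl : j = l
      · subst hl; simp [hj]
      · simp [hl]
  have h0 : A + diagonal d = (A + diagonal d).updateRow i (((1 + d i) / 2) • (A i + (1:ℝ) • Pi.single i 1) +
      ((1 - d i) / 2) • (A i + (-1:ℝ) • Pi.single i 1)) := by
    ext j l
    by_cases hj : j = i
    · subst hj
      rw [updateRow_self]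
      by_cases hl : l = j
      · subst hl; simp; ring
      · simp [hl, Ne.symm hl]; ring
    · rw [updateRow_ne hj]
  rw [h 1, h (-1)]
  conv_lhs => rw [h0]
  rw [det_updateRow_add, det_updateRow_smul, det_updateRow_smul]

theorem exists_sign (A : Matrix (Fin n) (Fin n) ℝ) :
    ∃ d : Fin n → ℝ, (∀ i, d i = 1 ∨ d i = -1) ∧ (A + diagonal d).det ≠ 0 := by
  by_contra hcon
  push Not at hcon
  have hS : ∀ (S : Finset (Fin n)) (d : Fin n → ℝ), (∀ i, i ∉ S → d i = 1 ∨ d i = -1) → (A + diagonal d).det = 0 := by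
    intro S
    induction S using Finset.induction_on with
    | empty => intro d hd; exact hcon d (fun i => hd i (by simp))
    | insert i S hi ih =>
      intro d hd
      rw [det_affine A d i, ih, ih]
      · ring
      · intro j hj
        by_cases hji : j = i
        · subst hji; simp
        · rw [Function.update_of_ne hji]
          exact hd j (by simp [hji, hj])
      · intro j hj
        by_cases hji : j = i
        · subst hji; simp
        · rw [Function.update_of_ne hji]
          exact hd j (by simp [hji, hj])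
  have h1 : ∀ l : ℝ, ((-A).charpoly).eval l = 0 := by
    intro l
    rw [eval_charpoly, sub_neg_eq_add, add_comm]
    exact hS Finset.univ (fun _ => l) (fun i hi => absurd (Finset.mem_univ i) hi)
  have h2 : (-A).charpoly = 0 := Polynomial.funext (fun l => by rw [h1 l, Polynomial.eval_zero])
  exact (charpoly_monic (-A)).ne_zero h2

/-- skew-symmetric matrix from its entries above the diagonal -/
noncomputable def Kmat (a : {p : Fin n × Fin n // p.1 < p.2} → ℝ) : Matrix (Fin n) (Fin n) ℝ :=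
  Matrix.of fun i j => if h : i < j then a ⟨(i, j), h⟩ else if h : j < i then - a ⟨(j, i), h⟩ else 0

theorem Kmat_of_skew (K : Matrix (Fin n) (Fin n) ℝ) (hK : Kᵀ = -K) :
    K = Kmat (fun p => K p.1.1 p.1.2) := by
  ext i j
  simp only [Kmat, of_apply]
  have h1 : ∀ i j, K j i = - K i j := fun i j => congrFun (congrFun hK i) j
  rcases lt_trichotomy i j with h | h | h
  · rw [dif_pos h]
  · subst h
    rw [dif_neg (lt_irrefl _), dif_neg (lt_irrefl _)]
    have := h1 i i
    linarith
  · rw [dif_neg (not_lt.2 h.le), dif_pos h]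
    exact h1 j i

/-- Cayley transform -/
noncomputable def Pmat (a : {p : Fin n × Fin n // p.1 < p.2} → ℝ) : Matrix (Fin n) (Fin n) ℝ :=
  ((1 + Kmat a).det)⁻¹ • ((1 - Kmat a) * (1 + Kmat a).adjugate)

theorem exists_cayley (O : Matrix (Fin n) (Fin n) ℝ) (hO : Oᵀ * O = 1) :
    ∃ (d : Fin n → ℝ) (a : {p : Fin n × Fin n // p.1 < p.2} → ℝ), (∀ i, d i = 1 ∨ d i = -1) ∧
      (1 + Kmat a).det ≠ 0 ∧ O = Pmat a * diagonal d := by
  obtain ⟨d, hd, hdet⟩ := exists_sign O
  have hdd : diagonal d * diagonal d = 1 := by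
    rw [diagonal_mul_diagonal, ← diagonal_one]
    congr 1
    funext i
    rcases hd i with h | h <;> rw [h] <;> norm_num
  obtain ⟨P, hP⟩ : ∃ P, P = O * diagonal d := ⟨_, rfl⟩
  have hPO : O = P * diagonal d := by rw [hP, mul_assoc, hdd, mul_one]
  have hPP : Pᵀ * P = 1 := by
    rw [hP, transpose_mul, diagonal_transpose]
    calc diagonal d * Oᵀ * (O * diagonal d) = diagonal d * (Oᵀ * O) * diagonal d := by simp only [mul_assoc]
      _ = 1 := by rw [hO, mul_one, hdd]
  have hdetP : (1 + P).det ≠ 0 := by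
    have e : 1 + P = (O + diagonal d) * diagonal d := by
      rw [add_mul, hdd, hP, add_comm]
    rw [e, det_mul]
    refine mul_ne_zero hdet ?_
    rw [det_diagonal]
    apply Finset.prod_ne_zero_iff.2
    intro i _
    rcases hd i with h | h <;> rw [h] <;> norm_num
  have hu : IsUnit (1 + P) := (Matrix.isUnit_iff_isUnit_det _).2 (isUnit_iff_ne_zero.2 hdetP)
  obtain ⟨⟨S, R, hSR, hRS⟩, hS⟩ := hu
  simp only at hS
  subst hS
  have hcomm : (1 - P) * R = R * (1 - P) := by
    calc (1 - P) * R = (R * (1 + P)) * ((1 - P) * R) := by rw [hRS, one_mul]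
      _ = R * ((1 + P) * (1 - P)) * R := by simp only [mul_assoc]
      _ = R * ((1 - P) * (1 + P)) * R := by congr 2; noncomm_ring
      _ = R * (1 - P) * ((1 + P) * R) := by simp only [mul_assoc]
      _ = _ := by rw [hSR, mul_one]
  obtain ⟨K, hK⟩ : ∃ K, K = (1 - P) * R := ⟨_, rfl⟩
  have hRT : Rᵀ * (1 + Pᵀ) = 1 := by
    have := congrArg transpose hSR
    rwa [transpose_mul, transpose_add, transpose_one] at this
  have hskew : Kᵀ = -K := by
    have h1 : (1 - Pᵀ) * (1 + P) = -((1 + Pᵀ) * (1 - P)) := by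
      have : (1 - Pᵀ) * (1 + P) + (1 + Pᵀ) * (1 - P) = 2 • (1 - Pᵀ * P) := by noncomm_ring
      rw [hPP, sub_self, smul_zero] at this
      exact eq_neg_of_add_eq_zero_left this
    calc Kᵀ = Rᵀ * (1 - Pᵀ) := by rw [hK, transpose_mul, transpose_sub, transpose_one]
      _ = Rᵀ * ((1 - Pᵀ) * (1 + P)) * R := by
          rw [mul_assoc, mul_assoc, hSR, mul_one]
      _ = -(Rᵀ * (1 + Pᵀ) * ((1 - P) * R)) := by rw [h1]; simp only [mul_neg, neg_mul, mul_assoc]
      _ = -K := by rw [hRT, one_mul, hK]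
  have h1K : 1 + K = 2 • R := by
    have : (1 + P) * R + (1 - P) * R = 2 • R := by noncomm_ring
    rw [hSR, ← hK] at this
    exact this
  have h1K' : 1 - K = P * (1 + K) := by
    have : (1 + P) * R - (1 - P) * R = P * (2 • R) := by noncomm_ring
    rw [hSR, ← hK, ← h1K] at this
    exact this
  have hdetK : (1 + K).det ≠ 0 := by
    intro h0
    have h2 : (1 + K) * (1 + P) = 2 • (1 : Matrix (Fin n) (Fin n) ℝ) := by
      rw [h1K, smul_mul_assoc, hRS]
    have h3 := congrArg Matrix.det h2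
    rw [det_mul, h0, zero_mul] at h3
    rw [show (2 • (1 : Matrix (Fin n) (Fin n) ℝ)) = (2:ℝ) • (1 : Matrix (Fin n) (Fin n) ℝ) by
      rw [two_smul, two_smul], det_smul, det_one, mul_one] at h3
    exact (pow_ne_zero _ (by norm_num : (2:ℝ) ≠ 0)) h3.symm
  have hKa := Kmat_of_skew K hskew
  refine ⟨d, fun p => K p.1.1 p.1.2, hd, ?_, ?_⟩
  · rw [← hKa]; exact hdetK
  · unfold Pmat
    rw [← hKa, h1K', mul_assoc, mul_adjugate, mul_smul_comm, mul_one, smul_smul,
      inv_mul_cancel₀ hdetK, one_smul]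
    exact hPO

/-- the parametrisation -/
noncomputable def Phi (a : {p : Fin n × Fin n // p.1 < p.2} → ℝ) (t κ : Fin n → ℝ) (p d : Fin n → ℂ) :
    Matrix (Fin n) (Fin n) ℂ :=
  (Pmat a).map Complex.ofReal * Nmat t κ p d * ((Pmat a).map Complex.ofReal)ᵀ

theorem exists_param (hn : 0 < n) (M T : Matrix (Fin n) (Fin n) ℂ) (k u v : Fin n → ℂ) (hMs : Mᵀ = M) (hno : NoOrth M)
    (h1 : 1 - T * Tᴴ = vecMulVec k (star k))
    (h2 : ∀ μ : ℂ, ∀ x : Fin n → ℂ, x ≠ 0 → T *ᵥ x = μ • x → ‖μ‖ < 1)
    (h3 : M - T * M * Tᴴ = vecMulVec u (star k) + vecMulVec k (star v)) :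
    ∃ (a : {p : Fin n × Fin n // p.1 < p.2} → ℝ) (t κ : Fin n → ℝ) (p d : Fin n → ℂ),
      (1 + Kmat a).det ≠ 0 ∧ Function.Injective t ∧ M = Phi a t κ p d := by
  obtain ⟨A, k₁, u₂, v₂, hA, hrel, hcyc⟩ := exists_A M T k u v h1 h2 h3
  obtain ⟨Q, t, κ, p, d, hQ, hQ', ht, hM⟩ := exists_N M A k₁ u₂ v₂ hA hrel hcyc
  obtain ⟨O, hO, hMO⟩ := exists_orth hn M _ Q hQ hQ' hM hMs (Nmat_symm t κ p d) hno
  obtain ⟨s, a, hs, hdet, hOP⟩ := exists_cayley O hO
  refine ⟨a, t, fun i => s i * κ i, fun i => s i * p i, d, hdet, ht, ?_⟩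
  rw [hMO, hOP]
  unfold Phi
  have hmap : (Pmat a * diagonal s).map Complex.ofReal = (Pmat a).map Complex.ofReal * diagonal (fun i => (s i : ℂ)) := by
    have := Matrix.map_mul (L := Pmat a) (M := diagonal s) (f := Complex.ofRealHom)
    rw [show (Complex.ofRealHom : ℝ → ℂ) = Complex.ofReal from rfl] at this
    rw [this, diagonal_map (by simp)]
  rw [hmap, transpose_mul, diagonal_transpose]
  have hN : Nmat t (fun i => s i * κ i) (fun i => (s i : ℂ) * p i) d =
      diagonal (fun i => (s i : ℂ)) * Nmat t κ p d * diagonal (fun i => (s i : ℂ)) := by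
    ext i j
    rw [mul_diagonal, diagonal_mul]
    simp only [Nmat, of_apply]
    by_cases hij : i = j
    · subst hij
      rw [if_pos rfl, if_pos rfl]
      have : (s i : ℂ) * s i = 1 := by
        rcases hs i with h | h <;> rw [h] <;> norm_num
      calc d i = (s i * s i) * d i := by rw [this, one_mul]
        _ = _ := by ring
    · rw [if_neg hij, if_neg hij]
      push_cast
      ring
  rw [hN]
  simp only [mul_assoc]

end Pool.Agent.H612R3.Tto
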