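import Pool.Agent.H612R3.Tto4

set_option autoImplicit false
open Matrix Topology

namespace Pool.Agent.H612R3.Tto

variable {n : ℕ}

section CD

variable {E : Type} [NormedAddCommGroup E] [NormedSpace ℝ E] {𝕜 : Type} [RCLike 𝕜]

/-- entrywise `C¹` -/
def CD (G : E → Matrix (Fin n) (Fin n) 𝕜) (x : E) : Prop := ∀ i j, ContDiffAt ℝ 1 (fun y => G y i j) x

theorem CD.mul {G G' : E → Matrix (Fin n) (Fin n) 𝕜} {x : E} (h : CD G x) (h' : CD G' x) :
    CD (fun y => G y * G' y) x := by
  intro i j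
  simp only [Matrix.mul_apply]
  exact ContDiffAt.sum fun k _ => (h i k).mul (h' k j)

theorem CD.transpose {G : E → Matrix (Fin n) (Fin n) 𝕜} {x : E} (h : CD G x) : CD (fun y => (G y)ᵀ) x :=
  fun i j => h j i

theorem CD.det {G : E → Matrix (Fin n) (Fin n) 𝕜} {x : E} (h : CD G x) : ContDiffAt ℝ 1 (fun y => (G y).det) x := by
  simp only [Matrix.det_apply]
  apply ContDiffAt.sum
  intro σ _
  apply ContDiffAt.const_smul
  apply contDiffAt_prod
  intro i _
  exact h _ _

theorem CD.adjugate {G : E → Matrix (Fin n) (Fin n) 𝕜} {x : E} (h : CD G x) : CD (fun y => (G y).adjugate) x := by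
  intro i j
  simp only [adjugate_apply]
  apply CD.det
  intro k l
  by_cases hk : k = j
  · subst hk
    simp only [updateRow_self]
    exact contDiffAt_const
  · simp only [updateRow_ne hk]
    exact h k l

end CD

/-- parameter space -/
abbrev E (n : ℕ) := ({p : Fin n × Fin n // p.1 < p.2} → ℝ) × (Fin n → ℝ) × (Fin n → ℝ) × (Fin n → ℂ) × (Fin n → ℂ)

/-- target space -/
abbrev F (n : ℕ) := {p : Fin n × Fin n // p.1 ≤ p.2} → ℂ

theorem CD_K (x : E n) : CD (fun y : E n => Kmat y.1) x := by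
  intro i j
  simp only [Kmat, of_apply]
  by_cases h : i < j
  · simp only [dif_pos h]
    fun_prop
  · by_cases h' : j < i
    · simp only [dif_neg h, dif_pos h']
      fun_prop
    · simp only [dif_neg h, dif_neg h']
      exact contDiffAt_const

theorem CD_P (x : E n) (hx : (1 + Kmat x.1).det ≠ 0) : CD (fun y : E n => Pmat y.1) x := by
  have h1 : CD (fun y : E n => 1 + Kmat y.1) x := by
    intro i j
    simp only [Matrix.add_apply]
    exact contDiffAt_const.add (CD_K x i j)
  have h2 : CD (fun y : E n => 1 - Kmat y.1) x := by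
    intro i j
    simp only [Matrix.sub_apply]
    exact contDiffAt_const.sub (CD_K x i j)
  intro i j
  simp only [Pmat, Matrix.smul_apply, smul_eq_mul]
  exact (h1.det.inv hx).mul (h2.mul h1.adjugate i j)

theorem CD_N (x : E n) (hx : Function.Injective x.2.1) :
    CD (fun y : E n => Nmat y.2.1 y.2.2.1 y.2.2.2.1 y.2.2.2.2) x := by
  intro i j
  simp only [Nmat, of_apply]
  by_cases h : i = j
  · simp only [if_pos h]
    fun_prop
  · simp only [if_neg h]
    have hof : ∀ (k : Fin n), ContDiffAt ℝ 1 (fun y : E n => ((y.2.1 k : ℝ) : ℂ)) x := fun k =>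
      (Complex.ofRealCLM.contDiff.contDiffAt).comp x (by fun_prop : ContDiffAt ℝ 1 (fun y : E n => y.2.1 k) x)
    have hof2 : ∀ (k : Fin n), ContDiffAt ℝ 1 (fun y : E n => ((y.2.2.1 k : ℝ) : ℂ)) x := fun k =>
      (Complex.ofRealCLM.contDiff.contDiffAt).comp x (by fun_prop : ContDiffAt ℝ 1 (fun y : E n => y.2.2.1 k) x)
    have hp : ∀ (k : Fin n), ContDiffAt ℝ 1 (fun y : E n => y.2.2.2.1 k) x := fun k => by fun_prop
    have hne : ((x.2.1 i : ℝ) : ℂ) - ((x.2.1 j : ℝ) : ℂ) ≠ 0 := by
      rw [sub_ne_zero]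
      intro h0
      exact h (hx (by exact_mod_cast h0))
    simp only [div_eq_mul_inv]
    exact (((hp i).mul (hof2 j)).sub ((hof2 i).mul (hp j))).mul (((hof i).sub (hof j)).inv hne)

theorem CD_Phi (x : E n) (hx : (1 + Kmat x.1).det ≠ 0) (hx2 : Function.Injective x.2.1) :
    CD (fun y : E n => Phi y.1 y.2.1 y.2.2.1 y.2.2.2.1 y.2.2.2.2) x := by
  have h1 : CD (fun y : E n => (Pmat y.1).map Complex.ofReal) x := by
    intro i j
    simp only [map_apply]
    exact (Complex.ofRealCLM.contDiff.contDiffAt).comp x (CD_P x hx i j)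
  unfold Phi
  exact (h1.mul (CD_N x hx2)).mul h1.transpose

/-- the map to the target space -/
noncomputable def Psi (y : E n) : F n := fun p => Phi y.1 y.2.1 y.2.2.1 y.2.2.2.1 y.2.2.2.2 p.1.1 p.1.2

theorem dense_compl (hn : Module.finrank ℝ (E n) < Module.finrank ℝ (F n)) :
    Dense (Psi '' {x : E n | (1 + Kmat x.1).det ≠ 0 ∧ Function.Injective x.2.1})ᶜ := by
  apply dense_compl_of_dimH_lt_finrank
  have h1 : dimH (Psi '' {x : E n | (1 + Kmat x.1).det ≠ 0 ∧ Function.Injective x.2.1}) ≤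
      dimH {x : E n | (1 + Kmat x.1).det ≠ 0 ∧ Function.Injective x.2.1} := by
    apply dimH_image_le_of_locally_lipschitzOn
    rintro x ⟨hx, hx2⟩
    have h2 : ContDiffAt ℝ 1 (Psi (n := n)) x := by
      rw [contDiffAt_pi]
      intro p
      exact CD_Phi x hx hx2 _ _
    obtain ⟨K, s, hs, hK⟩ := h2.exists_lipschitzOnWith
    exact ⟨K, s, mem_nhdsWithin_of_mem_nhds hs, hK⟩
  refine lt_of_le_of_lt (h1.trans (dimH_mono (Set.subset_univ _))) ?_
  rw [Real.dimH_univ_eq_finrank]
  exact_mod_cast hn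

theorem finrank_lt : Module.finrank ℝ (E 10) < Module.finrank ℝ (F 10) := by
  have h1 : Fintype.card {p : Fin 10 × Fin 10 // p.1 < p.2} = 45 := by decide
  have h2 : Fintype.card {p : Fin 10 × Fin 10 // p.1 ≤ p.2} = 55 := by decide
  have h3 : ∀ (ι : Type) [Fintype ι], Module.finrank ℝ (ι → ℂ) = Fintype.card ι * 2 := by
    intro ι _
    rw [Module.finrank_pi_fintype]
    simp [Complex.finrank_real_complex]
  rw [h3, h2]
  simp only [E, Module.finrank_prod, h3, Module.finrank_fintype_fun_eq_card, h1, Fintype.card_fin]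
  norm_num

end Pool.Agent.H612R3.Tto
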