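import Pool.Agent.H612R3.Tto5

set_option autoImplicit false
open Matrix Topology

namespace Pool.Agent.H612R3.Tto

variable {n : ℕ}

/-- symmetric matrix from its upper triangular part -/
def sym (f : F n) : Matrix (Fin n) (Fin n) ℂ :=
  Matrix.of fun i j => if h : i ≤ j then f ⟨(i, j), h⟩ else f ⟨(j, i), (not_le.1 h).le⟩

theorem sym_symm (f : F n) : (sym f)ᵀ = sym f := by
  ext i j
  simp only [sym, transpose_apply, of_apply]
  rcases lt_trichotomy i j with h | h | h
  · rw [dif_neg (not_le.2 h), dif_pos h.le]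
  · subst h; rfl
  · rw [dif_pos h.le, dif_neg (not_le.2 h)]

theorem sym_apply_le (f : F n) (p : {p : Fin n × Fin n // p.1 ≤ p.2}) : sym f p.1.1 p.1.2 = f p := by
  simp only [sym, of_apply]
  rw [dif_pos p.2]

theorem sym_of_symm (M : Matrix (Fin n) (Fin n) ℂ) (hM : Mᵀ = M) : sym (fun p => M p.1.1 p.1.2) = M := by
  ext i j
  simp only [sym, of_apply]
  by_cases h : i ≤ j
  · rw [dif_pos h]
  · rw [dif_neg h]
    exact congrFun (congrFun hM i) j

theorem continuous_sym_apply (i j : Fin n) : Continuous fun f : F n => sym f i j := by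
  simp only [sym, of_apply]
  by_cases h : i ≤ j
  · simp only [dif_pos h]; fun_prop
  · simp only [dif_neg h]; fun_prop

/-- unit vectors -/
def S (n : ℕ) : Set (Fin n → ℂ) := {x | star x ⬝ᵥ x = 1}

theorem continuous_dot {X : Type} [TopologicalSpace X] {a b : X → Fin n → ℂ} (ha : Continuous a) (hb : Continuous b) :
    Continuous fun x => star (a x) ⬝ᵥ b x := by
  unfold dotProduct
  apply continuous_finsetSum
  intro i _
  exact ((continuous_apply i).comp ha).star.mul ((continuous_apply i).comp hb)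

theorem compact_S : IsCompact (S n) := by
  apply Metric.isCompact_of_isClosed_isBounded
  · exact isClosed_eq (continuous_dot continuous_id continuous_id) continuous_const
  · rw [isBounded_iff_forall_norm_le]
    refine ⟨1, fun x hx => ?_⟩
    rw [pi_norm_le_iff_of_nonneg zero_le_one]
    intro i
    have h1 : ∑ j, ‖x j‖ ^ 2 = 1 := by
      have h2 : star x ⬝ᵥ x = ((∑ j, ‖x j‖ ^ 2 : ℝ) : ℂ) := by
        unfold dotProduct
        push_cast
        apply Finset.sum_congr rfl
        intro j _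
        rw [Pi.star_apply, Complex.star_def, Complex.conj_mul']
      have h3 : star x ⬝ᵥ x = 1 := hx
      rw [h2] at h3
      exact_mod_cast h3
    have h4 : ‖x i‖ ^ 2 ≤ 1 := by
      rw [← h1]
      exact Finset.single_le_sum (f := fun j => ‖x j‖ ^ 2) (fun j _ => by positivity) (Finset.mem_univ i)
    exact (sq_le_one_iff₀ (norm_nonneg _)).1 h4

theorem isOpen_noOrth : IsOpen {f : F n | NoOrth (sym f)} := by
  have hcs : CompactSpace (S n) := isCompact_iff_compactSpace.1 compact_S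
  let C : Set (F n × (S n × S n)) := {q | star (q.2.1 : Fin n → ℂ) ⬝ᵥ (q.2.2 : Fin n → ℂ) = 0 ∧
    sym q.1 *ᵥ (q.2.1 : Fin n → ℂ) = (star (q.2.1 : Fin n → ℂ) ⬝ᵥ (sym q.1 *ᵥ (q.2.1 : Fin n → ℂ))) • (q.2.1 : Fin n → ℂ) ∧
    sym q.1 *ᵥ (q.2.2 : Fin n → ℂ) = (star (q.2.2 : Fin n → ℂ) ⬝ᵥ (sym q.1 *ᵥ (q.2.2 : Fin n → ℂ))) • (q.2.2 : Fin n → ℂ)}
  have c1 : Continuous fun q : F n × (S n × S n) => (q.2.1 : Fin n → ℂ) := by fun_prop
  have c2 : Continuous fun q : F n × (S n × S n) => (q.2.2 : Fin n → ℂ) := by fun_prop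
  have cm : ∀ {a : F n × (S n × S n) → Fin n → ℂ}, Continuous a → Continuous fun q => sym q.1 *ᵥ a q := by
    intro a ha
    apply continuous_pi
    intro i
    simp only [mulVec, dotProduct]
    apply continuous_finsetSum
    intro j _
    exact ((continuous_sym_apply i j).comp continuous_fst).mul ((continuous_apply j).comp ha)
  have hC : IsClosed C := by
    apply IsClosed.and
    · exact isClosed_eq (continuous_dot c1 c2) continuous_const
    · apply IsClosed.and
      · exact isClosed_eq (cm c1) ((continuous_dot c1 (cm c1)).smul c1)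
      · exact isClosed_eq (cm c2) ((continuous_dot c2 (cm c2)).smul c2)
  have hproj : IsClosed (Prod.fst '' C) := isClosedMap_fst_of_compactSpace C hC
  have heq : {f : F n | NoOrth (sym f)} = (Prod.fst '' C)ᶜ := by
    ext f
    show NoOrth (sym f) ↔ ¬ (f ∈ Prod.fst '' C)
    unfold NoOrth
    rw [not_iff_not]
    constructor
    · rintro ⟨x, y, a, b, hx, hy, hMx, hMy, hxy⟩
      have hnorm : ∀ (x : Fin n → ℂ), x ≠ 0 → ∃ c : ℂ, c ≠ 0 ∧ star (c • x) ⬝ᵥ (c • x) = 1 := by
        intro x hx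
        have h1 : 0 < ∑ j, ‖x j‖ ^ 2 := by
          obtain ⟨i, hi⟩ := Function.ne_iff.1 hx
          apply Finset.sum_pos' (fun j _ => by positivity)
          refine ⟨i, Finset.mem_univ i, ?_⟩
          have : 0 < ‖x i‖ := norm_pos_iff.2 hi
          positivity
        have h2 : star x ⬝ᵥ x = ((∑ j, ‖x j‖ ^ 2 : ℝ) : ℂ) := by
          unfold dotProduct
          push_cast
          apply Finset.sum_congr rfl
          intro j _
          rw [Pi.star_apply, Complex.star_def, Complex.conj_mul']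
        refine ⟨((Real.sqrt (∑ j, ‖x j‖ ^ 2))⁻¹ : ℝ), ?_, ?_⟩
        · have : 0 < Real.sqrt (∑ j, ‖x j‖ ^ 2) := Real.sqrt_pos.2 h1
          exact_mod_cast (inv_pos.2 this).ne'
        · rw [star_smul, smul_dotProduct, dotProduct_smul, smul_eq_mul, smul_eq_mul, h2,
            Complex.star_def, Complex.conj_ofReal, ← Complex.ofReal_mul, ← Complex.ofReal_mul]
          rw [show (1:ℂ) = ((1:ℝ):ℂ) by norm_num]
          congr 1
          have h3 := Real.sq_sqrt h1.le
          have h4 : Real.sqrt (∑ j, ‖x j‖ ^ 2) ≠ 0 := (Real.sqrt_pos.2 h1).ne'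
          field_simp
          exact h3.symm
      obtain ⟨c, hc, hcx⟩ := hnorm x hx
      obtain ⟨d, hd, hdy⟩ := hnorm y hy
      refine ⟨(f, (⟨c • x, hcx⟩, ⟨d • y, hdy⟩)), ⟨?_, ?_, ?_⟩, rfl⟩
      · simp only [star_smul, smul_dotProduct, dotProduct_smul, hxy, smul_zero]
      · simp only
        rw [mulVec_smul, hMx, smul_comm c a, dotProduct_smul, hcx, smul_eq_mul, mul_one]
      · simp only
        rw [mulVec_smul, hMy, smul_comm d b, dotProduct_smul, hdy, smul_eq_mul, mul_one]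
    · rintro ⟨⟨f', ⟨x, hx⟩, ⟨y, hy⟩⟩, ⟨h1, h2, h3⟩, rfl⟩
      have hne : ∀ x : Fin n → ℂ, x ∈ S n → x ≠ 0 := by
        intro x hx h0
        have : star x ⬝ᵥ x = 1 := hx
        rw [h0] at this
        simp at this
      exact ⟨x, y, _, _, hne x hx, hne y hy, h2, h3, h1⟩
  rw [heq]
  exact hproj.isOpen_compl

/-- nilpotent Jordan block -/
def Jm (n : ℕ) : Matrix (Fin n) (Fin n) ℂ := Matrix.of fun i j => if (i : ℕ) + 1 = j then 1 else 0

/-- reversal -/
def Rm (n : ℕ) : Matrix (Fin n) (Fin n) ℂ := Matrix.of fun i j => if i.rev = j then 1 else 0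

theorem R_mul (A : Matrix (Fin n) (Fin n) ℂ) : Rm n * A = Matrix.of fun i j => A i.rev j := by
  ext i j
  simp [Matrix.mul_apply, Rm]

theorem mul_R (A : Matrix (Fin n) (Fin n) ℂ) : A * Rm n = Matrix.of fun i j => A i j.rev := by
  ext i j
  simp only [Matrix.mul_apply, Rm, of_apply, mul_ite, mul_one, mul_zero]
  have : ∀ k : Fin n, (k.rev = j) ↔ (k = j.rev) := fun k => by
    constructor
    · rintro rfl; simp
    · rintro rfl; simp
  simp [this]

theorem R_R : Rm n * Rm n = 1 := by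
  rw [R_mul]
  ext i j
  simp only [Rm, of_apply, Fin.rev_rev, Matrix.one_apply]

theorem R_T : (Rm n)ᵀ = Rm n := by
  ext i j
  simp only [Rm, transpose_apply, of_apply]
  have : (j.rev = i) ↔ (i.rev = j) := by
    constructor
    · rintro rfl; simp
    · rintro rfl; simp
  simp [this]

theorem R_H : (Rm n)ᴴ = Rm n := by
  have : (Rm n)ᴴ = (Rm n)ᵀ := by
    ext i j
    simp only [Rm, conjTranspose_apply, transpose_apply, of_apply]
    split_ifs <;> simp
  rw [this, R_T]

theorem R_J_R : Rm n * Jm n * Rm n = (Jm n)ᵀ := by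
  rw [mul_R, R_mul]
  ext i j
  simp only [Jm, of_apply, transpose_apply, Fin.val_rev]
  have hi := i.2
  have hj := j.2
  have : (n - (↑i + 1) + 1 = n - (↑j + 1)) ↔ ((j : ℕ) + 1 = i) := by omega
  simp [this]

/-- a symmetric matrix unitarily similar to a Jordan block (times 4) -/
def M0 (n : ℕ) : Matrix (Fin n) (Fin n) ℂ := (1 + Complex.I • Rm n) * Jm n * (1 - Complex.I • Rm n)

theorem M0_symm : (M0 n)ᵀ = M0 n := by
  unfold M0
  rw [transpose_mul, transpose_mul, transpose_sub, transpose_add, transpose_smul, transpose_one, R_T, ← R_J_R]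
  have h1 : (1 - Complex.I • Rm n) * Rm n = (-Complex.I) • (1 + Complex.I • Rm n) := by
    rw [sub_mul, one_mul, smul_mul_assoc, R_R, smul_add, smul_smul,
      show -Complex.I * Complex.I = 1 by rw [neg_mul, Complex.I_mul_I, neg_neg], one_smul]
    module
  have h2 : Rm n * (1 + Complex.I • Rm n) = Complex.I • (1 - Complex.I • Rm n) := by
    rw [mul_add, mul_one, mul_smul_comm, R_R, smul_sub, smul_smul, Complex.I_mul_I]
    module
  calc (1 - Complex.I • Rm n) * (Rm n * Jm n * Rm n * (1 + Complex.I • Rm n)) =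
      ((1 - Complex.I • Rm n) * Rm n) * Jm n * (Rm n * (1 + Complex.I • Rm n)) := by simp only [mul_assoc]
    _ = _ := by
      rw [h1, h2, smul_mul_assoc, smul_mul_assoc, mul_smul_comm, smul_smul,
        show -Complex.I * Complex.I = 1 by rw [neg_mul, Complex.I_mul_I, neg_neg], one_smul]

theorem J_eig (hn : 0 < n) (z : Fin n → ℂ) (c : ℂ) (hz : z ≠ 0) (h : Jm n *ᵥ z = c • z) :
    z ⟨0, hn⟩ ≠ 0 ∧ ∀ i : Fin n, (i : ℕ) ≠ 0 → z i = 0 := by
  have hJ : ∀ i : Fin n, (Jm n *ᵥ z) i = if h : (i : ℕ) + 1 < n then z ⟨(i : ℕ) + 1, h⟩ else 0 := by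
    intro i
    simp only [mulVec, dotProduct, Jm, of_apply, ite_mul, one_mul, zero_mul]
    by_cases hi : (i : ℕ) + 1 < n
    · rw [dif_pos hi]
      rw [Finset.sum_eq_single ⟨(i : ℕ) + 1, hi⟩]
      · simp
      · intro b _ hb
        rw [if_neg]
        intro h0
        exact hb (Fin.ext h0.symm)
      · intro h0
        exact absurd (Finset.mem_univ _) h0
    · rw [dif_neg hi]
      apply Finset.sum_eq_zero
      intro j _
      rw [if_neg]
      have := j.2
      omega
  have hc : c = 0 := by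
    by_contra hc
    apply hz
    have hall : ∀ m : ℕ, ∀ i : Fin n, (i : ℕ) + 1 + m = n → z i = 0 := by
      intro m
      induction m with
      | zero =>
        intro i hi
        have h1 := congrFun h i
        rw [hJ, dif_neg (by omega), Pi.smul_apply, smul_eq_mul] at h1
        exact (mul_eq_zero.1 h1.symm).resolve_left hc
      | succ m ih =>
        intro i hi
        have h1 := congrFun h i
        rw [hJ, dif_pos (by omega), Pi.smul_apply, smul_eq_mul, ih ⟨(i : ℕ) + 1, by omega⟩ (by simp; omega)] at h1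
        exact (mul_eq_zero.1 h1.symm).resolve_left hc
    funext i
    exact hall (n - 1 - i) i (by omega)
  have h2 : ∀ i : Fin n, (i : ℕ) ≠ 0 → z i = 0 := by
    intro i hi
    have h1 := congrFun h ⟨(i : ℕ) - 1, by omega⟩
    rw [hJ, hc, zero_smul, Pi.zero_apply] at h1
    have h3 : (((⟨(i : ℕ) - 1, by omega⟩ : Fin n) : ℕ)) + 1 < n := by simp; omega
    rw [dif_pos h3] at h1
    have h4 : (⟨((⟨(i : ℕ) - 1, by omega⟩ : Fin n) : ℕ) + 1, h3⟩ : Fin n) = i := by
      apply Fin.ext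
      simp
      omega
    rw [h4] at h1
    exact h1
  refine ⟨?_, h2⟩
  intro h0
  apply hz
  funext i
  by_cases hi : (i : ℕ) = 0
  · have : i = ⟨0, hn⟩ := Fin.ext hi
    rw [this, h0]; rfl
  · exact h2 i hi

theorem M0_noOrth (hn : 0 < n) : NoOrth (M0 n) := by
  rintro ⟨x, y, a, b, hx, hy, hMx, hMy, hxy⟩
  have hB1 : (1 - Complex.I • Rm n) * (1 + Complex.I • Rm n) = (2:ℂ) • 1 := by
    rw [sub_mul, one_mul, smul_mul_assoc, mul_add, mul_one, mul_smul_comm, R_R, smul_add, smul_smul, Complex.I_mul_I]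
    module
  have hB2 : (1 + Complex.I • Rm n) * (1 - Complex.I • Rm n) = (2:ℂ) • 1 := by
    rw [add_mul, one_mul, smul_mul_assoc, mul_sub, mul_one, mul_smul_comm, R_R, smul_sub, smul_smul, Complex.I_mul_I]
    module
  have key : ∀ (x : Fin n → ℂ) (a : ℂ), x ≠ 0 → M0 n *ᵥ x = a • x →
      ((1 - Complex.I • Rm n) *ᵥ x) ⟨0, hn⟩ ≠ 0 ∧ ∀ i : Fin n, (i : ℕ) ≠ 0 → ((1 - Complex.I • Rm n) *ᵥ x) i = 0 := by
    intro x a hx h
    apply J_eig hn _ (a / 2)
    · intro h0
      apply hx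
      have h5 : (1 + Complex.I • Rm n) *ᵥ ((1 - Complex.I • Rm n) *ᵥ x) = 0 := by rw [h0, mulVec_zero]
      rw [mulVec_mulVec, hB2, smul_mulVec, one_mulVec] at h5
      exact (smul_eq_zero.1 h5).resolve_left (by norm_num)
    · have h1 : (1 - Complex.I • Rm n) *ᵥ (M0 n *ᵥ x) = (1 - Complex.I • Rm n) *ᵥ (a • x) := by rw [h]
      rw [mulVec_smul, M0, mulVec_mulVec] at h1
      have h2 : (1 - Complex.I • Rm n) * ((1 + Complex.I • Rm n) * Jm n * (1 - Complex.I • Rm n)) =
          (2:ℂ) • (Jm n * (1 - Complex.I • Rm n)) := by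
        calc _ = ((1 - Complex.I • Rm n) * (1 + Complex.I • Rm n)) * (Jm n * (1 - Complex.I • Rm n)) := by simp only [mul_assoc]
          _ = _ := by rw [hB1, smul_mul_assoc, one_mul]
      rw [h2, smul_mulVec, ← mulVec_mulVec] at h1
      rw [show a / 2 = (2:ℂ)⁻¹ * a by ring, ← smul_smul, ← h1, smul_smul, inv_mul_cancel₀ (by norm_num), one_smul]
  obtain ⟨hx0, hx1⟩ := key x a hx hMx
  obtain ⟨hy0, hy1⟩ := key y b hy hMy
  have h3 : star ((1 - Complex.I • Rm n) *ᵥ x) ⬝ᵥ ((1 - Complex.I • Rm n) *ᵥ y) = 0 := by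
    rw [star_mulVec, ← dotProduct_mulVec, mulVec_mulVec]
    have : (1 - Complex.I • Rm n)ᴴ = 1 + Complex.I • Rm n := by
      rw [conjTranspose_sub, conjTranspose_one, conjTranspose_smul, R_H]
      simp only [Complex.star_def, Complex.conj_I]
      module
    rw [this, hB2, smul_mulVec, one_mulVec, dotProduct_smul, hxy, smul_zero]
  unfold dotProduct at h3
  rw [Finset.sum_eq_single ⟨0, hn⟩] at h3
  · rw [Pi.star_apply] at h3
    rcases mul_eq_zero.1 h3 with h4 | h4
    · exact hx0 (star_eq_zero.1 h4)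
    · exact hy0 h4
  · intro i _ hi
    rw [hy1 i (fun h0 => hi (Fin.ext h0)), mul_zero]
  · intro h0
    exact absurd (Finset.mem_univ _) h0

theorem main : ∃ M : Matrix (Fin 10) (Fin 10) ℂ, Mᵀ = M ∧ NoOrth M ∧
    ¬ ∃ T : Matrix (Fin 10) (Fin 10) ℂ, ∃ k u v : Fin 10 → ℂ,
        1 - T * Tᴴ = Matrix.vecMulVec k (star k) ∧
        (∀ μ : ℂ, ∀ x : Fin 10 → ℂ, x ≠ 0 → T *ᵥ x = μ • x → ‖μ‖ < 1) ∧
        M - T * M * Tᴴ = Matrix.vecMulVec u (star k) + Matrix.vecMulVec k (star v) := by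
  have hd := dense_compl finrank_lt
  have hne : {f : F 10 | NoOrth (sym f)}.Nonempty := by
    refine ⟨fun p => M0 10 p.1.1 p.1.2, ?_⟩
    rw [Set.mem_ofPred_eq, sym_of_symm _ M0_symm]
    exact M0_noOrth (by norm_num)
  obtain ⟨f, hf, hf2⟩ := hd.inter_open_nonempty _ isOpen_noOrth hne
  refine ⟨sym f, sym_symm f, hf, ?_⟩
  rintro ⟨T, k, u, v, h1, h2, h3⟩
  obtain ⟨a, t, κ, p, d, hdet, ht, hM⟩ := exists_param (by norm_num) (sym f) T k u v (sym_symm f) hf h1 h2 h3
  apply hf2
  refine ⟨(a, t, κ, p, d), ⟨hdet, ht⟩, ?_⟩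
  funext q
  have := sym_apply_le f q
  rw [← this, hM]
  rfl

end Pool.Agent.H612R3.Tto
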