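import Mathlib

set_option autoImplicit false
open Filter Topology Complex MeasureTheory
open scoped InnerProductSpace

namespace Pool.Agent.H612R3.Wave

variable {H : Type} [NormedAddCommGroup H] [InnerProductSpace ℂ H] [CompleteSpace H]

/-- `exp (i (σ.re A₁ + σ.im A₂))` -/
noncomputable def U (A₁ A₂ : H →L[ℂ] H) (σ : ℂ) : H →L[ℂ] H :=
  NormedSpace.exp (((σ.re : ℂ) * Complex.I) • A₁ + ((σ.im : ℂ) * Complex.I) • A₂)

variable {A₁ A₂ B₁ B₂ : H →L[ℂ] H}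

theorem exp_add_comm' {X Y : H →L[ℂ] H} (h : Commute X Y) :
    NormedSpace.exp (X + Y) = NormedSpace.exp X * NormedSpace.exp Y := by
  let +nondep : NormedAlgebra ℚ (H →L[ℂ] H) := .restrictScalars ℚ ℂ _
  exact NormedSpace.exp_add_of_commute h

theorem U_add (hc : Commute A₁ A₂) (σ τ : ℂ) : U A₁ A₂ (σ + τ) = U A₁ A₂ σ * U A₁ A₂ τ := by
  unfold U
  rw [← exp_add_comm']
  · congr 1
    simp only [add_re, add_im, ofReal_add, add_mul, add_smul]
    abel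
  · apply Commute.add_left <;> apply Commute.add_right
    · exact ((Commute.refl A₁).smul_left _).smul_right _
    · exact (hc.smul_left _).smul_right _
    · exact (hc.symm.smul_left _).smul_right _
    · exact ((Commute.refl A₂).smul_left _).smul_right _

theorem U_zero : U A₁ A₂ 0 = 1 := by
  unfold U
  simp

theorem U_star (h1 : IsSelfAdjoint A₁) (h2 : IsSelfAdjoint A₂) (σ : ℂ) :
    star (U A₁ A₂ σ) = U A₁ A₂ (-σ) := by
  unfold U
  rw [NormedSpace.star_exp]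
  congr 1
  rw [star_add, star_smul, star_smul, h1.star_eq, h2.star_eq]
  simp

theorem U_neg_mul (hc : Commute A₁ A₂) (σ : ℂ) : U A₁ A₂ (-σ) * U A₁ A₂ σ = 1 := by
  rw [← U_add hc, neg_add_cancel, U_zero]

theorem U_inner_left (h1 : IsSelfAdjoint A₁) (h2 : IsSelfAdjoint A₂) (σ : ℂ) (x y : H) :
    ⟪U A₁ A₂ σ x, y⟫_ℂ = ⟪x, U A₁ A₂ (-σ) y⟫_ℂ := by
  rw [← U_star h1 h2]
  rw [ContinuousLinearMap.star_eq_adjoint, ContinuousLinearMap.adjoint_inner_right]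

theorem norm_U (h1 : IsSelfAdjoint A₁) (h2 : IsSelfAdjoint A₂) (hc : Commute A₁ A₂) (σ : ℂ)
    (x : H) : ‖U A₁ A₂ σ x‖ = ‖x‖ := by
  have h : ‖U A₁ A₂ σ x‖ ^ 2 = ‖x‖ ^ 2 := by
    have h3 : ⟪U A₁ A₂ σ x, U A₁ A₂ σ x⟫_ℂ = ⟪x, x⟫_ℂ := by
      rw [U_inner_left h1 h2]
      have := congrArg (fun T : H →L[ℂ] H => T x) (U_neg_mul hc σ)
      simp only [mul_apply_eq_comp, one_apply_eq_self] at this
      rw [this]
    rw [inner_self_eq_norm_sq_to_K, inner_self_eq_norm_sq_to_K] at h3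
    exact_mod_cast h3
  exact (sq_eq_sq₀ (norm_nonneg _) (norm_nonneg _)).1 h

theorem continuous_U : Continuous (U A₁ A₂) := by
  let +nondep : NormedAlgebra ℚ (H →L[ℂ] H) := .restrictScalars ℚ ℂ _
  unfold U
  apply NormedSpace.exp_continuous.comp
  fun_prop

theorem norm_U_le (h1 : IsSelfAdjoint A₁) (h2 : IsSelfAdjoint A₂) (hc : Commute A₁ A₂) (σ : ℂ) :
    ‖U A₁ A₂ σ‖ ≤ 1 :=
  ContinuousLinearMap.opNorm_le_bound _ zero_le_one fun x => by rw [norm_U h1 h2 hc, one_mul]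

theorem hasDerivAt_one (A : H →L[ℂ] H) {a : ℝ → ℝ} {a' θ : ℝ} (ha : HasDerivAt a a' θ) :
    HasDerivAt (fun s : ℝ => NormedSpace.exp (((a s : ℂ) * Complex.I) • A))
      (NormedSpace.exp (((a θ : ℂ) * Complex.I) • A) * (((a' : ℂ) * Complex.I) • A)) θ := by
  have h1 := hasDerivAt_exp_smul_const (𝕂 := ℝ) (Complex.I • A) (a θ)
  have h2 := h1.scomp θ ha
  have e : ∀ r : ℝ, r • (Complex.I • A) = ((r : ℂ) * Complex.I) • A := by
    intro r
    rw [mul_smul]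
    rfl
  simp only [Function.comp_def, e] at h2
  refine h2.congr_deriv ?_
  rw [← mul_smul_comm, e]

theorem hasDerivAt_U (hc : Commute A₁ A₂) {a b : ℝ → ℝ} {a' b' θ : ℝ}
    (ha : HasDerivAt a a' θ) (hb : HasDerivAt b b' θ) :
    HasDerivAt (fun s : ℝ => U A₁ A₂ ⟨a s, b s⟩)
      (U A₁ A₂ ⟨a θ, b θ⟩ * (((a' : ℂ) * Complex.I) • A₁ + ((b' : ℂ) * Complex.I) • A₂)) θ := by
  have e : ∀ s : ℝ, U A₁ A₂ ⟨a s, b s⟩ = NormedSpace.exp (((a s : ℂ) * Complex.I) • A₁) *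
      NormedSpace.exp (((b s : ℂ) * Complex.I) • A₂) := by
    intro s
    unfold U
    rw [exp_add_comm']
    exact (hc.smul_left _).smul_right _
  have h := (hasDerivAt_one A₁ ha).mul (hasDerivAt_one A₂ hb)
  simp only [e]
  refine h.congr_deriv ?_
  have hcc : Commute (((a' : ℂ) * Complex.I) • A₁) (NormedSpace.exp (((b θ : ℂ) * Complex.I) • A₂)) := by
    let +nondep : NormedAlgebra ℚ (H →L[ℂ] H) := .restrictScalars ℚ ℂ _
    exact ((hc.smul_left _).smul_right _).exp_right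
  rw [mul_add, mul_assoc, mul_assoc, mul_assoc, hcc.eq]

/-- the cocycle `exp(-iσ·B) exp(iσ·A)` -/
noncomputable def Om (A₁ A₂ B₁ B₂ : H →L[ℂ] H) (σ : ℂ) : H →L[ℂ] H := U B₁ B₂ (-σ) * U A₁ A₂ σ

theorem hasDerivAt_Om (hA : Commute A₁ A₂) (hB : Commute B₁ B₂) {a b : ℝ → ℝ} {a' b' θ : ℝ}
    (ha : HasDerivAt a a' θ) (hb : HasDerivAt b b' θ) (x : H) :
    HasDerivAt (fun s : ℝ => Om A₁ A₂ B₁ B₂ ⟨a s, b s⟩ x)
      (U B₁ B₂ (-⟨a θ, b θ⟩) ((((a' : ℂ) * Complex.I) • (A₁ - B₁) +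
        ((b' : ℂ) * Complex.I) • (A₂ - B₂)) (U A₁ A₂ ⟨a θ, b θ⟩ x))) θ := by
  have h1 := hasDerivAt_U hA ha hb
  have h2 := hasDerivAt_U hB ha.neg hb.neg
  have h3 := h2.mul h1
  have hE : HasFDerivAt (fun T : H →L[ℂ] H => T x)
      ((ContinuousLinearMap.apply ℂ H x).restrictScalars ℝ) 
      (U B₁ B₂ ⟨(-a) θ, (-b) θ⟩ * U A₁ A₂ ⟨a θ, b θ⟩) :=
    ((ContinuousLinearMap.apply ℂ H x).restrictScalars ℝ).hasFDerivAt
  have h4 := hE.comp_hasDerivAt θ h3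
  have hcomm : Commute (U A₁ A₂ ⟨a θ, b θ⟩) (((a' : ℂ) * Complex.I) • A₁ + ((b' : ℂ) * Complex.I) • A₂) := by
    let +nondep : NormedAlgebra ℚ (H →L[ℂ] H) := .restrictScalars ℚ ℂ _
    unfold U
    apply Commute.exp_left
    apply Commute.add_left <;> apply Commute.add_right
    · exact ((Commute.refl A₁).smul_left _).smul_right _
    · exact (hA.smul_left _).smul_right _
    · exact (hA.symm.smul_left _).smul_right _
    · exact ((Commute.refl A₂).smul_left _).smul_right _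
  unfold Om
  refine h4.congr_deriv ?_
  rw [hcomm.eq]
  have e : (-⟨a θ, b θ⟩ : ℂ) = ⟨(-a) θ, (-b) θ⟩ := rfl
  rw [e]
  simp only [ContinuousLinearMap.coe_restrictScalars', ContinuousLinearMap.apply_apply,
    ContinuousLinearMap.add_apply, mul_apply_eq_comp, map_add,
    ContinuousLinearMap.smul_apply, ContinuousLinearMap.sub_apply, map_smul, map_sub, smul_sub,
    ofReal_neg, neg_mul, neg_smul, map_neg, ContinuousLinearMap.neg_apply]
  abel

end Pool.Agent.H612R3.Wave
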