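import Mathlib

set_option autoImplicit false
open Filter Topology Complex MeasureTheory Set
open scoped InnerProductSpace ENNReal

namespace Pool.Agent.H612R3.Wave

/-- the point `t e^{iθ}` -/
noncomputable def pt (t θ : ℝ) : ℂ := ⟨t * Real.cos θ, t * Real.sin θ⟩

theorem pt_eq (p : ℝ × ℝ) : Complex.polarCoord.symm p = pt p.1 p.2 := by
  rw [Complex.polarCoord_symm_apply]
  unfold pt
  apply Complex.ext <;> simp [Complex.cos_ofReal_re, Complex.sin_ofReal_re]

theorem continuous_pt : Continuous (fun p : ℝ × ℝ => pt p.1 p.2) := by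
  have : (fun p : ℝ × ℝ => pt p.1 p.2) = fun p : ℝ × ℝ => (p.1 : ℂ) * (Real.cos p.2 + Real.sin p.2 * Complex.I) := by
    funext p
    rw [← pt_eq, Complex.polarCoord_symm_apply]
  rw [this]
  fun_prop

theorem exists_small (q : ℂ → ℝ) (hq : Continuous q) (hpos : ∀ s, 0 ≤ q s)
    (hfin : ∫⁻ s, ENNReal.ofReal (q s ^ 2) < ∞) (ε : ℝ) (hε : 0 < ε) (T : ℝ) :
    ∃ t : ℝ, T < t ∧ 0 < t ∧ t * ∫ θ in (0:ℝ)..(2 * Real.pi), q (pt t θ) ≤ ε := by
  by_contra hcon
  push Not at hcon
  set T' := max T 1 with hT'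
  have hc : Continuous (fun p : ℝ × ℝ => q (pt p.1 p.2)) := hq.comp continuous_pt
  have hc1 : ∀ t : ℝ, Continuous (fun θ : ℝ => q (pt t θ)) := fun t =>
    hc.comp (by fun_prop : Continuous fun θ : ℝ => ((t, θ) : ℝ × ℝ))
  -- lower bound of the square integral
  have hlow : ∀ t ∈ Ioi T', (ε ^ 2 / (2 * Real.pi)) * t⁻¹ ≤
      t * ∫ θ in (0:ℝ)..(2 * Real.pi), q (pt t θ) ^ 2 := by
    intro t ht
    have ht1 : T < t := lt_of_le_of_lt (le_max_left _ _) ht
    have ht2 : (1:ℝ) < t := lt_of_le_of_lt (le_max_right _ _) ht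
    have ht0 : 0 < t := by linarith
    have h1 := hcon t ht1 ht0
    have hpi := Real.pi_pos
    have h2 : ∫ θ in (0:ℝ)..(2 * Real.pi), q (pt t θ) ≤
        ∫ θ in (0:ℝ)..(2 * Real.pi), (ε / (4 * Real.pi * t) + (Real.pi * t / ε) * q (pt t θ) ^ 2) := by
      apply intervalIntegral.integral_mono_on (by positivity)
      · exact (hc1 t).intervalIntegrable _ _
      · exact (Continuous.intervalIntegrable (continuous_const.add (continuous_const.mul ((hc1 t).pow 2))) _ _)
      · intro θ _
        have hl : 0 < ε / (4 * Real.pi * t) := by positivity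
        have hm : 0 < Real.pi * t / ε := by positivity
        have e : (ε / (4 * Real.pi * t)) * (Real.pi * t / ε) = 1 / 4 := by
          field_simp
        nlinarith [sq_nonneg (2 * (Real.pi * t / ε) * q (pt t θ) - 1), e, hm]
    have hI1 : IntervalIntegrable (fun _ : ℝ => ε / (4 * Real.pi * t)) volume 0 (2 * Real.pi) :=
      continuous_const.intervalIntegrable _ _
    have hI2 : IntervalIntegrable (fun θ : ℝ => Real.pi * t / ε * q (pt t θ) ^ 2) volume 0 (2 * Real.pi) :=
      (continuous_const.mul ((hc1 t).pow 2)).intervalIntegrable _ _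
    rw [intervalIntegral.integral_add hI1 hI2,
      intervalIntegral.integral_const_mul, intervalIntegral.integral_const, smul_eq_mul] at h2
    set J := ∫ θ in (0:ℝ)..(2 * Real.pi), q (pt t θ) ^ 2
    have e1 : (2 * Real.pi - 0) * (ε / (4 * Real.pi * t)) = ε / (2 * t) := by
      field_simp; ring
    rw [e1] at h2
    have h3 : ε < t * (ε / (2 * t) + Real.pi * t / ε * J) := lt_of_lt_of_le h1
      (mul_le_mul_of_nonneg_left h2 ht0.le)
    have e2 : t * (ε / (2 * t) + Real.pi * t / ε * J) = ε / 2 + Real.pi * t ^ 2 / ε * J := by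
      field_simp
    rw [e2] at h3
    have h4 : ε / 2 < Real.pi * t ^ 2 / ε * J := by linarith
    have h5 : ε ^ 2 / (2 * Real.pi) * t⁻¹ = (ε / 2) * (ε / (Real.pi * t)) := by
      field_simp
    rw [h5]
    have h6 : t * J = (Real.pi * t ^ 2 / ε * J) * (ε / (Real.pi * t)) := by
      field_simp
    rw [h6]
    exact mul_le_mul_of_nonneg_right h4.le (by positivity)
  -- periodicity
  have hper : ∀ t : ℝ, ∫ θ in (0:ℝ)..(2 * Real.pi), q (pt t θ) ^ 2 =
      ∫ θ in Ioo (-Real.pi) Real.pi, q (pt t θ) ^ 2 := by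
    intro t
    have hp : Function.Periodic (fun θ => q (pt t θ) ^ 2) (2 * Real.pi) := by
      intro θ
      simp only [pt, Real.cos_add_two_pi, Real.sin_add_two_pi]
    have := hp.intervalIntegral_add_eq 0 (-Real.pi)
    rw [zero_add] at this
    rw [this, show -Real.pi + 2 * Real.pi = Real.pi by ring,
      intervalIntegral.integral_of_le (by linarith [Real.pi_pos]), integral_Ioc_eq_integral_Ioo]
  have key : ∫⁻ t in Ioi T', ENNReal.ofReal ((ε ^ 2 / (2 * Real.pi)) * t⁻¹) < ∞ := by
    refine lt_of_le_of_lt ?_ hfin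
    rw [← Complex.lintegral_comp_polarCoord_symm]
    have hm : Measurable fun p : ℝ × ℝ => ENNReal.ofReal p.1 • ENNReal.ofReal (q (Complex.polarCoord.symm p) ^ 2) := by
      simp only [pt_eq, smul_eq_mul]
      exact (ENNReal.measurable_ofReal.comp measurable_fst).mul
        (ENNReal.measurable_ofReal.comp (hc.pow 2).measurable)
    have e : ∫⁻ p in polarCoord.target, ENNReal.ofReal p.1 •
        ENNReal.ofReal (q (Complex.polarCoord.symm p) ^ 2) =
        ∫⁻ t in Ioi (0:ℝ), ∫⁻ θ in Ioo (-Real.pi) Real.pi, ENNReal.ofReal t * ENNReal.ofReal (q (pt t θ) ^ 2) := by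
      have e1 : polarCoord.target = Ioi (0:ℝ) ×ˢ Ioo (-Real.pi) Real.pi := rfl
      rw [e1, Measure.volume_eq_prod, ← Measure.prod_restrict, lintegral_prod _ hm.aemeasurable]
      simp only [pt_eq, smul_eq_mul]
    rw [e]
    calc ∫⁻ t in Ioi T', ENNReal.ofReal ((ε ^ 2 / (2 * Real.pi)) * t⁻¹)
        ≤ ∫⁻ t in Ioi T', ∫⁻ θ in Ioo (-Real.pi) Real.pi, ENNReal.ofReal t * ENNReal.ofReal (q (pt t θ) ^ 2) := by
          apply setLIntegral_mono' measurableSet_Ioi
          intro t ht
          have ht2 : (1:ℝ) < t := lt_of_le_of_lt (le_max_right _ _) ht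
          rw [lintegral_const_mul]
          · rw [← ofReal_integral_eq_lintegral_ofReal]
            · rw [← ENNReal.ofReal_mul (by linarith), ← hper]
              exact ENNReal.ofReal_le_ofReal (hlow t ht)
            · have h7 := (((hc1 t).pow 2).continuousOn (s := Icc (-Real.pi) Real.pi)).integrableOn_Icc (μ := volume)
              exact h7.mono_set Ioo_subset_Icc_self
            · exact Eventually.of_forall fun θ => sq_nonneg _
          · exact ENNReal.measurable_ofReal.comp ((hc1 t).pow 2).measurable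
      _ ≤ _ := lintegral_mono_set (Ioi_subset_Ioi (le_trans zero_le_one (le_max_right _ _)))
  apply not_integrableOn_Ioi_inv (a := T')
  have h8 : IntegrableOn (fun t : ℝ => (ε ^ 2 / (2 * Real.pi)) * t⁻¹) (Ioi T') := by
    refine ⟨(measurable_const.mul measurable_inv).aestronglyMeasurable, ?_⟩
    rw [hasFiniteIntegral_iff_ofReal]
    · exact key
    · filter_upwards [ae_restrict_mem measurableSet_Ioi] with t ht
      have ht2 : (1:ℝ) < t := lt_of_le_of_lt (le_max_right _ _) ht
      have : 0 < t := by linarith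
      have := Real.pi_pos
      positivity
  have h9 := h8.const_mul ((ε ^ 2 / (2 * Real.pi))⁻¹)
  refine h9.congr ?_
  filter_upwards with t
  have := Real.pi_pos
  field_simp

end Pool.Agent.H612R3.Wave
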