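import Pool.Agent.H612R3.Wave1
import Pool.Agent.H612R3.Wave2

set_option autoImplicit false
open Filter Topology Complex MeasureTheory Set
open scoped InnerProductSpace ENNReal

namespace Pool.Agent.H612R3.Wave

variable {H : Type} [NormedAddCommGroup H] [InnerProductSpace ℂ H] [CompleteSpace H]
variable {A₁ A₂ B₁ B₂ : H →L[ℂ] H}

/-- the integrand -/
noncomputable def qf (A₁ A₂ B₁ B₂ : H →L[ℂ] H) (x : H) (σ : ℂ) : ℝ :=
  ‖(A₁ - B₁) (U A₁ A₂ σ x)‖ + ‖(A₂ - B₂) (U A₁ A₂ σ x)‖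

theorem continuous_Ux (x : H) : Continuous fun σ => U A₁ A₂ σ x :=
  continuous_U.clm_apply continuous_const

theorem continuous_qf (x : H) : Continuous (qf A₁ A₂ B₁ B₂ x) := by
  unfold qf
  have := continuous_Ux (A₁ := A₁) (A₂ := A₂) x
  fun_prop

theorem qf_nonneg (x : H) (σ : ℂ) : 0 ≤ qf A₁ A₂ B₁ B₂ x σ := by unfold qf; positivity

/-- the angular derivative of the cocycle -/
noncomputable def dv (A₁ A₂ B₁ B₂ : H →L[ℂ] H) (x : H) (t θ : ℝ) : H :=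
  U B₁ B₂ (-(pt t θ)) (((((t * (-Real.sin θ) : ℝ) : ℂ) * Complex.I) • (A₁ - B₁) +
    (((t * Real.cos θ : ℝ) : ℂ) * Complex.I) • (A₂ - B₂)) (U A₁ A₂ (pt t θ) x))

theorem norm_Om_sub_le (hA : Commute A₁ A₂) (hB : Commute B₁ B₂) (b1 : IsSelfAdjoint B₁)
    (b2 : IsSelfAdjoint B₂) (x : H) (t : ℝ) (ht : 0 ≤ t) (θ₁ θ₂ : ℝ) (h1 : 0 ≤ θ₁)
    (h12 : θ₁ ≤ θ₂) (h2 : θ₂ ≤ 2 * Real.pi) :
    ‖Om A₁ A₂ B₁ B₂ (pt t θ₂) x - Om A₁ A₂ B₁ B₂ (pt t θ₁) x‖ ≤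
      t * ∫ θ in (0:ℝ)..(2 * Real.pi), qf A₁ A₂ B₁ B₂ x (pt t θ) := by
  have hder : ∀ θ : ℝ, HasDerivAt (fun s : ℝ => Om A₁ A₂ B₁ B₂ (pt t s) x)
      (dv A₁ A₂ B₁ B₂ x t θ) θ := by
    intro θ
    exact hasDerivAt_Om hA hB ((Real.hasDerivAt_cos θ).const_mul t)
      ((Real.hasDerivAt_sin θ).const_mul t) x
  have hpt : Continuous (fun θ => pt t θ) := continuous_pt.comp (by fun_prop : Continuous fun θ : ℝ => ((t, θ) : ℝ × ℝ))
  have hcont : Continuous fun θ : ℝ => dv A₁ A₂ B₁ B₂ x t θ := by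
    have c1 : Continuous fun θ : ℝ => U B₁ B₂ (-(pt t θ)) := continuous_U.comp hpt.neg
    have c2 : Continuous fun θ : ℝ => U A₁ A₂ (pt t θ) x := (continuous_Ux x).comp hpt
    refine c1.clm_apply ?_
    refine Continuous.clm_apply ?_ c2
    fun_prop
  have hFTC := intervalIntegral.integral_eq_sub_of_hasDerivAt (a := θ₁) (b := θ₂)
    (fun θ _ => hder θ) (hcont.intervalIntegrable _ _)
  rw [← hFTC]
  have hq : Continuous fun θ => t * qf A₁ A₂ B₁ B₂ x (pt t θ) :=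
    continuous_const.mul ((continuous_qf x).comp hpt)
  calc ‖∫ θ in θ₁..θ₂, dv A₁ A₂ B₁ B₂ x t θ‖
      ≤ ∫ θ in θ₁..θ₂, t * qf A₁ A₂ B₁ B₂ x (pt t θ) := by
        apply intervalIntegral.norm_integral_le_of_norm_le h12
        · filter_upwards with θ _
          unfold dv
          rw [norm_U b1 b2 hB]
          have e3 : ((((t * (-Real.sin θ) : ℝ) : ℂ) * Complex.I) • (A₁ - B₁) +
            (((t * Real.cos θ : ℝ) : ℂ) * Complex.I) • (A₂ - B₂)) (U A₁ A₂ (pt t θ) x) =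
            (((t * (-Real.sin θ) : ℝ) : ℂ) * Complex.I) • ((A₁ - B₁) (U A₁ A₂ (pt t θ) x)) +
            (((t * Real.cos θ : ℝ) : ℂ) * Complex.I) • ((A₂ - B₂) (U A₁ A₂ (pt t θ) x)) := rfl
          rw [e3]
          refine (norm_add_le _ _).trans ?_
          rw [norm_smul, norm_smul, norm_mul, norm_mul, Complex.norm_I, mul_one, mul_one,
            Complex.norm_real, Complex.norm_real, Real.norm_eq_abs, Real.norm_eq_abs, abs_mul, abs_mul,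
            abs_neg, abs_of_nonneg ht]
          unfold qf
          rw [mul_add]
          gcongr
          · exact mul_le_of_le_one_right ht (Real.abs_sin_le_one θ)
          · exact mul_le_of_le_one_right ht (Real.abs_cos_le_one θ)
        · exact hq.intervalIntegrable _ _
    _ ≤ ∫ θ in (0:ℝ)..(2 * Real.pi), t * qf A₁ A₂ B₁ B₂ x (pt t θ) := by
        apply intervalIntegral.integral_mono_interval h1 h12 h2
        · filter_upwards with θ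
          exact mul_nonneg ht (qf_nonneg x _)
        · exact hq.intervalIntegrable _ _
    _ = _ := by rw [intervalIntegral.integral_const_mul]

theorem limits_eq (hA : Commute A₁ A₂) (hB : Commute B₁ B₂) (b1 : IsSelfAdjoint B₁)
    (b2 : IsSelfAdjoint B₂) (x : H) (hfin : ∫⁻ s, ENNReal.ofReal (qf A₁ A₂ B₁ B₂ x s ^ 2) < ∞)
    (θ₁ θ₂ : ℝ) (h1 : 0 ≤ θ₁) (h1' : θ₁ < 2 * Real.pi) (h2 : 0 ≤ θ₂) (h2' : θ₂ < 2 * Real.pi)
    (w₁ w₂ : H) (hw₁ : Tendsto (fun t : ℝ => Om A₁ A₂ B₁ B₂ (pt t θ₁) x) atTop (𝓝 w₁))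
    (hw₂ : Tendsto (fun t : ℝ => Om A₁ A₂ B₁ B₂ (pt t θ₂) x) atTop (𝓝 w₂)) : w₁ = w₂ := by
  wlog h12 : θ₁ ≤ θ₂ generalizing θ₁ θ₂ w₁ w₂
  · exact (this θ₂ θ₁ h2 h2' h1 h1' w₂ w₁ hw₂ hw₁ (not_le.1 h12).le).symm
  have h3 : Tendsto (fun t : ℝ => ‖Om A₁ A₂ B₁ B₂ (pt t θ₂) x - Om A₁ A₂ B₁ B₂ (pt t θ₁) x‖) atTop
      (𝓝 ‖w₂ - w₁‖) := (hw₂.sub hw₁).norm
  have h4 : ‖w₂ - w₁‖ ≤ 0 := by
    by_contra hcon
    push Not at hcon
    have h5 := h3.eventually (lt_mem_nhds (half_lt_self hcon))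
    obtain ⟨T, hT⟩ := eventually_atTop.1 h5
    obtain ⟨t, ht1, ht2, ht3⟩ := exists_small (qf A₁ A₂ B₁ B₂ x) (continuous_qf x) (qf_nonneg x) hfin
      (‖w₂ - w₁‖ / 2) (half_pos hcon) T
    have h6 := hT t ht1.le
    have h7 := norm_Om_sub_le hA hB b1 b2 x t ht2.le θ₁ θ₂ h1 h12 h2'.le
    linarith
  have h5 := norm_le_zero_iff.1 h4
  exact (sub_eq_zero.1 h5).symm

end Pool.Agent.H612R3.Wave
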