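import Pool.Agent.H612R3.Wave1

set_option autoImplicit false
open Filter Topology Complex MeasureTheory Set
open scoped InnerProductSpace ENNReal FourierTransform SchwartzMap ComplexConjugate

namespace Pool.Agent.H612R3.Wave

variable {H : Type} [NormedAddCommGroup H] [InnerProductSpace ℂ H] [CompleteSpace H]
variable {A₁ A₂ : H →L[ℂ] H}

/-- the character `exp (i (σ.re p.re + σ.im p.im))` -/
noncomputable def ch (σ p : ℂ) : ℂ := Complex.exp (Complex.I * ((σ.re : ℂ) * (p.re : ℂ) + (σ.im : ℂ) * (p.im : ℂ)))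

theorem norm_ch (σ p : ℂ) : ‖ch σ p‖ = 1 := by
  unfold ch
  rw [mul_comm]
  have : ((σ.re : ℂ) * (p.re : ℂ) + (σ.im : ℂ) * (p.im : ℂ)) = ((σ.re * p.re + σ.im * p.im : ℝ) : ℂ) := by
    push_cast; ring
  rw [this, Complex.norm_exp_ofReal_mul_I]

theorem ch_add (σ τ p : ℂ) : ch (σ + τ) p = ch σ p * ch τ p := by
  unfold ch
  rw [← Complex.exp_add]
  congr 1
  simp only [add_re, add_im, ofReal_add]
  ring

theorem ch_neg (σ p : ℂ) : ch (-σ) p = conj (ch σ p) := by
  unfold ch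
  rw [← Complex.exp_conj]
  congr 1
  simp only [neg_re, neg_im, ofReal_neg, map_mul, map_add, Complex.conj_I, Complex.conj_ofReal]
  ring

theorem ch_zero (p : ℂ) : ch 0 p = 1 := by unfold ch; simp

theorem continuous_ch : Continuous fun q : ℂ × ℂ => ch q.1 q.2 := by
  unfold ch
  fun_prop

/-- `⟪z, U σ y⟫` is the Fourier transform of the integrable function `k` -/
def Rep (A₁ A₂ : H →L[ℂ] H) (z y : H) (k : ℂ → ℂ) : Prop :=
  Integrable k ∧ ∀ σ : ℂ, ⟪z, U A₁ A₂ σ y⟫_ℂ = ∫ p, k p * ch σ p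

/-- the Schwartz functional calculus `η(A) y` -/
noncomputable def J (A₁ A₂ : H →L[ℂ] H) (η : 𝓢(ℂ, ℂ)) (y : H) : H :=
  ∫ w : ℂ, (𝓕 η w) • U A₁ A₂ ((2 * Real.pi : ℝ) • w) y

theorem integrable_J (h1 : IsSelfAdjoint A₁) (h2 : IsSelfAdjoint A₂) (hc : Commute A₁ A₂)
    (g : 𝓢(ℂ, ℂ)) (y : H) : Integrable fun w : ℂ => (g w) • U A₁ A₂ ((2 * Real.pi : ℝ) • w) y := by
  have hU : Continuous fun w : ℂ => U A₁ A₂ ((2 * Real.pi : ℝ) • w) y :=
    (continuous_U.comp (continuous_const_smul _)).clm_apply continuous_const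
  refine (g.integrable.norm.mul_const ‖y‖).mono' ?_ ?_
  · exact (g.continuous.smul hU).aestronglyMeasurable
  · filter_upwards with w
    rw [norm_smul, norm_U h1 h2 hc]

theorem Rep.swap (h1 : IsSelfAdjoint A₁) (h2 : IsSelfAdjoint A₂) {z y : H} {k : ℂ → ℂ}
    (h : Rep A₁ A₂ z y k) : Rep A₁ A₂ y z (fun p => conj (k p)) := by
  refine ⟨?_, fun σ => ?_⟩
  · exact (LinearIsometryEquiv.integrable_comp_iff Complex.conjLIE).2 h.1
  · rw [← inner_conj_symm, U_inner_left h1 h2, h.2 (-σ), ← integral_conj]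
    apply integral_congr_ae
    filter_upwards with p
    rw [map_mul, ch_neg, Complex.conj_conj]

theorem Rep.congr {z y : H} {k k' : ℂ → ℂ} (h : Rep A₁ A₂ z y k) (hk : ∀ p, k p = k' p) :
    Rep A₁ A₂ z y k' := by
  have : k = k' := funext hk
  rw [← this]; exact h

theorem Rep.J (h1 : IsSelfAdjoint A₁) (h2 : IsSelfAdjoint A₂) (hc : Commute A₁ A₂)
    {z y : H} {k : ℂ → ℂ} (h : Rep A₁ A₂ z y k) (η : 𝓢(ℂ, ℂ)) :
    Rep A₁ A₂ z (J A₁ A₂ η y) (fun p => k p * η p) := by
  have hη : ∃ C, ∀ p, ‖η p‖ ≤ C := ⟨_, fun p => SchwartzMap.norm_le_seminorm ℝ η p⟩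
  obtain ⟨C, hC⟩ := hη
  refine ⟨h.1.mul_bdd (c := C) η.continuous.aestronglyMeasurable (Eventually.of_forall hC), fun σ => ?_⟩
  have e1 : ⟪z, U A₁ A₂ σ (Wave.J A₁ A₂ η y)⟫_ℂ =
      ∫ w : ℂ, 𝓕 η w * ⟪z, U A₁ A₂ (σ + (2 * Real.pi : ℝ) • w) y⟫_ℂ := by
    have := ContinuousLinearMap.integral_comp_comm ((innerSL ℂ z).comp (U A₁ A₂ σ))
      (integrable_J h1 h2 hc (𝓕 η) y)
    unfold Wave.J
    simp only [ContinuousLinearMap.comp_apply, innerSL_apply_apply] at this
    rw [← this]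
    apply integral_congr_ae
    filter_upwards with w
    rw [map_smul, inner_smul_right, U_add hc]
    rfl
  rw [e1]
  have hF : Integrable (fun w : ℂ => 𝓕 η w) := (𝓕 η).integrable
  have e2 : ∀ w : ℂ, 𝓕 η w * ⟪z, U A₁ A₂ (σ + (2 * Real.pi : ℝ) • w) y⟫_ℂ =
      ∫ p, 𝓕 η w * (k p * ch (σ + (2 * Real.pi : ℝ) • w) p) := by
    intro w
    rw [h.2, integral_const_mul]
  simp_rw [e2]
  rw [integral_integral_swap]
  · apply integral_congr_ae
    filter_upwards with p
    have e3 : ∀ w : ℂ, 𝓕 η w * (k p * ch (σ + (2 * Real.pi : ℝ) • w) p) =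
        (k p * ch σ p) * (ch ((2 * Real.pi : ℝ) • w) p * 𝓕 η w) := by
      intro w
      rw [ch_add]; ring
    simp_rw [e3]
    rw [integral_const_mul]
    have e4 : ∫ w : ℂ, ch ((2 * Real.pi : ℝ) • w) p * 𝓕 η w = η p := by
      have h5 : 𝓕⁻ (𝓕 η) p = η p := by
        rw [FourierTransform.fourierInv_fourier_eq]
      rw [← h5, SchwartzMap.fourierInv_coe, Real.fourierInv_eq']
      apply integral_congr_ae
      filter_upwards with w
      rw [smul_eq_mul]
      congr 1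
      unfold ch
      congr 1
      simp only [Complex.smul_re, Complex.smul_im, smul_eq_mul, Complex.inner, map_mul]
      simp
      ring
    rw [e4]
    ring
  · have h6 := hF.mul_prod h.1
    refine h6.mono ?_ ?_
    · have hm := h6.aestronglyMeasurable
      have hc2 : Continuous fun q : ℂ × ℂ => ch (σ + (2 * Real.pi : ℝ) • q.1) q.2 :=
        continuous_ch.comp (by fun_prop : Continuous fun q : ℂ × ℂ => (σ + (2 * Real.pi : ℝ) • q.1, q.2))
      have := hm.mul hc2.aestronglyMeasurable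
      refine this.congr ?_
      filter_upwards with q
      simp only [Function.uncurry, Pi.mul_apply]
      ring
    · filter_upwards with q
      simp only [Function.uncurry, norm_mul, norm_ch, mul_one]
      exact le_refl _

end Pool.Agent.H612R3.Wave
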