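import Pool.Agent.H612R3.Wave4

set_option autoImplicit false
open Filter Topology Complex MeasureTheory Set
open scoped InnerProductSpace ENNReal FourierTransform SchwartzMap ComplexConjugate NNReal

namespace Pool.Agent.H612R3.Wave

variable {H : Type} [NormedAddCommGroup H] [InnerProductSpace ℂ H] [CompleteSpace H]
variable {A₁ A₂ : H →L[ℂ] H}

theorem Rep.congr_ae {z y : H} {k k' : ℂ → ℂ} (h : Rep A₁ A₂ z y k) (hk : k =ᵐ[volume] k') :
    Rep A₁ A₂ z y k' := by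
  refine ⟨h.1.congr hk, fun σ => ?_⟩
  rw [h.2 σ]
  apply integral_congr_ae
  filter_upwards [hk] with p hp
  rw [hp]

theorem integrable_mul_ch {k : ℂ → ℂ} (hk : Integrable k) (σ : ℂ) : Integrable fun p => k p * ch σ p := by
  refine hk.mul_bdd (c := 1) ?_ (Eventually.of_forall fun p => (norm_ch σ p).le)
  exact (continuous_ch.comp (by fun_prop : Continuous fun p : ℂ => ((σ, p) : ℂ × ℂ))).aestronglyMeasurable

theorem Rep.sub {z y y' : H} {k k' : ℂ → ℂ} (h : Rep A₁ A₂ z y k) (h' : Rep A₁ A₂ z y' k') :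
    Rep A₁ A₂ z (y - y') (fun p => k p - k' p) := by
  refine ⟨h.1.sub h'.1, fun σ => ?_⟩
  rw [map_sub, inner_sub_right, h.2, h'.2, ← integral_sub (integrable_mul_ch h.1 σ) (integrable_mul_ch h'.1 σ)]
  apply integral_congr_ae
  filter_upwards with p
  ring

/-- real-valued measurable density -/
theorem Rep.real (h1 : IsSelfAdjoint A₁) (h2 : IsSelfAdjoint A₂) {x : H} {f : ℂ → ℂ}
    (h : Rep A₁ A₂ x x f) : ∃ r : ℂ → ℝ, Measurable r ∧ Rep A₁ A₂ x x (fun p => (r p : ℂ)) := by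
  have h3 := h.swap h1 h2
  have h4 : Rep A₁ A₂ x x (fun p => (((f p).re : ℝ) : ℂ)) := by
    refine ⟨?_, fun σ => ?_⟩
    · exact h.1.re.ofReal
    · have e : ⟪x, U A₁ A₂ σ x⟫_ℂ = (⟪x, U A₁ A₂ σ x⟫_ℂ + ⟪x, U A₁ A₂ σ x⟫_ℂ) / 2 := by ring
      rw [e]
      nth_rewrite 1 [h.2 σ]
      rw [h3.2 σ, ← integral_add (integrable_mul_ch h.1 σ) (integrable_mul_ch h3.1 σ), ← integral_div]
      apply integral_congr_ae
      filter_upwards with p
      rw [← add_mul, Complex.add_conj]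
      push_cast
      ring
  have h5 : AEMeasurable (fun p => (f p).re) volume := h.1.re.aemeasurable
  refine ⟨h5.mk _, h5.measurable_mk, h4.congr_ae ?_⟩
  filter_upwards [h5.ae_eq_mk] with p hp
  rw [← hp]

/-- the finite measure with density `|r|` -/
noncomputable def mu (r : ℂ → ℝ) : Measure ℂ := volume.withDensity fun p => ‖r p‖ₑ

theorem finite_mu {r : ℂ → ℝ} (h : Integrable fun p => (r p : ℂ)) : IsFiniteMeasure (mu r) := by
  unfold mu
  apply isFiniteMeasure_withDensity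
  have h1 := h.hasFiniteIntegral
  unfold HasFiniteIntegral at h1
  have : ∀ p, ‖r p‖ₑ = ‖(r p : ℂ)‖ₑ := by
    intro p
    rw [← ofReal_norm, ← ofReal_norm, Complex.norm_real]
  simp_rw [this]
  exact h1.ne

theorem eLpNorm_mu_sq {r : ℂ → ℝ} (hr : Measurable r) {g : ℂ → ℂ} (hg : Measurable g) :
    eLpNorm g 2 (mu r) ^ 2 = ∫⁻ p, ‖r p‖ₑ * ‖g p‖ₑ ^ 2 := by
  have h1 := eLpNorm_nnreal_pow_eq_lintegral (f := g) (μ := mu r) (p := 2) (by norm_num)
  have e : ((2 : ℝ≥0) : ℝ) = ((2 : ℕ) : ℝ) := by norm_num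
  rw [e] at h1
  simp only [ENNReal.rpow_natCast] at h1
  have e2 : ((2 : ℝ≥0) : ℝ≥0∞) = 2 := by norm_num
  rw [e2] at h1
  rw [h1, mu, lintegral_withDensity_eq_lintegral_mul _ hr.enorm (hg.enorm.pow_const 2)]
  rfl

theorem enorm_sq_le {y : H} {k : ℂ → ℂ} (h : Rep A₁ A₂ y y k) : ‖y‖ₑ ^ 2 ≤ ∫⁻ p, ‖k p‖ₑ := by
  have h1 := h.2 0
  rw [U_zero, one_apply_eq_self, inner_self_eq_norm_sq_to_K] at h1
  have h2 : ‖y‖ₑ ^ 2 = ‖((‖y‖ : ℂ) ^ 2)‖ₑ := by
    rw [enorm_pow, ← ofReal_norm (‖y‖ : ℂ), Complex.norm_real, norm_norm, ofReal_norm]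
  rw [h2]
  have h3 : ((‖y‖ : ℂ) ^ 2) = ∫ p, k p * ch 0 p := h1
  rw [h3]
  refine (enorm_integral_le_lintegral_enorm _).trans ?_
  apply le_of_eq
  apply lintegral_congr
  intro p
  rw [ch_zero, mul_one]

theorem enorm_le_of_rep {y : H} {k : ℂ → ℂ} (h : Rep A₁ A₂ y y k) {r : ℂ → ℝ} (hr : Measurable r)
    {g : ℂ → ℂ} (hg : Measurable g) (hk : ∀ p, ‖k p‖ ≤ |r p| * ‖g p‖ ^ 2) :
    ‖y‖ₑ ≤ eLpNorm g 2 (mu r) := by
  have h1 : ‖y‖ₑ ^ 2 ≤ eLpNorm g 2 (mu r) ^ 2 := by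
    rw [eLpNorm_mu_sq hr hg]
    refine (enorm_sq_le h).trans ?_
    apply lintegral_mono
    intro p
    beta_reduce
    rw [← ofReal_norm, ← ofReal_norm, ← ofReal_norm, ← ENNReal.ofReal_pow (norm_nonneg _),
      ← ENNReal.ofReal_mul (norm_nonneg _), Real.norm_eq_abs]
    exact ENNReal.ofReal_le_ofReal (hk p)
  exact (ENNReal.pow_le_pow_left_iff (by norm_num)).1 h1

theorem Rep.JJ (h1 : IsSelfAdjoint A₁) (h2 : IsSelfAdjoint A₂) (hc : Commute A₁ A₂)
    {x : H} {k : ℂ → ℂ} (h : Rep A₁ A₂ x x k) (η : 𝓢(ℂ, ℂ)) :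
    Rep A₁ A₂ (Wave.J A₁ A₂ η x) (Wave.J A₁ A₂ η x) (fun p => conj (k p * η p) * η p) :=
  ((h.J h1 h2 hc η).swap h1 h2).J h1 h2 hc η

theorem enorm_J_le (h1 : IsSelfAdjoint A₁) (h2 : IsSelfAdjoint A₂) (hc : Commute A₁ A₂)
    {x : H} {r : ℂ → ℝ} (hr : Measurable r) (h : Rep A₁ A₂ x x fun p => (r p : ℂ)) (η : 𝓢(ℂ, ℂ)) :
    ‖J A₁ A₂ η x‖ₑ ≤ eLpNorm η 2 (mu r) := by
  refine enorm_le_of_rep (h.JJ h1 h2 hc η) hr η.continuous.measurable fun p => ?_
  rw [norm_mul, RCLike.norm_conj, norm_mul, Complex.norm_real, Real.norm_eq_abs]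
  apply le_of_eq; ring

theorem enorm_JJ_le (h1 : IsSelfAdjoint A₁) (h2 : IsSelfAdjoint A₂) (hc : Commute A₁ A₂)
    {x : H} {r : ℂ → ℝ} (hr : Measurable r) (h : Rep A₁ A₂ x x fun p => (r p : ℂ)) (η ψ : 𝓢(ℂ, ℂ)) :
    ‖J A₁ A₂ ψ (J A₁ A₂ η x)‖ₑ ≤ eLpNorm (fun p => ψ p * η p) 2 (mu r) := by
  refine enorm_le_of_rep ((h.JJ h1 h2 hc η).JJ h1 h2 hc ψ) hr
    (ψ.continuous.measurable.mul η.continuous.measurable) fun p => ?_
  simp only [norm_mul, RCLike.norm_conj, Complex.norm_real, Real.norm_eq_abs]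
  apply le_of_eq; ring

theorem enorm_sub_J_le (h1 : IsSelfAdjoint A₁) (h2 : IsSelfAdjoint A₂) (hc : Commute A₁ A₂)
    {x : H} {r : ℂ → ℝ} (hr : Measurable r) (h : Rep A₁ A₂ x x fun p => (r p : ℂ)) (η : 𝓢(ℂ, ℂ)) :
    ‖x - J A₁ A₂ η x‖ₑ ≤ eLpNorm (fun p => 1 - η p) 2 (mu r) := by
  have h3 := (h.sub (h.J h1 h2 hc η)).swap h1 h2
  have h4 := h3.sub (h3.J h1 h2 hc η)
  refine enorm_le_of_rep h4 hr (measurable_const.sub η.continuous.measurable) fun p => ?_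
  have e : conj ((r p : ℂ) - (r p : ℂ) * η p) - conj ((r p : ℂ) - (r p : ℂ) * η p) * η p =
    (r p : ℂ) * conj (1 - η p) * (1 - η p) := by
    simp only [map_sub, map_mul, Complex.conj_ofReal, map_one]; ring
  rw [e, norm_mul, norm_mul, RCLike.norm_conj, Complex.norm_real, Real.norm_eq_abs]
  apply le_of_eq; ring

theorem J_sub (h1 : IsSelfAdjoint A₁) (h2 : IsSelfAdjoint A₂) (hc : Commute A₁ A₂)
    (η η' : 𝓢(ℂ, ℂ)) (x : H) : J A₁ A₂ (η - η') x = J A₁ A₂ η x - J A₁ A₂ η' x := by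
  unfold J
  rw [← integral_sub (integrable_J h1 h2 hc _ x) (integrable_J h1 h2 hc _ x)]
  apply integral_congr_ae
  filter_upwards with w
  have e : 𝓕 (η - η') = 𝓕 η - 𝓕 η' := map_sub (FourierTransform.fourierCLM ℂ 𝓢(ℂ, ℂ)) η η'
  rw [e, SchwartzMap.sub_apply, sub_smul]

theorem norm_J_le (h1 : IsSelfAdjoint A₁) (h2 : IsSelfAdjoint A₂) (hc : Commute A₁ A₂)
    (ψ : 𝓢(ℂ, ℂ)) : ∃ C : ℝ, ∀ y : H, ‖J A₁ A₂ ψ y‖ ≤ C * ‖y‖ := by
  refine ⟨∫ w, ‖𝓕 ψ w‖, fun y => ?_⟩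
  unfold J
  refine (norm_integral_le_integral_norm _).trans ?_
  rw [← integral_mul_const]
  apply le_of_eq
  apply integral_congr_ae
  filter_upwards with w
  rw [norm_smul, norm_U h1 h2 hc]

theorem J_sub_right (h1 : IsSelfAdjoint A₁) (h2 : IsSelfAdjoint A₂) (hc : Commute A₁ A₂)
    (ψ : 𝓢(ℂ, ℂ)) (x y : H) : J A₁ A₂ ψ (x - y) = J A₁ A₂ ψ x - J A₁ A₂ ψ y := by
  unfold J
  rw [← integral_sub (integrable_J h1 h2 hc _ x) (integrable_J h1 h2 hc _ y)]
  apply integral_congr_ae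
  filter_upwards with w
  rw [map_sub, smul_sub]

theorem continuous_J (h1 : IsSelfAdjoint A₁) (h2 : IsSelfAdjoint A₂) (hc : Commute A₁ A₂)
    (ψ : 𝓢(ℂ, ℂ)) : Continuous fun y : H => J A₁ A₂ ψ y := by
  obtain ⟨C, hC⟩ := norm_J_le h1 h2 hc ψ
  have : LipschitzWith (Real.toNNReal C) fun y : H => J A₁ A₂ ψ y := by
    apply LipschitzWith.of_dist_le_mul
    intro x y
    rw [dist_eq_norm, dist_eq_norm, ← J_sub_right h1 h2 hc]
    refine (hC _).trans ?_
    exact mul_le_mul_of_nonneg_right (Real.le_coe_toNNReal C) (norm_nonneg _)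
  exact this.continuous

theorem eLpNorm_indicator_le {r : ℂ → ℝ} (hr : Measurable r) (M : ℝ≥0) (ψ : 𝓢(ℂ, ℂ)) :
    eLpNorm (fun p => ψ p * (indicator {p | |r p| ≤ M} (fun _ => (1:ℂ)) p)) 2 (mu r) ≤
      (NNReal.sqrt M) * eLpNorm ψ 2 volume := by
  have hS : MeasurableSet {p | |r p| ≤ M} := measurableSet_le (by fun_prop) measurable_const
  have hm : Measurable fun p => ψ p * (indicator {p | |r p| ≤ M} (fun _ => (1:ℂ)) p) :=
    ψ.continuous.measurable.mul (measurable_const.indicator hS)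
  have h1 : eLpNorm (fun p => ψ p * (indicator {p | |r p| ≤ M} (fun _ => (1:ℂ)) p)) 2 (mu r) ^ 2 ≤
      ((NNReal.sqrt M) * eLpNorm ψ 2 volume) ^ 2 := by
    rw [eLpNorm_mu_sq hr hm, mul_pow]
    have h2 := eLpNorm_nnreal_pow_eq_lintegral (f := ψ) (μ := (volume : Measure ℂ)) (p := 2) (by norm_num)
    have e : ((2 : ℝ≥0) : ℝ) = ((2 : ℕ) : ℝ) := by norm_num
    rw [e] at h2
    simp only [ENNReal.rpow_natCast] at h2
    have e2 : ((2 : ℝ≥0) : ℝ≥0∞) = 2 := by norm_num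
    rw [e2] at h2
    rw [h2, ← ENNReal.coe_pow, NNReal.sq_sqrt, ← lintegral_const_mul _ (ψ.continuous.measurable.enorm.pow_const 2)]
    apply lintegral_mono
    intro p
    beta_reduce
    by_cases hp : |r p| ≤ M
    · rw [indicator_of_mem (by exact hp), mul_one]
      gcongr
      rw [← ofReal_norm, Real.norm_eq_abs, ENNReal.ofReal_le_iff_le_toReal ENNReal.coe_ne_top]
      exact hp
    · rw [indicator_of_notMem (by exact hp), mul_zero, enorm_zero]
      simp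
  exact (ENNReal.pow_le_pow_left_iff (by norm_num)).1 h1

theorem good_exists (h1 : IsSelfAdjoint A₁) (h2 : IsSelfAdjoint A₂) (hc : Commute A₁ A₂)
    {x : H} {f : ℂ → ℂ} (hf : Rep A₁ A₂ x x f) (ε : ℝ) (hε : 0 < ε) :
    ∃ y : H, ‖x - y‖ ≤ ε ∧ ∃ C : ℝ≥0, ∀ ψ : 𝓢(ℂ, ℂ), ‖J A₁ A₂ ψ y‖ₑ ≤ C * eLpNorm ψ 2 volume := by
  obtain ⟨r, hr, h⟩ := hf.real h1 h2
  have hfin : IsFiniteMeasure (mu r) := finite_mu h.1
  -- choose the cutoff
  have hS : ∀ n : ℕ, MeasurableSet {p | (n : ℝ) < |r p|} := fun n => measurableSet_lt measurable_const (by fun_prop)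
  have htend := tendsto_measure_iInter_atTop (μ := mu r) (s := fun n : ℕ => {p | (n : ℝ) < |r p|})
    (fun n => (hS n).nullMeasurableSet) (fun m n hmn p hp => by
      simp only [mem_ofPred_eq] at hp ⊢
      exact lt_of_le_of_lt (by exact_mod_cast hmn) hp) ⟨0, measure_ne_top _ _⟩
  have hempty : (⋂ n : ℕ, {p | (n : ℝ) < |r p|}) = ∅ := by
    rw [eq_empty_iff_forall_notMem]
    intro p hp
    rw [mem_iInter] at hp
    obtain ⟨n, hn⟩ := exists_nat_gt |r p|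
    exact absurd (hp n) (not_lt.2 hn.le)
  rw [hempty, measure_empty] at htend
  have hpos : (0 : ℝ≥0∞) < ENNReal.ofReal (ε / 2) ^ 2 := by
    apply ENNReal.pow_pos
    rw [ENNReal.ofReal_pos]; linarith
  obtain ⟨n, hn⟩ := (htend.eventually (gt_mem_nhds hpos)).exists
  simp only [Function.comp_apply] at hn
  set M : ℝ≥0 := (n : ℝ≥0) with hM
  set χ : ℂ → ℂ := indicator {p | |r p| ≤ M} (fun _ => (1:ℂ)) with hχ
  have hSM : MeasurableSet {p | |r p| ≤ M} := measurableSet_le (by fun_prop) measurable_const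
  have hχm : Measurable χ := measurable_const.indicator hSM
  have hχ1 : eLpNorm (fun p => 1 - χ p) 2 (mu r) ≤ ENNReal.ofReal (ε / 2) := by
    have e : (fun p => 1 - χ p) = indicator {p | (n : ℝ) < |r p|} (fun _ => (1:ℂ)) := by
      funext p
      by_cases hp : |r p| ≤ M
      · rw [hχ, indicator_of_mem (by exact hp), indicator_of_notMem (by
          simp only [mem_ofPred_eq, not_lt]; exact_mod_cast hp), sub_self]
      · rw [hχ, indicator_of_notMem (by exact hp), indicator_of_mem (by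
          simp only [mem_ofPred_eq]; exact_mod_cast (not_le.1 hp)), sub_zero]
    rw [e, eLpNorm_indicator_const (hS n) (by norm_num) (by norm_num)]
    have e3 : ‖(1:ℂ)‖ₑ = 1 := by simp
    rw [e3, one_mul]
    have e4 : (1 / (2 : ℝ≥0∞).toReal) = (1/2 : ℝ) := by norm_num
    rw [e4]
    calc (mu r {p | (n : ℝ) < |r p|}) ^ (1/2 : ℝ) ≤ (ENNReal.ofReal (ε / 2) ^ 2) ^ (1/2 : ℝ) :=
          ENNReal.rpow_le_rpow hn.le (by norm_num)
      _ = ENNReal.ofReal (ε / 2) := by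
          rw [← ENNReal.rpow_natCast, ← ENNReal.rpow_mul]; norm_num
  have hχL : MemLp χ 2 (mu r) := by
    apply MemLp.of_bound hχm.aestronglyMeasurable 1
    filter_upwards with p
    rw [hχ]
    by_cases hp : |r p| ≤ M
    · rw [indicator_of_mem (by exact hp)]; simp
    · rw [indicator_of_notMem (by exact hp)]; simp
  -- Schwartz approximations
  have happ : ∀ n : ℕ, ∃ η : 𝓢(ℂ, ℂ), eLpNorm (χ - (η : ℂ → ℂ)) 2 (mu r) ≤ ENNReal.ofReal (1 / (n + 1)) := by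
    intro n
    obtain ⟨g, hg1, hg2, hg3⟩ := hχL.exist_eLpNorm_sub_le (by norm_num) (by norm_num)
      (show (0:ℝ) < 1 / (n + 1) by positivity)
    exact ⟨hg1.toSchwartzMap hg2, hg3⟩
  choose η hη using happ
  have hηm : ∀ n, Measurable (η n) := fun n => (η n).continuous.measurable
  set xs : ℕ → H := fun n => J A₁ A₂ (η n) x with hxs
  have hcauchy : CauchySeq xs := by
    refine Metric.cauchySeq_iff'.2 fun δ hδ => ?_
    obtain ⟨N, hN⟩ := exists_nat_gt (2 / δ)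
    refine ⟨N, fun m hm => ?_⟩
    have hb : ‖xs m - xs N‖ₑ ≤ ENNReal.ofReal (1 / (m + 1) + 1 / (N + 1)) := by
      rw [hxs]
      simp only
      rw [← J_sub h1 h2 hc]
      refine (enorm_J_le h1 h2 hc hr h _).trans ?_
      have e : ((η m - η N : 𝓢(ℂ, ℂ)) : ℂ → ℂ) = (χ - (η N : ℂ → ℂ)) - (χ - (η m : ℂ → ℂ)) := by
        funext p
        simp [SchwartzMap.sub_apply]
      rw [e]
      refine (eLpNorm_sub_le (hχm.sub (hηm N)).aestronglyMeasurable
        (hχm.sub (hηm m)).aestronglyMeasurable (by norm_num)).trans ?_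
      rw [ENNReal.ofReal_add (by positivity) (by positivity), add_comm]
      exact add_le_add (hη m) (hη N)
    rw [← ofReal_norm, ENNReal.ofReal_le_ofReal_iff (by positivity)] at hb
    rw [dist_eq_norm]
    refine lt_of_le_of_lt hb ?_
    have hm' : (N : ℝ) ≤ m := by exact_mod_cast hm
    have hN0 : 0 < (N : ℝ) + 1 := by positivity
    have h5 : 1 / ((m:ℝ) + 1) ≤ 1 / ((N:ℝ) + 1) := one_div_le_one_div_of_le hN0 (by linarith)
    have h6 : 1 / ((N:ℝ) + 1) < δ / 2 := by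
      rw [div_lt_iff₀ hN0]
      have : 2 / δ < N + 1 := by linarith
      rw [div_lt_iff₀ hδ] at this
      linarith
    linarith
  obtain ⟨y, hy⟩ := cauchySeq_tendsto_of_complete hcauchy
  refine ⟨y, ?_, NNReal.sqrt M, fun ψ => ?_⟩
  · have h5 : Tendsto (fun n => ‖x - xs n‖) atTop (𝓝 ‖x - y‖) := (tendsto_const_nhds.sub hy).norm
    have h6 : Tendsto (fun n : ℕ => ε / 2 + 1 / ((n : ℝ) + 1)) atTop (𝓝 (ε / 2 + 0)) :=
      tendsto_const_nhds.add tendsto_one_div_add_atTop_nhds_zero_nat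
    have h7 : ∀ n : ℕ, ‖x - xs n‖ ≤ ε / 2 + 1 / ((n : ℝ) + 1) := by
      intro n
      have h8 : ‖x - xs n‖ₑ ≤ ENNReal.ofReal (ε / 2 + 1 / ((n : ℝ) + 1)) := by
        refine (enorm_sub_J_le h1 h2 hc hr h (η n)).trans ?_
        have e : (fun p => 1 - η n p) = (fun p => 1 - χ p) + (χ - (η n : ℂ → ℂ)) := by
          funext p
          simp
        rw [e, ENNReal.ofReal_add (by positivity) (by positivity)]
        refine (eLpNorm_add_le (measurable_const.sub hχm).aestronglyMeasurable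
          (hχm.sub (hηm n)).aestronglyMeasurable (by norm_num)).trans ?_
        exact add_le_add hχ1 (hη n)
      rwa [← ofReal_norm, ENNReal.ofReal_le_ofReal_iff (by positivity)] at h8
    have h9 := le_of_tendsto_of_tendsto' h5 h6 h7
    linarith
  · have hJt : Tendsto (fun n => ‖J A₁ A₂ ψ (xs n)‖ₑ) atTop (𝓝 ‖J A₁ A₂ ψ y‖ₑ) :=
      (((continuous_J h1 h2 hc ψ).tendsto y).comp hy).enorm
    obtain ⟨K, hK⟩ : ∃ K : ℝ≥0, ∀ p, ‖ψ p‖ ≤ K := by
      refine ⟨⟨SchwartzMap.seminorm ℝ 0 0 ψ, ?_⟩, fun p => SchwartzMap.norm_le_seminorm ℝ ψ p⟩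
      positivity
    have hb : ∀ n : ℕ, ‖J A₁ A₂ ψ (xs n)‖ₑ ≤ (NNReal.sqrt M) * eLpNorm ψ 2 volume +
        K * ENNReal.ofReal (1 / ((n : ℝ) + 1)) := by
      intro n
      refine (enorm_JJ_le h1 h2 hc hr h (η n) ψ).trans ?_
      have e : (fun p => ψ p * η n p) = (fun p => ψ p * χ p) - (fun p => ψ p * (χ - (η n : ℂ → ℂ)) p) := by
        funext p
        simp [mul_sub]
      rw [e]
      have m1 : Measurable fun p => ψ p * χ p := ψ.continuous.measurable.mul hχm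
      have m2 : Measurable fun p => ψ p * (χ - (η n : ℂ → ℂ)) p := ψ.continuous.measurable.mul (hχm.sub (hηm n))
      refine (eLpNorm_sub_le m1.aestronglyMeasurable m2.aestronglyMeasurable (by norm_num)).trans ?_
      refine add_le_add (eLpNorm_indicator_le hr M ψ) ?_
      refine (eLpNorm_le_nnreal_smul_eLpNorm_of_ae_le_mul (g := χ - (η n : ℂ → ℂ)) (c := K) ?_ 2).trans ?_
      · filter_upwards with p
        rw [← NNReal.coe_le_coe]
        push_cast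
        rw [norm_mul]
        exact mul_le_mul_of_nonneg_right (hK p) (norm_nonneg _)
      · rw [ENNReal.smul_def, smul_eq_mul]
        gcongr
        exact hη n
    have hlim : Tendsto (fun n : ℕ => (NNReal.sqrt M) * eLpNorm ψ 2 volume +
        K * ENNReal.ofReal (1 / ((n : ℝ) + 1))) atTop (𝓝 ((NNReal.sqrt M) * eLpNorm ψ 2 volume + K * ENNReal.ofReal 0)) := by
      apply Tendsto.add tendsto_const_nhds
      apply ENNReal.Tendsto.const_mul
      · exact ENNReal.tendsto_ofReal tendsto_one_div_add_atTop_nhds_zero_nat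
      · exact Or.inr ENNReal.coe_ne_top
    have := le_of_tendsto_of_tendsto' hJt hlim hb
    simpa using this

end Pool.Agent.H612R3.Wave
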