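import Pool.Agent.H612R3.Wave5

set_option autoImplicit false
open Filter Topology Complex MeasureTheory Set
open scoped InnerProductSpace ENNReal FourierTransform SchwartzMap ComplexConjugate NNReal

namespace Pool.Agent.H612R3.Wave

/-- an `L²` duality lemma against Schwartz functions -/
theorem duality (h : ℂ → ℂ) (hcont : Continuous h) (B : ℝ) (hB : ∀ w, ‖h w‖ ≤ B) (K : ℝ) (hK : 0 ≤ K)
    (hd : ∀ g : 𝓢(ℂ, ℂ), ‖∫ w, g w * h w‖ ≤ K * ‖g.toLp 2 (volume : Measure ℂ)‖) :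
    eLpNorm h 2 volume ≤ ENNReal.ofReal K := by
  have hint : ∀ g : 𝓢(ℂ, ℂ), Integrable fun w => g w * h w := fun g =>
    g.integrable.mul_bdd (c := B) hcont.aestronglyMeasurable (Eventually.of_forall hB)
  let Λ : 𝓢(ℂ, ℂ) →ₗ[ℂ] ℂ :=
    { toFun := fun g => ∫ w, g w * h w
      map_add' := fun g g' => by
        rw [← integral_add (hint g) (hint g')]
        apply integral_congr_ae
        filter_upwards with w
        simp [add_mul]
      map_smul' := fun c g => by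
        simp only [RingHom.id_apply, smul_eq_mul]
        rw [← integral_const_mul]
        apply integral_congr_ae
        filter_upwards with w
        simp [mul_assoc] }
  let e : 𝓢(ℂ, ℂ) →ₗ[ℂ] Lp ℂ 2 (volume : Measure ℂ) := (SchwartzMap.toLpCLM ℂ ℂ 2 volume).toLinearMap
  have hdense : DenseRange e := SchwartzMap.denseRange_toLpCLM (F := ℂ) (p := 2) (μ := (volume : Measure ℂ)) ENNReal.ofNat_ne_top
  have hbd : ∀ g, ‖Λ g‖ ≤ K * ‖e g‖ := hd
  let Λ' : Lp ℂ 2 (volume : Measure ℂ) →L[ℂ] ℂ := Λ.extendOfNorm e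
  have hΛ' : ∀ g, Λ' (e g) = Λ g := fun g => LinearMap.extendOfNorm_eq hdense ⟨K, hbd⟩ g
  have hΛn : ‖Λ'‖ ≤ K := LinearMap.opNorm_extendOfNorm_le hdense hK hbd
  let v : Lp ℂ 2 (volume : Measure ℂ) := (InnerProductSpace.toDual ℂ _).symm Λ'
  have hv : ∀ u, ⟪v, u⟫_ℂ = Λ' u := fun u => by
    rw [← InnerProductSpace.toDual_apply_apply, LinearIsometryEquiv.apply_symm_apply]
  have hvn : ‖v‖ ≤ K := by
    rw [LinearIsometryEquiv.norm_map]; exact hΛn
  have hpair : ∀ g : 𝓢(ℂ, ℂ), ∫ w, g w * conj (v w) = ∫ w, g w * h w := by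
    intro g
    have h1 : ⟪v, e g⟫_ℂ = ∫ w, g w * h w := by rw [hv, hΛ']; rfl
    rw [← h1, L2.inner_def]
    apply integral_congr_ae
    have h2 := g.coeFn_toLp 2 (volume : Measure ℂ)
    filter_upwards [h2] with w hw
    have : (e g : ℂ → ℂ) w = g w := hw
    rw [this, RCLike.inner_apply]
  have hae : ∀ᵐ w, h w = conj (v w) := by
    have hl1 : LocallyIntegrable h (volume : Measure ℂ) := hcont.locallyIntegrable
    have hl2 : LocallyIntegrable (fun w => conj (v w)) (volume : Measure ℂ) := by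
      have h3 : MemLp (fun w => conj (v w)) 2 (volume : Measure ℂ) := by
        have := (Lp.memLp v).star
        exact this
      exact h3.locallyIntegrable (by norm_num)
    apply ae_eq_of_integral_contDiff_smul_eq hl1 hl2
    intro g hg1 hg2
    have hg3 : ContDiff ℝ (⊤ : ℕ∞) (fun w => (g w : ℂ)) := Complex.ofRealCLM.contDiff.comp hg1
    have hg4 : HasCompactSupport (fun w => (g w : ℂ)) := hg2.comp_left Complex.ofReal_zero
    have := hpair (hg4.toSchwartzMap hg3)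
    simp only [HasCompactSupport.toSchwartzMap_toFun] at this
    have e1 : ∀ w : ℂ, g w • h w = (hg4.toSchwartzMap hg3) w * h w := fun w => by
      simp [Complex.real_smul]
    have e2 : ∀ w : ℂ, g w • conj (v w) = (hg4.toSchwartzMap hg3) w * conj (v w) := fun w => by
      simp [Complex.real_smul]
    simp_rw [e1, e2]
    exact this.symm
  have h5 : eLpNorm h 2 volume = eLpNorm v 2 volume := by
    apply eLpNorm_congr_norm_ae
    filter_upwards [hae] with w hw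
    rw [hw, RCLike.norm_conj]
  rw [h5]
  rw [Lp.norm_def] at hvn
  exact (ENNReal.le_ofReal_iff_toReal_le (Lp.memLp v).eLpNorm_ne_top hK).2 hvn

variable {H : Type} [NormedAddCommGroup H] [InnerProductSpace ℂ H] [CompleteSpace H]
variable {A₁ A₂ : H →L[ℂ] H}

/-- `y` is a good vector: `σ ↦ ⟪φ, U σ y⟫` is in `L²` with norm at most `K ‖φ‖` -/
def Good (A₁ A₂ : H →L[ℂ] H) (y : H) : Prop :=
  ∃ K : ℝ, 0 ≤ K ∧ ∀ φ : H, eLpNorm (fun σ : ℂ => ⟪φ, U A₁ A₂ σ y⟫_ℂ) 2 volume ≤ ENNReal.ofReal (K * ‖φ‖)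

theorem eLpNorm_two_sq {α E : Type*} [MeasurableSpace α] [NormedAddCommGroup E] (μ : Measure α) (g : α → E) :
    eLpNorm g 2 μ ^ 2 = ∫⁻ p, ‖g p‖ₑ ^ 2 ∂μ := by
  have h1 := eLpNorm_nnreal_pow_eq_lintegral (f := g) (μ := μ) (p := 2) (by norm_num)
  have e : ((2 : ℝ≥0) : ℝ) = ((2 : ℕ) : ℝ) := by norm_num
  rw [e] at h1
  simp only [ENNReal.rpow_natCast] at h1
  have e2 : ((2 : ℝ≥0) : ℝ≥0∞) = 2 := by norm_num
  rw [e2] at h1
  exact h1

theorem good_of_J (h1 : IsSelfAdjoint A₁) (h2 : IsSelfAdjoint A₂) (hc : Commute A₁ A₂) {y : H}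
    {C : ℝ≥0} (hC : ∀ ψ : 𝓢(ℂ, ℂ), ‖J A₁ A₂ ψ y‖ₑ ≤ C * eLpNorm ψ 2 volume) : Good A₁ A₂ y := by
  have hstep : ∀ φ : H, eLpNorm (fun w : ℂ => ⟪φ, U A₁ A₂ ((2 * Real.pi : ℝ) • w) y⟫_ℂ) 2 volume ≤
      ENNReal.ofReal (C * ‖φ‖) := by
    intro φ
    apply duality (B := ‖φ‖ * ‖y‖)
    · exact continuous_const.inner ((continuous_U.comp (continuous_const_smul _)).clm_apply continuous_const)
    · intro w
      refine (norm_inner_le_norm _ _).trans ?_
      rw [norm_U h1 h2 hc]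
    · positivity
    · intro g
      have e1 : ∫ w, g w * ⟪φ, U A₁ A₂ ((2 * Real.pi : ℝ) • w) y⟫_ℂ = ⟪φ, J A₁ A₂ (𝓕⁻ g) y⟫_ℂ := by
        unfold J
        rw [FourierTransform.fourier_fourierInv_eq]
        have := ContinuousLinearMap.integral_comp_comm (innerSL ℂ φ) (integrable_J h1 h2 hc g y)
        simp only [innerSL_apply_apply] at this
        rw [← this]
        apply integral_congr_ae
        filter_upwards with w
        rw [inner_smul_right]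
      rw [e1]
      refine (norm_inner_le_norm _ _).trans ?_
      have e2 := hC (𝓕⁻ g)
      have e3 : ‖J A₁ A₂ (𝓕⁻ g) y‖ ≤ C * ‖(𝓕⁻ g).toLp 2 (volume : Measure ℂ)‖ := by
        rw [SchwartzMap.norm_toLp]
        rw [← ofReal_norm] at e2
        have h3 := ((𝓕⁻ g).memLp 2 (volume : Measure ℂ)).eLpNorm_ne_top
        rw [ENNReal.ofReal_le_iff_le_toReal (ENNReal.mul_ne_top ENNReal.coe_ne_top h3), ENNReal.toReal_mul] at e2
        exact e2
      have e4 : ‖(𝓕⁻ g).toLp 2 (volume : Measure ℂ)‖ = ‖g.toLp 2 (volume : Measure ℂ)‖ := by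
        rw [← SchwartzMap.norm_fourier_toL2_eq (𝓕⁻ g), FourierTransform.fourier_fourierInv_eq]
      rw [e4] at e3
      calc ‖φ‖ * ‖J A₁ A₂ (𝓕⁻ g) y‖ ≤ ‖φ‖ * (C * ‖g.toLp 2 (volume : Measure ℂ)‖) := by gcongr
        _ = _ := by ring
  refine ⟨2 * Real.pi * C, by positivity, fun φ => ?_⟩
  have h3 : eLpNorm (fun σ : ℂ => ⟪φ, U A₁ A₂ σ y⟫_ℂ) 2 volume ^ 2 ≤ ENNReal.ofReal (2 * Real.pi * C * ‖φ‖) ^ 2 := by
    have h4 := hstep φ
    have h5 : eLpNorm (fun w : ℂ => ⟪φ, U A₁ A₂ ((2 * Real.pi : ℝ) • w) y⟫_ℂ) 2 volume ^ 2 ≤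
      ENNReal.ofReal (C * ‖φ‖) ^ 2 := by gcongr
    rw [eLpNorm_two_sq] at h5 ⊢
    have hne : (2 * Real.pi : ℝ) ≠ 0 := by positivity
    have h6 := Measure.map_addHaar_smul (volume : Measure ℂ) hne
    rw [Complex.finrank_real_complex] at h6
    have hm : Measurable fun σ : ℂ => ‖⟪φ, U A₁ A₂ σ y⟫_ℂ‖ₑ ^ 2 :=
      ((continuous_const.inner (continuous_U.clm_apply continuous_const)).measurable.enorm).pow_const 2
    have h7 : ∫⁻ w : ℂ, ‖⟪φ, U A₁ A₂ ((2 * Real.pi : ℝ) • w) y⟫_ℂ‖ₑ ^ 2 =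
        ENNReal.ofReal |((2 * Real.pi) ^ 2)⁻¹| * ∫⁻ σ : ℂ, ‖⟪φ, U A₁ A₂ σ y⟫_ℂ‖ₑ ^ 2 := by
      rw [← lintegral_map (f := fun σ : ℂ => ‖⟪φ, U A₁ A₂ σ y⟫_ℂ‖ₑ ^ 2) hm (measurable_const_smul _), h6,
        lintegral_smul_measure, smul_eq_mul]
    rw [h7] at h5
    have hpos : 0 < (2 * Real.pi) ^ 2 := by positivity
    rw [abs_of_pos (inv_pos.2 hpos)] at h5
    have h8 : ∫⁻ σ : ℂ, ‖⟪φ, U A₁ A₂ σ y⟫_ℂ‖ₑ ^ 2 = ENNReal.ofReal ((2 * Real.pi) ^ 2) *
        (ENNReal.ofReal ((2 * Real.pi) ^ 2)⁻¹ * ∫⁻ σ : ℂ, ‖⟪φ, U A₁ A₂ σ y⟫_ℂ‖ₑ ^ 2) := by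
      rw [← mul_assoc, ← ENNReal.ofReal_mul hpos.le, mul_inv_cancel₀ hpos.ne', ENNReal.ofReal_one, one_mul]
    rw [h8]
    calc _ ≤ ENNReal.ofReal ((2 * Real.pi) ^ 2) * ENNReal.ofReal (C * ‖φ‖) ^ 2 := by gcongr
      _ = _ := by
        rw [← ENNReal.ofReal_pow (by positivity), ← ENNReal.ofReal_pow (by positivity), ← ENNReal.ofReal_mul hpos.le]
        congr 1
        ring
  exact (ENNReal.pow_le_pow_left_iff (by norm_num)).1 h3

end Pool.Agent.H612R3.Wave
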