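import Pool.Agent.H612R3.Wave6

set_option autoImplicit false
open Filter Topology Complex MeasureTheory Set
open scoped InnerProductSpace ENNReal ComplexConjugate NNReal

namespace Pool.Agent.H612R3.Wave

variable {H : Type} [NormedAddCommGroup H] [InnerProductSpace ℂ H] [CompleteSpace H]
variable {A₁ A₂ : H →L[ℂ] H}

/-- approximation numbers as in the frozen statement -/
noncomputable def app (T : H →L[ℂ] H) (n : ℕ) : ℝ :=
  sInf {r : ℝ | ∃ F : H →L[ℂ] H, Module.rank ℂ (LinearMap.range (F : H →ₗ[ℂ] H)) ≤ (n : Cardinal) ∧ r = ‖T - F‖}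

theorem app_nonempty (T : H →L[ℂ] H) (n : ℕ) :
    {r : ℝ | ∃ F : H →L[ℂ] H, Module.rank ℂ (LinearMap.range (F : H →ₗ[ℂ] H)) ≤ (n : Cardinal) ∧ r = ‖T - F‖}.Nonempty := by
  refine ⟨‖T - 0‖, 0, ?_, rfl⟩
  have : LinearMap.range ((0 : H →L[ℂ] H) : H →ₗ[ℂ] H) = ⊥ := by
    ext z; simp [eq_comm]
  rw [this]
  simp

theorem app_bdd (T : H →L[ℂ] H) (n : ℕ) :
    BddBelow {r : ℝ | ∃ F : H →L[ℂ] H, Module.rank ℂ (LinearMap.range (F : H →ₗ[ℂ] H)) ≤ (n : Cardinal) ∧ r = ‖T - F‖} := by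
  refine ⟨0, ?_⟩
  rintro r ⟨F, _, rfl⟩
  exact norm_nonneg _

theorem app_nonneg (T : H →L[ℂ] H) (n : ℕ) : 0 ≤ app T n := by
  apply le_csInf (app_nonempty T n)
  rintro r ⟨F, _, rfl⟩
  exact norm_nonneg _

theorem app_anti (T : H →L[ℂ] H) {m n : ℕ} (h : m ≤ n) : app T n ≤ app T m := by
  apply csInf_le_csInf (app_bdd T n) (app_nonempty T m)
  rintro r ⟨F, hF, rfl⟩
  exact ⟨F, hF.trans (by exact_mod_cast h), rfl⟩

theorem app_exists (T : H →L[ℂ] H) (n : ℕ) {δ : ℝ} (hδ : 0 < δ) :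
    ∃ F : H →L[ℂ] H, Module.rank ℂ (LinearMap.range (F : H →ₗ[ℂ] H)) ≤ (n : Cardinal) ∧ ‖T - F‖ ≤ app T n + δ := by
  obtain ⟨r, ⟨F, hF, rfl⟩, h⟩ := exists_lt_of_csInf_lt (app_nonempty T n) (lt_add_of_pos_right (app T n) hδ)
  exact ⟨F, hF, h.le⟩

/-- `L²` bound for a finite rank operator -/
theorem finite_rank_bound {y : H} {K : ℝ} (hK : 0 ≤ K)
    (hg : ∀ φ : H, eLpNorm (fun σ : ℂ => ⟪φ, U A₁ A₂ σ y⟫_ℂ) 2 volume ≤ ENNReal.ofReal (K * ‖φ‖))
    (G : H →L[ℂ] H) (n : ℕ) (hn : Module.rank ℂ (LinearMap.range (G : H →ₗ[ℂ] H)) ≤ (n : Cardinal)) :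
    eLpNorm (fun σ : ℂ => G (U A₁ A₂ σ y)) 2 volume ≤ ENNReal.ofReal (K * (Real.sqrt n * ‖G‖)) := by
  set S := LinearMap.range (G : H →ₗ[ℂ] H) with hS
  have hfin : FiniteDimensional ℂ S := by
    rw [FiniteDimensional, ← Module.rank_lt_aleph0_iff]
    exact lt_of_le_of_lt hn (Cardinal.natCast_lt_aleph0)
  have hfr : Module.finrank ℂ S ≤ n := by
    have := Module.finrank_eq_rank ℂ S
    rw [← this] at hn
    exact_mod_cast hn
  let b := stdOrthonormalBasis ℂ S
  have h1 : ∀ z : H, ‖G z‖ₑ ^ 2 = ∑ i, ‖⟪ContinuousLinearMap.adjoint G (b i), z⟫_ℂ‖ₑ ^ 2 := by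
    intro z
    have h2 := b.sum_sq_norm_inner_right ⟨G z, ⟨z, rfl⟩⟩
    have h3 : ∀ i, ‖⟪ContinuousLinearMap.adjoint G (b i), z⟫_ℂ‖ = ‖⟪b i, (⟨G z, ⟨z, rfl⟩⟩ : S)⟫_ℂ‖ := by
      intro i
      rw [ContinuousLinearMap.adjoint_inner_left]
      rfl
    have h4 : ‖G z‖ ^ 2 = ∑ i, ‖⟪ContinuousLinearMap.adjoint G (b i), z⟫_ℂ‖ ^ 2 := by
      simp_rw [h3]
      rw [h2]
      rfl
    have h5 : ENNReal.ofReal (‖G z‖ ^ 2) = ENNReal.ofReal (∑ i, ‖⟪ContinuousLinearMap.adjoint G (b i), z⟫_ℂ‖ ^ 2) := by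
      rw [h4]
    rw [ENNReal.ofReal_sum_of_nonneg (fun i _ => by positivity), ENNReal.ofReal_pow (norm_nonneg _), ofReal_norm] at h5
    rw [h5]
    apply Finset.sum_congr rfl
    intro i _
    rw [ENNReal.ofReal_pow (norm_nonneg _), ofReal_norm]
  have h6 : eLpNorm (fun σ : ℂ => G (U A₁ A₂ σ y)) 2 volume ^ 2 ≤ ENNReal.ofReal (K * (Real.sqrt n * ‖G‖)) ^ 2 := by
    rw [eLpNorm_two_sq]
    simp_rw [h1]
    rw [lintegral_finsetSum]
    · calc ∑ i, ∫⁻ σ : ℂ, ‖⟪ContinuousLinearMap.adjoint G (b i), U A₁ A₂ σ y⟫_ℂ‖ₑ ^ 2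
          ≤ ∑ i : Fin (Module.finrank ℂ S), ENNReal.ofReal (K * ‖G‖) ^ 2 := by
            apply Finset.sum_le_sum
            intro i _
            rw [← eLpNorm_two_sq]
            have h7 := hg (ContinuousLinearMap.adjoint G (b i))
            have h8 : ‖ContinuousLinearMap.adjoint G (b i)‖ ≤ ‖G‖ := by
              refine (ContinuousLinearMap.le_opNorm _ _).trans ?_
              rw [LinearIsometryEquiv.norm_map]
              have : ‖((b i : S) : H)‖ = 1 := by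
                have := b.norm_eq_one i
                exact this
              rw [this, mul_one]
            gcongr
            refine h7.trans ?_
            apply ENNReal.ofReal_le_ofReal
            gcongr
        _ = (Module.finrank ℂ S : ℝ≥0∞) * ENNReal.ofReal (K * ‖G‖) ^ 2 := by simp
        _ ≤ (n : ℝ≥0∞) * ENNReal.ofReal (K * ‖G‖) ^ 2 := by gcongr
        _ = _ := by
            rw [← ENNReal.ofReal_natCast, ← ENNReal.ofReal_pow (by positivity), ← ENNReal.ofReal_pow (by positivity),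
              ← ENNReal.ofReal_mul (by positivity)]
            congr 1
            rw [mul_pow, mul_pow, mul_pow, Real.sq_sqrt (by positivity)]
            ring
    · intro i _
      exact ((continuous_const.inner (continuous_U.clm_apply continuous_const)).measurable.enorm).pow_const 2
  exact (ENNReal.pow_le_pow_left_iff (by norm_num)).1 h6

theorem rank_sub_le {F G : H →L[ℂ] H} {m n : ℕ}
    (hF : Module.rank ℂ (LinearMap.range (F : H →ₗ[ℂ] H)) ≤ (m : Cardinal))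
    (hG : Module.rank ℂ (LinearMap.range (G : H →ₗ[ℂ] H)) ≤ (n : Cardinal)) :
    Module.rank ℂ (LinearMap.range ((F - G : H →L[ℂ] H) : H →ₗ[ℂ] H)) ≤ ((m + n : ℕ) : Cardinal) := by
  have h1 : LinearMap.range ((F - G : H →L[ℂ] H) : H →ₗ[ℂ] H) ≤
      LinearMap.range (F : H →ₗ[ℂ] H) ⊔ LinearMap.range (G : H →ₗ[ℂ] H) := by
    rintro _ ⟨z, rfl⟩
    have : ((F - G : H →L[ℂ] H) : H →ₗ[ℂ] H) z = F z + (- G z) := by
      simp [sub_eq_add_neg]
    rw [this]
    exact Submodule.add_mem_sup ⟨z, rfl⟩ ((Submodule.neg_mem _) ⟨z, rfl⟩)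
  refine (Submodule.rank_mono h1).trans ((Submodule.rank_add_le_rank_add_rank _ _).trans ?_)
  push_cast
  exact add_le_add hF hG

/-- square integrability of `T U(σ) y` for `T` in the Lorentz ideal -/
theorem lorentz_bound {y : H} (hy : Good A₁ A₂ y) (T : H →L[ℂ] H)
    (hT : Summable fun n : ℕ => app T n / Real.sqrt ((n : ℝ) + 1)) :
    eLpNorm (fun σ : ℂ => T (U A₁ A₂ σ y)) 2 volume < ∞ := by
  obtain ⟨K, hK, hg⟩ := hy
  -- condensation
  have hcond : Summable fun k : ℕ => (2:ℝ) ^ k * (app T (2 ^ k) / Real.sqrt (((2 ^ k : ℕ) : ℝ) + 1)) := by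
    rw [summable_condensed_iff_of_nonneg (f := fun n : ℕ => app T n / Real.sqrt ((n : ℝ) + 1))]
    · exact hT
    · intro n
      have := app_nonneg T n
      positivity
    · intro m n _ hmn
      have h1 := app_anti T hmn
      have h2 := app_nonneg T n
      have h3 : Real.sqrt ((m : ℝ) + 1) ≤ Real.sqrt ((n : ℝ) + 1) := by
        apply Real.sqrt_le_sqrt
        have : (m : ℝ) ≤ n := by exact_mod_cast hmn
        linarith
      have h4 : 0 < Real.sqrt ((m : ℝ) + 1) := by positivity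
      exact div_le_div₀ (app_nonneg T m) h1 h4 h3
  have hs : Summable fun k : ℕ => Real.sqrt ((2 : ℝ) ^ k) * app T (2 ^ k) := by
    refine Summable.of_nonneg_of_le (fun k => ?_) (fun k => ?_) (hcond.mul_left (Real.sqrt 2))
    · have := app_nonneg T (2 ^ k)
      positivity
    · have h1 := app_nonneg T (2 ^ k)
      have h2 : Real.sqrt (((2 ^ k : ℕ) : ℝ) + 1) ≤ Real.sqrt 2 * Real.sqrt (2 ^ k) := by
        rw [← Real.sqrt_mul (by norm_num)]
        apply Real.sqrt_le_sqrt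
        push_cast
        have : (1:ℝ) ≤ 2 ^ k := one_le_pow₀ (by norm_num)
        linarith
      have h3 : 0 < Real.sqrt (((2 ^ k : ℕ) : ℝ) + 1) := by positivity
      have h4 : Real.sqrt 2 * ((2:ℝ) ^ k * (app T (2 ^ k) / Real.sqrt (((2 ^ k : ℕ) : ℝ) + 1))) =
          (Real.sqrt 2 * (2:ℝ) ^ k / Real.sqrt (((2 ^ k : ℕ) : ℝ) + 1)) * app T (2 ^ k) := by
        field_simp
      rw [h4]
      apply mul_le_mul_of_nonneg_right _ h1
      rw [le_div_iff₀ h3]
      calc Real.sqrt (2 ^ k) * Real.sqrt (((2 ^ k : ℕ) : ℝ) + 1) ≤ Real.sqrt (2 ^ k) * (Real.sqrt 2 * Real.sqrt (2 ^ k)) := by gcongr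
        _ = Real.sqrt 2 * (Real.sqrt (2 ^ k) * Real.sqrt (2 ^ k)) := by ring
        _ = Real.sqrt 2 * 2 ^ k := by rw [Real.mul_self_sqrt (by positivity)]
  choose F hF1 hF2 using fun k : ℕ => app_exists T (2 ^ k) (show (0:ℝ) < (1/4) ^ k by positivity)
  -- norms of differences
  set w : ℕ → ℝ := fun k => Real.sqrt ((2 ^ k : ℕ) + (2 ^ (k+1) : ℕ) : ℕ) * ‖F (k+1) - F k‖ with hw
  have hw0 : ∀ k, 0 ≤ w k := fun k => by rw [hw]; positivity
  have hsum : Summable w := by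
    have hs' : Summable fun k : ℕ => 4 * (Real.sqrt ((2 : ℝ) ^ k) * app T (2 ^ k)) + 4 * (Real.sqrt ((2 : ℝ) ^ k) * (1/4) ^ k) := by
      apply (hs.mul_left 4).add
      apply Summable.mul_left
      refine Summable.of_nonneg_of_le (fun k => by positivity) (fun k => ?_) (summable_geometric_of_lt_one (r := 1/2) (by norm_num) (by norm_num))
      have h1 : Real.sqrt ((2:ℝ) ^ k) ≤ 2 ^ k := by
        rw [Real.sqrt_le_left (by positivity)]
        have : (1:ℝ) ≤ 2 ^ k := one_le_pow₀ (by norm_num)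
        nlinarith
      calc Real.sqrt ((2:ℝ) ^ k) * (1/4) ^ k ≤ 2 ^ k * (1/4) ^ k := by gcongr
        _ = (1/2) ^ k := by rw [← mul_pow]; norm_num
    refine Summable.of_nonneg_of_le hw0 (fun k => ?_) hs'
    rw [hw]
    simp only
    have h1 : Real.sqrt (((2 ^ k + 2 ^ (k+1) : ℕ)) : ℝ) ≤ 2 * Real.sqrt ((2:ℝ) ^ k) := by
      have : (2:ℝ) * Real.sqrt ((2:ℝ) ^ k) = Real.sqrt (2 ^ 2 * (2:ℝ) ^ k) := by
        rw [Real.sqrt_mul (by norm_num), Real.sqrt_sq (by norm_num)]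
      rw [this]
      apply Real.sqrt_le_sqrt
      push_cast
      rw [pow_succ]
      have : (0:ℝ) < 2 ^ k := by positivity
      linarith
    have h2 : ‖F (k+1) - F k‖ ≤ 2 * app T (2 ^ k) + 2 * (1/4) ^ k := by
      have e : F (k+1) - F k = (T - F k) - (T - F (k+1)) := by abel
      rw [e]
      refine (norm_sub_le _ _).trans ?_
      have h3 := hF2 k
      have h4 := hF2 (k+1)
      have h5 : app T (2 ^ (k+1)) ≤ app T (2 ^ k) := app_anti T (Nat.pow_le_pow_right (by norm_num) (by omega))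
      have h6 : ((1:ℝ)/4) ^ (k+1) ≤ (1/4) ^ k := pow_le_pow_of_le_one (by norm_num) (by norm_num) (by omega)
      linarith
    calc Real.sqrt (((2 ^ k + 2 ^ (k+1) : ℕ)) : ℝ) * ‖F (k+1) - F k‖
        ≤ (2 * Real.sqrt ((2:ℝ) ^ k)) * (2 * app T (2 ^ k) + 2 * (1/4) ^ k) := by gcongr
      _ = _ := by ring
  -- uniform bound
  have hcontF : ∀ G : H →L[ℂ] H, AEStronglyMeasurable (fun σ : ℂ => G (U A₁ A₂ σ y)) volume := fun G =>
    (G.continuous.comp (continuous_U.clm_apply continuous_const)).aestronglyMeasurable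
  have hbound : ∀ k : ℕ, eLpNorm (fun σ : ℂ => F k (U A₁ A₂ σ y)) 2 volume ≤
      ENNReal.ofReal (K * (Real.sqrt (1:ℕ) * ‖F 0‖)) + ENNReal.ofReal (K * ∑ j ∈ Finset.range k, w j) := by
    intro k
    induction k with
    | zero =>
      have := finite_rank_bound hK hg (F 0) 1 (by simpa using hF1 0)
      simpa using this
    | succ k ih =>
      have e : (fun σ : ℂ => F (k+1) (U A₁ A₂ σ y)) = (fun σ : ℂ => F k (U A₁ A₂ σ y)) +
          (fun σ : ℂ => (F (k+1) - F k) (U A₁ A₂ σ y)) := by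
        funext σ
        simp
      rw [e]
      refine (eLpNorm_add_le (hcontF _) (hcontF _) (by norm_num)).trans ?_
      have h1 := finite_rank_bound hK hg (F (k+1) - F k) (2 ^ k + 2 ^ (k+1))
        (by rw [add_comm (2 ^ k) (2 ^ (k+1))]; exact rank_sub_le (by exact_mod_cast hF1 (k+1)) (by exact_mod_cast hF1 k))
      rw [Finset.sum_range_succ, mul_add, ENNReal.ofReal_add (mul_nonneg hK (Finset.sum_nonneg fun j _ => hw0 j))
        (mul_nonneg hK (hw0 k)), ← add_assoc]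
      exact add_le_add ih h1
  have hbound' : ∀ k : ℕ, eLpNorm (fun σ : ℂ => F k (U A₁ A₂ σ y)) 2 volume ≤
      ENNReal.ofReal (K * (Real.sqrt (1:ℕ) * ‖F 0‖)) + ENNReal.ofReal (K * ∑' j, w j) := by
    intro k
    refine (hbound k).trans ?_
    gcongr
    exact hsum.sum_le_tsum _ (fun j _ => hw0 j)
  -- pointwise convergence
  have hconv : Tendsto F atTop (𝓝 T) := by
    rw [tendsto_iff_norm_sub_tendsto_zero]
    have h1 : Tendsto (fun k : ℕ => app T (2 ^ k) + (1/4) ^ k) atTop (𝓝 (0 + 0)) := by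
      apply Tendsto.add
      · have h2 := hs.tendsto_atTop_zero
        refine squeeze_zero (fun k => app_nonneg T _) (fun k => ?_) h2
        have : 1 ≤ Real.sqrt ((2:ℝ) ^ k) := by
          rw [Real.one_le_sqrt]
          exact one_le_pow₀ (by norm_num)
        exact le_mul_of_one_le_left (app_nonneg T _) this
      · exact tendsto_pow_atTop_nhds_zero_of_lt_one (by norm_num) (by norm_num)
    rw [add_zero] at h1
    refine squeeze_zero (fun k => norm_nonneg _) (fun k => ?_) h1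
    rw [norm_sub_rev]
    exact hF2 k
  have hfatou := Lp.eLpNorm_lim_le_liminf_eLpNorm (p := 2) (μ := (volume : Measure ℂ))
    (f := fun k σ => F k (U A₁ A₂ σ y)) (fun k => hcontF (F k)) (fun σ => T (U A₁ A₂ σ y))
    (Eventually.of_forall fun σ => ((ContinuousLinearMap.apply ℂ H (U A₁ A₂ σ y)).continuous.tendsto T).comp hconv)
  refine lt_of_le_of_lt hfatou ?_
  refine lt_of_le_of_lt (liminf_le_of_frequently_le' (Eventually.of_forall hbound').frequently) ?_
  exact ENNReal.add_lt_top.2 ⟨ENNReal.ofReal_lt_top, ENNReal.ofReal_lt_top⟩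

end Pool.Agent.H612R3.Wave
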