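import Pool.Agent.H612R3.Wave3
import Pool.Agent.H612R3.Wave7

set_option autoImplicit false
open Filter Topology Complex MeasureTheory Set
open scoped InnerProductSpace ENNReal ComplexConjugate NNReal

namespace Pool.Agent.H612R3.Wave

variable {H : Type} [NormedAddCommGroup H] [InnerProductSpace ℂ H] [CompleteSpace H]
variable {A₁ A₂ B₁ B₂ : H →L[ℂ] H}

theorem qf_finite {y : H} (h₁ : eLpNorm (fun σ : ℂ => (A₁ - B₁) (U A₁ A₂ σ y)) 2 volume < ∞)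
    (h₂ : eLpNorm (fun σ : ℂ => (A₂ - B₂) (U A₁ A₂ σ y)) 2 volume < ∞) :
    ∫⁻ s, ENNReal.ofReal (qf A₁ A₂ B₁ B₂ y s ^ 2) < ∞ := by
  have hcont : ∀ G : H →L[ℂ] H, Continuous (fun σ : ℂ => G (U A₁ A₂ σ y)) := fun G =>
    (G.continuous.comp (continuous_U.clm_apply continuous_const))
  have e : eLpNorm (qf A₁ A₂ B₁ B₂ y) 2 volume ≤
      eLpNorm (fun σ : ℂ => (A₁ - B₁) (U A₁ A₂ σ y)) 2 volume +
      eLpNorm (fun σ : ℂ => (A₂ - B₂) (U A₁ A₂ σ y)) 2 volume := by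
    rw [← eLpNorm_norm (fun σ : ℂ => (A₁ - B₁) (U A₁ A₂ σ y)), ← eLpNorm_norm (fun σ : ℂ => (A₂ - B₂) (U A₁ A₂ σ y))]
    exact eLpNorm_add_le (hcont _).norm.aestronglyMeasurable (hcont _).norm.aestronglyMeasurable (by norm_num)
  have h3 : eLpNorm (qf A₁ A₂ B₁ B₂ y) 2 volume ^ 2 < ∞ :=
    ENNReal.pow_lt_top (lt_of_le_of_lt e (ENNReal.add_lt_top.2 ⟨h₁, h₂⟩))
  rw [eLpNorm_two_sq] at h3
  refine lt_of_le_of_lt (lintegral_mono fun s => ?_) h3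
  rw [← ofReal_norm, ← ENNReal.ofReal_pow (norm_nonneg _), Real.norm_eq_abs, sq_abs]

theorem main (a1 : IsSelfAdjoint A₁) (a2 : IsSelfAdjoint A₂) (b1 : IsSelfAdjoint B₁) (b2 : IsSelfAdjoint B₂)
    (hA : Commute A₁ A₂) (hB : Commute B₁ B₂)
    (hT1 : Summable fun n : ℕ => app (A₁ - B₁) n / Real.sqrt ((n : ℝ) + 1))
    (hT2 : Summable fun n : ℕ => app (A₂ - B₂) n / Real.sqrt ((n : ℝ) + 1))
    (hac : ∀ x : H, ∃ f : ℂ → ℂ, Rep A₁ A₂ x x f)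
    (θ₁ θ₂ : ℝ) (h1 : 0 ≤ θ₁) (h1' : θ₁ < 2 * Real.pi) (h2 : 0 ≤ θ₂) (h2' : θ₂ < 2 * Real.pi)
    (W₁ W₂ : H →L[ℂ] H) (hw₁ : ∀ x, Tendsto (fun t : ℝ => Om A₁ A₂ B₁ B₂ (pt t θ₁) x) atTop (𝓝 (W₁ x)))
    (hw₂ : ∀ x, Tendsto (fun t : ℝ => Om A₁ A₂ B₁ B₂ (pt t θ₂) x) atTop (𝓝 (W₂ x))) : W₁ = W₂ := by
  have hgood : ∀ y, Good A₁ A₂ y → W₁ y = W₂ y := by
    intro y hy
    exact limits_eq hA hB b1 b2 y (qf_finite (lorentz_bound hy _ hT1) (lorentz_bound hy _ hT2))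
      θ₁ θ₂ h1 h1' h2 h2' _ _ (hw₁ y) (hw₂ y)
  ext x
  have h3 : ‖(W₁ - W₂) x‖ ≤ 0 := by
    apply le_of_forall_pos_le_add
    intro δ hδ
    obtain ⟨f, hf⟩ := hac x
    have hε : 0 < δ / (‖W₁ - W₂‖ + 1) := by positivity
    obtain ⟨y, hy, C, hC⟩ := good_exists a1 a2 hA hf _ hε
    have hy2 := hgood y (good_of_J a1 a2 hA hC)
    have e : (W₁ - W₂) x = (W₁ - W₂) (x - y) := by
      rw [map_sub]
      have : (W₁ - W₂) y = 0 := by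
        show W₁ y - W₂ y = 0
        rw [hy2, sub_self]
      rw [this, sub_zero]
    rw [e]
    calc ‖(W₁ - W₂) (x - y)‖ ≤ ‖W₁ - W₂‖ * ‖x - y‖ := ContinuousLinearMap.le_opNorm _ _
      _ ≤ (‖W₁ - W₂‖ + 1) * (δ / (‖W₁ - W₂‖ + 1)) := by gcongr; linarith
      _ = δ := by field_simp
      _ = 0 + δ := by ring
  have h4 := norm_le_zero_iff.1 h3
  exact sub_eq_zero.1 h4

theorem rep_of_prod {x : H} {f : ℝ × ℝ → ℂ} (hf : Integrable f)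
    (h : ∀ s t : ℝ, ⟪x, NormedSpace.exp (((s : ℂ) * Complex.I) • A₁ + ((t : ℂ) * Complex.I) • A₂) x⟫_ℂ
      = ∫ p : ℝ × ℝ, f p * Complex.exp (Complex.I * ((s : ℂ) * (p.1 : ℂ) + (t : ℂ) * (p.2 : ℂ)))) :
    Rep A₁ A₂ x x (fun p => f (Complex.measurableEquivRealProd p)) := by
  have hmp := Complex.volume_preserving_equiv_real_prod
  refine ⟨(hmp.integrable_comp_emb Complex.measurableEquivRealProd.measurableEmbedding).2 hf, fun σ => ?_⟩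
  unfold U
  rw [h]
  exact (hmp.integral_comp Complex.measurableEquivRealProd.measurableEmbedding
    (fun p : ℝ × ℝ => f p * Complex.exp (Complex.I * ((σ.re : ℂ) * (p.1 : ℂ) + (σ.im : ℂ) * (p.2 : ℂ))))).symm

theorem Om_pt (t θ : ℝ) : Om A₁ A₂ B₁ B₂ (pt t θ) =
    NormedSpace.exp ((-((t : ℂ) * Complex.I)) • ((Real.cos θ : ℂ) • B₁ + (Real.sin θ : ℂ) • B₂)) *
      NormedSpace.exp (((t : ℂ) * Complex.I) • ((Real.cos θ : ℂ) • A₁ + (Real.sin θ : ℂ) • A₂)) := by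
  unfold Om U pt
  congr 2
  · rw [smul_add, smul_smul, smul_smul]
    congr 2
    · simp only [neg_re, ofReal_neg, ofReal_mul]; ring
    · simp only [neg_im, ofReal_neg, ofReal_mul]; ring
  · rw [smul_add, smul_smul, smul_smul]
    congr 2
    · simp only [ofReal_mul]; ring
    · simp only [ofReal_mul]; ring

end Pool.Agent.H612R3.Wave
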